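import Pool.Agent.Lib.MP_c05f82_nt.GC.Defs

/-!
Congruence subgroups of the Iwahori subgroup: closure, commutators, layers.
-/

open scoped commutatorElement

namespace Pool.Agent.Lib.MP_c05f82_nt.GC

variable {K : Type} [Field K]

namespace Dat

variable {D : Dat K}

theorem Gm.one (i k l : ℕ) : D.Gm i k l 1 := by
  refine ⟨(L.zero _).of_eq (by simp), (L.zero _).of_eq (by simp), (L.zero _).of_eq (by simp),
    (L.zero _).of_eq (by simp)⟩

theorem Gm.mul {i k l : ℕ} (hi : i ≤ k + l) {g h : SL K} (hg : D.Gm i k l g)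
    (hh : D.Gm i k l h) : D.Gm i k l (g * h) := by
  obtain ⟨ga, gb, gc, gd⟩ := hg
  obtain ⟨ha, hb, hc, hd⟩ := hh
  refine ⟨?_, ?_, ?_, ?_⟩
  · exact (((ga.mul ha.of_sub_one (k := i) (by omega)).add ha).add
      (gb.mul hc hi)).of_eq (by simp only [SL.mul_a]; ring)
  · exact ((ga.of_sub_one.mul hb (k := k) (by omega)).add
      (gb.mul hd.of_sub_one (by omega))).of_eq (by simp only [SL.mul_b])
  · exact ((gc.mul ha.of_sub_one (k := l) (by omega)).add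
      (gd.of_sub_one.mul hc (by omega))).of_eq (by simp only [SL.mul_c])
  · exact (((gd.mul hd.of_sub_one (k := i) (by omega)).add hd).add
      (gc.mul hb (by omega))).of_eq (by simp only [SL.mul_d]; ring)

theorem Gm.inv {i k l : ℕ} {g : SL K} (hg : D.Gm i k l g) : D.Gm i k l g⁻¹ := by
  obtain ⟨ga, gb, gc, gd⟩ := hg
  exact ⟨gd, gb.neg, gc.neg, ga⟩

theorem Gm.mono {i k l i' k' l' : ℕ} {g : SL K} (hg : D.Gm i k l g) (hi : i' ≤ i) (hk : k' ≤ k)
    (hl : l' ≤ l) : D.Gm i' k' l' g := by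
  obtain ⟨ga, gb, gc, gd⟩ := hg
  exact ⟨ga.mono hi, gb.mono hk, gc.mono hl, gd.mono hi⟩

theorem Gm.de {i k l : ℕ} {g : SL K} (hg : D.Gm i k l g) : D.Gm i k l g.de := by
  obtain ⟨ga, gb, gc, gd⟩ := hg
  exact ⟨ga, gb.neg, gc.neg, gd⟩

theorem Gm.be {i k : ℕ} {g : SL K} (hg : D.Gm i k (k + 1) g) : D.Gm i k (k + 1) (D.be g) := by
  obtain ⟨ga, gb, gc, gd⟩ := hg
  exact ⟨gd, gc.div_p, gb.mul_p, ga⟩

theorem filt_quot {i k l : ℕ} {A B : SL K} (hB : D.Gm 1 0 1 B) (ha : D.L i (A.a - B.a))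
    (hb : D.L k (A.b - B.b)) (hc : D.L l (A.c - B.c)) (hd : D.L i (A.d - B.d))
    (h1 : i ≤ k + 1) (h2 : k ≤ i) (h3 : l ≤ i + 1) (h4 : i ≤ l) : D.Gm i k l (A * B⁻¹) := by
  obtain ⟨ga, gb, gc, gd⟩ := hB
  refine ⟨?_, ?_, ?_, ?_⟩
  · exact ((ha.mul gd.of_sub_one (k := i) (by omega)).sub (hb.mul gc h1)).of_eq
      (by simp only [SL.mul_a, SL.inv_a, SL.inv_c]; linear_combination B.det)
  · exact ((hb.mul ga.of_sub_one (k := k) (by omega)).sub (ha.mul gb (by omega))).of_eq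
      (by simp only [SL.mul_b, SL.inv_b, SL.inv_d]; ring)
  · exact ((hc.mul gd.of_sub_one (k := l) (by omega)).sub (hd.mul gc h3)).of_eq
      (by simp only [SL.mul_c, SL.inv_a, SL.inv_c]; ring)
  · exact ((hd.mul ga.of_sub_one (k := i) (by omega)).sub (hc.mul gb (by omega))).of_eq
      (by simp only [SL.mul_d, SL.inv_b, SL.inv_d]; linear_combination B.det)

theorem filt_comm (x g : SL K) : ⁅x, g⁆ = x * g * (g * x)⁻¹ := by
  rw [commutatorElement_def, mul_inv_rev, mul_assoc (x * g)]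

theorem Gm.comm_V {j : ℕ} {x g : SL K} (hx : D.Gm (j + 1) j (j + 1) x) (hg : D.Gm 1 0 1 g) :
    D.Gm (j + 1) (j + 1) (j + 2) ⁅x, g⁆ := by
  have hB : D.Gm 1 0 1 (g * x) := Gm.mul (by omega) hg (hx.mono (by omega) (by omega) (by omega))
  obtain ⟨xa, xb, xc, xd⟩ := hx
  obtain ⟨ga, gb, gc, gd⟩ := hg
  rw [filt_comm]
  refine filt_quot hB ?_ ?_ ?_ ?_ (by omega) (by omega) (by omega) (by omega)
  · exact ((xb.mul gc (by omega)).sub (gb.mul xc (by omega))).of_eq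
      (by simp only [SL.mul_a]; ring)
  · exact ((gb.mul (xa.sub xd) (by omega)).add (xb.mul (gd.sub ga) (by omega))).of_eq
      (by simp only [SL.mul_b]; ring)
  · exact ((xc.mul (ga.sub gd) (by omega)).add (gc.mul (xd.sub xa) (by omega))).of_eq
      (by simp only [SL.mul_c]; ring)
  · exact ((xc.mul gb (by omega)).sub (gc.mul xb (by omega))).of_eq
      (by simp only [SL.mul_d]; ring)

theorem Gm.comm_H {j : ℕ} {x g : SL K} (hx : D.Gm (j + 1) (j + 1) (j + 2) x)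
    (hg : D.Gm 1 0 1 g) : D.Gm (j + 2) (j + 1) (j + 2) ⁅x, g⁆ := by
  have hB : D.Gm 1 0 1 (g * x) := Gm.mul (by omega) hg (hx.mono (by omega) (by omega) (by omega))
  obtain ⟨xa, xb, xc, xd⟩ := hx
  obtain ⟨ga, gb, gc, gd⟩ := hg
  rw [filt_comm]
  refine filt_quot hB ?_ ?_ ?_ ?_ (by omega) (by omega) (by omega) (by omega)
  · exact ((xb.mul gc (by omega)).sub (gb.mul xc (by omega))).of_eq
      (by simp only [SL.mul_a]; ring)
  · exact ((gb.mul (xa.sub xd) (by omega)).add (xb.mul (gd.sub ga) (by omega))).of_eq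
      (by simp only [SL.mul_b]; ring)
  · exact ((xc.mul (ga.sub gd) (by omega)).add (gc.mul (xd.sub xa) (by omega))).of_eq
      (by simp only [SL.mul_c]; ring)
  · exact ((xc.mul gb (by omega)).sub (gc.mul xb (by omega))).of_eq
      (by simp only [SL.mul_d]; ring)

theorem co_b_mul {j : ℕ} {x y : SL K} (hx : D.Gm (j + 1) j (j + 1) x)
    (hy : D.Gm (j + 1) j (j + 1) y) : D.co j (x * y).b = D.co j x.b + D.co j y.b := by
  obtain ⟨xa, xb, xc, xd⟩ := hx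
  obtain ⟨ya, yb, yc, yd⟩ := hy
  rw [← co_add xb yb]
  exact co_congr (xb.add yb) (((xa.mul yb (by omega)).add (xb.mul yd (by omega))).of_eq
    (by simp only [SL.mul_b]; ring))

theorem co_c_mul {j : ℕ} {x y : SL K} (hx : D.Gm (j + 1) j (j + 1) x)
    (hy : D.Gm (j + 1) j (j + 1) y) :
    D.co (j + 1) (x * y).c = D.co (j + 1) x.c + D.co (j + 1) y.c := by
  obtain ⟨xa, xb, xc, xd⟩ := hx
  obtain ⟨ya, yb, yc, yd⟩ := hy
  rw [← co_add xc yc]
  exact co_congr (xc.add yc) (((xc.mul ya (by omega)).add (xd.mul yc (by omega))).of_eq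
    (by simp only [SL.mul_c]; ring))

theorem co_bc_zero {j : ℕ} {x : SL K} (hx : D.Gm (j + 1) j (j + 1) x) :
    (D.co j x.b = 0 ∧ D.co (j + 1) x.c = 0) ↔ D.Gm (j + 1) (j + 1) (j + 2) x := by
  obtain ⟨xa, xb, xc, xd⟩ := hx
  rw [co_eq_zero_iff xb, co_eq_zero_iff xc]
  exact ⟨fun h => ⟨xa, h.1, h.2, xd⟩, fun h => ⟨h.2.1, h.2.2.1⟩⟩

theorem co_a_mul {j : ℕ} {x y : SL K} (hx : D.Gm (j + 1) (j + 1) (j + 2) x)
    (hy : D.Gm (j + 1) (j + 1) (j + 2) y) :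
    D.co (j + 1) ((x * y).a - 1) = D.co (j + 1) (x.a - 1) + D.co (j + 1) (y.a - 1) := by
  obtain ⟨xa, xb, xc, xd⟩ := hx
  obtain ⟨ya, yb, yc, yd⟩ := hy
  rw [← co_add xa ya]
  exact co_congr (xa.add ya) (((xa.mul ya (by omega)).add (xb.mul yc (by omega))).of_eq
    (by simp only [SL.mul_a]; ring))

theorem co_d_eq {j : ℕ} {x : SL K} (hx : D.Gm (j + 1) (j + 1) (j + 2) x) :
    D.co (j + 1) (x.d - 1) = -D.co (j + 1) (x.a - 1) := by
  obtain ⟨xa, xb, xc, xd⟩ := hx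
  have h : D.co (j + 1) (x.a - 1 + (x.d - 1)) = 0 :=
    (co_eq_zero_iff (xa.add xd)).2 (((xb.mul xc (by omega)).sub (xa.mul xd (by omega))).of_eq
      (by linear_combination x.det))
  rw [co_add xa xd] at h
  linear_combination h

theorem co_a_zero {j : ℕ} {x : SL K} (hx : D.Gm (j + 1) (j + 1) (j + 2) x) :
    D.co (j + 1) (x.a - 1) = 0 ↔ D.Gm (j + 2) (j + 1) (j + 2) x := by
  have hd := co_d_eq hx
  obtain ⟨xa, xb, xc, xd⟩ := hx
  constructor
  · intro h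
    rw [h, neg_zero] at hd
    exact ⟨(co_eq_zero_iff xa).1 h, xb, xc, (co_eq_zero_iff xd).1 hd⟩
  · intro h
    exact (co_eq_zero_iff xa).2 h.1

/-- the pro-three Iwahori subgroup is generated by unipotent elements -/
theorem Gm.decomp {g : SL K} (hg : D.Gm 1 0 1 g) : ∃ y y' b : K, D.L 1 y ∧ D.L 1 y' ∧ D.L 0 b ∧
    g = SL.fM y * SL.eM 1 * SL.fM y' * SL.eM b := by
  obtain ⟨ga, gb, gc, gd⟩ := hg
  have h0 := ga.ne_zero
  refine ⟨(g.c - (g.a - 1)) * g.a⁻¹, g.a - 1, (g.b - 1) * g.a⁻¹,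
    (gc.sub ga).mul ga.inv (by omega), ga, (gb.sub L.one).mul ga.inv (by omega), ?_⟩
  have hdet := g.det
  ext
  · simp
  · simp only [SL.mul_a, SL.mul_b, SL.fM_a, SL.fM_b, SL.fM_c, SL.fM_d, SL.eM_a, SL.eM_b, SL.eM_c,
      SL.eM_d]
    field_simp
    ring
  · simp only [SL.mul_c, SL.mul_d, SL.fM_a, SL.fM_c, SL.fM_d, SL.eM_a, SL.eM_b, SL.eM_c,
      SL.eM_d]
    field_simp
    ring
  · simp only [SL.mul_c, SL.mul_d, SL.fM_a, SL.fM_b, SL.fM_c, SL.fM_d, SL.eM_a, SL.eM_b, SL.eM_c,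
      SL.eM_d]
    field_simp
    linear_combination g.a * hdet

theorem filt_pow {k : ℕ} (hk : 0 < k) (n : ℕ) :
    D.L (k + 1) ((1 + D.p ^ k) ^ n - 1 - n * D.p ^ k) := by
  induction n with
  | zero => exact (L.zero _).of_eq (by simp)
  | succ n ih =>
    have h0 : D.L 0 (1 + D.p ^ k) := L.one.add ((L.pow k).mono (Nat.zero_le _))
    exact ((ih.mul h0 (k := k + 1) (by omega)).add
      (((L.nat n).mul (L.pow k) (k := k) (by omega)).mul (L.pow k) (by omega))).of_eq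
      (by push_cast; ring)

/-- on one-units of level `3 m` the symbol is a multiple of one character -/
theorem c_level {u : K} (hu : D.L (3 * D.m) (u - 1)) {y : K} (hy : y ≠ 0) :
    D.c u y = D.co (3 * D.m) (u - 1) * D.c (1 + D.p ^ (3 * D.m)) y := by
  have hm : 0 < 3 * D.m := by have := D.m_pos; omega
  obtain ⟨r, h1, e1⟩ := hu.exists_co
  obtain ⟨n, hn⟩ : ∃ n : ℕ, (n : ℤ) = r % 3 := ⟨(r % 3).toNat, by omega⟩
  have hrn : ((r - n : ℤ) : ZMod 3) = 0 := by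
    rw [ZMod.intCast_zmod_eq_zero_iff_dvd]; omega
  have h2 : D.L 1 ((r - n : ℤ) : K) := L_int_iff.2 hrn
  have h3 := filt_pow (D := D) hm n
  have hu0 : D.L 1 (1 + D.p ^ (3 * D.m) - 1) :=
    ((L.pow (3 * D.m)).mono hm).of_eq (by ring)
  have h4 : D.L 1 ((1 + D.p ^ (3 * D.m)) ^ n - 1) :=
    ((h3.mono (by omega)).add ((L.nat n).mul (L.pow (3 * D.m)) (by omega))).of_eq (by ring)
  have h5 : D.L (3 * D.m + 1) (u - (1 + D.p ^ (3 * D.m)) ^ n) :=
    ((h1.add (h2.mul (L.pow (3 * D.m)) (by omega))).sub h3).of_eq (by push_cast; ring)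
  have hne := h4.ne_zero
  have h6 : D.L (3 * D.m + 1) (u * ((1 + D.p ^ (3 * D.m)) ^ n)⁻¹ - 1) :=
    (h5.mul h4.inv (by omega)).of_eq (by field_simp)
  obtain ⟨w, hw, e⟩ := h6.exists_cube
  have hw0 := hw.ne_zero
  have e2 : u = w ^ 3 * (1 + D.p ^ (3 * D.m)) ^ n := by rw [e]; field_simp
  have e3 : (r : ZMod 3) = n := by
    rw [Int.cast_sub, Int.cast_natCast, sub_eq_zero] at hrn; exact hrn
  rw [e1, e3, ← D.c_pow_left y hu0.ne_zero n]
  conv_lhs => rw [e2]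
  rw [D.c_mul_left y (pow_ne_zero _ hw0) hne, D.c_cube_left y hw0, zero_add]

end Dat

end Pool.Agent.Lib.MP_c05f82_nt.GC
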