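import Pool.Agent.Lib.MP_c05f82_nt.GC.Cov
import Pool.Agent.Lib.MP_c05f82_nt.GC.Filt

/-!
The bottom of the filtration of the cover.
-/

open scoped commutatorElement

namespace Pool.Agent.Lib.MP_c05f82_nt.GC

variable {K : Type} [Field K]

namespace Dat

variable (D : Dat K)

/-- the last congruence subgroup -/
abbrev G0 (g : SL K) : Prop := D.Gm (3 * D.m) (3 * D.m) (3 * D.m + 1) g

noncomputable def s1 (g : SL K) : ZMod 3 := D.c g.a g.x

/-- the splitting over the last congruence subgroup -/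
noncomputable def ss (g : SL K) : ZMod 3 := D.s1 g + D.s1 (D.be g)

lemma exists_pred : ∃ n, 3 * D.m = n + 1 := ⟨3 * D.m - 1, by have := D.m_pos; omega⟩

variable {D}

lemma lev_ne {u : K} (hu : D.L (3 * D.m) (u - 1)) : u ≠ 0 :=
  (hu.mono (by have := D.m_pos; omega)).ne_zero

lemma lev_u0 : D.L (3 * D.m) (1 + D.p ^ (3 * D.m) - 1) := (L.pow _).of_eq (by ring)

lemma c_lev_lev {u w : K} (hu : D.L (3 * D.m) (u - 1)) (hw : D.L (3 * D.m) (w - 1)) :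
    D.c u w = 0 := by
  have h0 := lev_ne (D := D) lev_u0
  rw [c_level hu (lev_ne hw), D.c_swap (lev_ne hw) h0, c_level hw h0, D.c_self h0]
  simp

lemma G0.co_mul {x y : SL K} (hx : D.G0 x) (hy : D.G0 y) : D.co (3 * D.m) ((x * y).a - 1) =
    D.co (3 * D.m) (x.a - 1) + D.co (3 * D.m) (y.a - 1) := by
  obtain ⟨n, hn⟩ := D.exists_pred
  unfold G0 at hx hy
  rw [hn] at hx hy ⊢
  exact co_a_mul hx hy

lemma G0.co_d {x : SL K} (hx : D.G0 x) :
    D.co (3 * D.m) (x.d - 1) = -D.co (3 * D.m) (x.a - 1) := by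
  obtain ⟨n, hn⟩ := D.exists_pred
  unfold G0 at hx
  rw [hn] at hx ⊢
  exact co_d_eq hx

lemma G0.mul {x y : SL K} (hx : D.G0 x) (hy : D.G0 y) : D.G0 (x * y) :=
  Gm.mul (by omega) hx hy

lemma G0.conj {x g : SL K} (hx : D.G0 x) (hg : D.Gm 1 0 1 g) : D.G0 (g * x * g⁻¹) := by
  obtain ⟨n, hn⟩ := D.exists_pred
  have h : D.G0 ⁅x, g⁆ := by
    unfold G0 at hx ⊢
    rw [hn] at hx ⊢
    exact (Gm.comm_H hx hg).mono (by omega) le_rfl le_rfl
  rw [show g * x * g⁻¹ = ⁅x, g⁆⁻¹ * x by simp only [commutatorElement_def]; group]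
  exact G0.mul h.inv hx

lemma G0.sig {t t' : SL K} (h : D.G0 t) (h' : D.G0 t') :
    D.sig t t' = D.s1 (t * t') - D.s1 t - D.s1 t' := by
  have x0 := (t * t').x_ne
  rw [D.sig_eq (lev_ne h'.1) (lev_ne h.2.2.2), c_lev_lev h'.1 h.2.2.2, s1, s1, s1,
    c_level h'.1 (div_ne_zero x0 t'.x_ne), c_level h.2.2.2 (div_ne_zero x0 t.x_ne),
    c_level (h.mul h').1 x0, c_level h.1 t.x_ne, c_level h'.1 t'.x_ne, h.co_mul h', h.co_d,
    D.c_div_right _ x0 t.x_ne, D.c_div_right _ x0 t'.x_ne]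
  ring

lemma G0.sg {t t' : SL K} (h : D.G0 t) (h' : D.G0 t') :
    D.sg t t' = D.ss (t * t') - D.ss t - D.ss t' := by
  rw [Dat.sg, h.sig h', G0.sig (Gm.be h) (Gm.be h'), ss, ss, ss, be_mul]
  ring

lemma G0.ss_eq {t : SL K} (h : D.G0 t) (hc : t.c ≠ 0) (hb : t.b ≠ 0) :
    D.ss t = D.co (3 * D.m) (t.a - 1) *
      (D.c (1 + D.p ^ (3 * D.m)) t.c - D.c (1 + D.p ^ (3 * D.m)) (D.p * t.b)) := by
  have hb' : (D.be t).c ≠ 0 := mul_ne_zero D.p_ne hb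
  rw [ss, s1, s1, SL.x_of_ne hc, SL.x_of_ne hb', c_level h.1 hc, be_a, c_level h.2.2.2 hb',
    h.co_d, be_c]
  ring

lemma ss_one : D.ss 1 = 0 := by simp [ss, s1, c_one_left]

lemma ss_be (g : SL K) : D.ss (D.be g) = D.ss g := by rw [ss, ss, be_be, add_comm]

lemma s1_de (g : SL K) : D.s1 g.de = D.s1 g := by
  by_cases h : g.c = 0
  · rw [s1, s1, SL.x_of_eq h, SL.x_of_eq (by simp [h])]; rfl
  · rw [s1, s1, SL.x_of_ne h, SL.x_of_ne (by simp [h]), SL.de_c, D.c_neg_right _ h]; rfl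

lemma ss_de (g : SL K) : D.ss g.de = D.ss g := by rw [ss, ss, be_de, s1_de, s1_de]

lemma G0.sig_conj {t n n' : SL K} (h : D.G0 t) (hn : n.d = 1) (hn' : n'.a = 1)
    (hd : D.L (3 * D.m + 1) ((n * t).d - t.d)) (ha : D.L (3 * D.m + 1) ((n * t * n').a - t.a)) :
    D.sig n t + D.sig (n * t) n' = D.s1 (n * t * n') - D.s1 t := by
  have x1 := (n * t).x_ne
  have x2 := (n * t * n').x_ne
  have ld : D.L (3 * D.m) ((n * t).d - 1) :=
    ((hd.mono (by omega)).add h.2.2.2).of_eq (by ring)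
  have la : D.L (3 * D.m) ((n * t * n').a - 1) :=
    ((ha.mono (by omega)).add h.1).of_eq (by ring)
  have cd : D.co (3 * D.m) ((n * t).d - 1) = D.co (3 * D.m) (t.d - 1) :=
    co_congr h.2.2.2 (hd.of_eq (by ring))
  have ca : D.co (3 * D.m) ((n * t * n').a - 1) = D.co (3 * D.m) (t.a - 1) :=
    co_congr h.1 (ha.of_eq (by ring))
  rw [D.sig_eq (lev_ne h.1) (by simp [hn]), D.sig_eq (by simp [hn']) (lev_ne ld), hn, hn',
    D.c_one_left, D.c_one_left, D.c_one_left, D.c_one_right, s1, s1,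
    c_level h.1 (div_ne_zero x1 t.x_ne), c_level ld (div_ne_zero x2 x1), c_level la x2,
    c_level h.1 t.x_ne, cd, ca, h.co_d, D.c_div_right _ x1 t.x_ne, D.c_div_right _ x2 x1]
  ring

lemma G0.sg_conj {t : SL K} (h : D.G0 t) {b : K} (hb : D.L 0 b) :
    D.sg (SL.eM b) t + D.sg (SL.eM b * t) (SL.eM (-b)) =
      D.ss (SL.eM b * t * SL.eM (-b)) - D.ss t := by
  have h1 := h.sig_conj (n := SL.eM b) (n' := SL.eM (-b)) rfl rfl
    ((L.zero _).of_eq (by simp)) ((hb.mul h.2.2.1 (by omega)).of_eq (by simp))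
  have h' : D.G0 (D.be t) := Gm.be h
  have h2 := h'.sig_conj (n := SL.fM (D.p * b)) (n' := SL.fM (D.p * -b)) rfl rfl
    ((hb.mul_p.mul h'.2.1 (by omega)).of_eq (by simp))
    ((hb.neg.mul_p.mul h'.2.1 (by omega)).of_eq (by simp; ring))
  simp only [Dat.sg, ss, be_mul, be_eM]
  linear_combination h1 + h2

end Dat

namespace Cov

variable (D : Dat K)

/-- the bottom of the filtration -/
def S : Subgroup (Cov D) where
  carrier := {x | D.G0 x.g ∧ x.z = D.ss x.g}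
  mul_mem' := fun {x y} hx hy => ⟨hx.1.mul hy.1, by
    rw [mul_z, mul_g, hx.1.sg hy.1, hx.2, hy.2]; ring⟩
  one_mem' := ⟨Dat.Gm.one _ _ _, Dat.ss_one.symm⟩
  inv_mem' := fun {x} hx => ⟨hx.1.inv, by
    rw [inv_z, inv_g, Dat.G0.sg hx.1.inv hx.1, inv_mul_cancel, Dat.ss_one, hx.2]; ring⟩

variable {D}

lemma mem_S {x : Cov D} : x ∈ S D ↔ D.G0 x.g ∧ x.z = D.ss x.g := Iff.rfl

lemma be_S {x : Cov D} (hx : x ∈ S D) : be D x ∈ S D :=
  ⟨Dat.Gm.be hx.1, by rw [be_z, be_g, Dat.ss_be, hx.2]⟩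

lemma de_S {x : Cov D} (hx : x ∈ S D) : de D x ∈ S D :=
  ⟨Dat.Gm.de hx.1, by rw [de_z, de_g, Dat.ss_de, hx.2]⟩

lemma Gm_eM {k : ℕ} {b : K} (hb : D.L k b) (i l : ℕ) : D.Gm i k l (SL.eM b) :=
  ⟨(Dat.L.zero _).of_eq (by simp), hb, Dat.L.zero _, (Dat.L.zero _).of_eq (by simp)⟩

lemma Gm_fM {l : ℕ} {y : K} (hy : D.L l y) (i k : ℕ) : D.Gm i k l (SL.fM y) :=
  ⟨(Dat.L.zero _).of_eq (by simp), Dat.L.zero _, hy, (Dat.L.zero _).of_eq (by simp)⟩

lemma conj_E {b : K} (hb : D.L 0 b) {x : Cov D} (hx : x ∈ S D) :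
    E D b * x * (E D b)⁻¹ ∈ S D := by
  refine ⟨hx.1.conj (Gm_eM hb 1 1), ?_⟩
  rw [E_inv]
  simp only [mul_z, mul_g, E_g, E_z, hx.2]
  linear_combination hx.1.sg_conj hb

lemma conj_F {y : K} (hy : D.L 1 y) {x : Cov D} (hx : x ∈ S D) :
    F D y * x * (F D y)⁻¹ ∈ S D := by
  have h := be_S (conj_E hy.div_p (be_S hx))
  have := D.p_ne
  rwa [map_mul, map_mul, map_inv, be_be, be_E, show D.p * (y / D.p) = y by field_simp] at h

lemma conj_S {g : Cov D} (hg : D.Gm 1 0 1 g.g) {x : Cov D} (hx : x ∈ S D) :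
    g * x * g⁻¹ ∈ S D := by
  obtain ⟨y, y', b, hy, hy', hb, e⟩ := hg.decomp
  obtain ⟨k, hk⟩ : ∃ k, g = F D y * E D 1 * F D y' * E D b * zc D k :=
    ⟨g.z - (F D y * E D 1 * F D y' * E D b).z, by rw [mul_zc]; exact Cov.ext e (by simp)⟩
  have h := conj_F hy (conj_E Dat.L.one (conj_F hy' (conj_E hb hx)))
  have hz : zc D k * x * (zc D k)⁻¹ = x := by rw [(zc_comm D x k).eq, mul_inv_cancel_right]
  rw [← hz] at h
  rw [hk]
  convert h using 1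
  group

lemma comm_S {x g : Cov D} (hx : D.G0 x.g) (hg : D.Gm 1 0 1 g.g) : ⁅x, g⁆ ∈ S D := by
  obtain ⟨s, hs, k, rfl⟩ : ∃ s ∈ S D, ∃ k, x = s * zc D k :=
    ⟨⟨x.g, D.ss x.g⟩, ⟨hx, rfl⟩, x.z - D.ss x.g, by rw [mul_zc]; exact Cov.ext rfl (by simp)⟩
  have hz : zc D k * g * (zc D k)⁻¹ = g := by rw [(zc_comm D g k).eq, mul_inv_cancel_right]
  have : ⁅s * zc D k, g⁆ = s * ((zc D k * g * (zc D k)⁻¹) * s⁻¹ * g⁻¹) := by
    simp only [commutatorElement_def]; group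
  rw [this, hz]
  exact mul_mem hs (conj_S hg (inv_mem hs))

/-- the commutator of two opposite unipotent elements -/
lemma comm_EF (b y : K) (hby : b * y ≠ 0) (h1 : 1 - b * y ≠ 0) (h2 : 1 + b * y ≠ 0) :
    ⁅E D b, F D y⁆ = ⟨⟨1 + b * y + b ^ 2 * y ^ 2, -(b ^ 2 * y), b * y ^ 2, 1 - b * y, by ring⟩, 0⟩ := by
  have hp := D.p_ne
  have hb : b ≠ 0 := left_ne_zero_of_mul hby
  have hy : y ≠ 0 := right_ne_zero_of_mul hby
  rw [commutatorElement_def, E_inv, F_inv]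
  refine Cov.ext (by ext <;> simp <;> ring) ?_
  have a1 : D.sig (SL.eM b * SL.fM y * SL.eM (-b)) (SL.fM (-y)) = 0 := by
    have d : (SL.eM b * SL.fM y * SL.eM (-b)).d = 1 - b * y := by simp; ring
    have c : (SL.eM b * SL.fM y * SL.eM (-b)).c = y := by simp
    have c' : (SL.eM b * SL.fM y * SL.eM (-b) * SL.fM (-y)).c = b * y * y := by simp; ring
    rw [D.sig_eq (by simp) (d ▸ h1), d, SL.x_of_ne (g := _ * SL.fM (-y)) (c' ▸ mul_ne_zero hby hy),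
      SL.x_of_ne (g := _ * SL.eM (-b)) (c.symm ▸ hy), c, c', SL.fM_a, D.c_one_left, D.c_one_left,
      mul_div_cancel_right₀ _ hy, D.c_add_one h1 hby (by ring)]
    simp
  have a2 : D.sig (SL.fM (D.p * b) * SL.eM (y / D.p)) (SL.fM (D.p * -b)) = 0 := by
    have d : (SL.fM (D.p * b) * SL.eM (y / D.p)).d = 1 + b * y := by simp; field_simp; ring
    have c : (SL.fM (D.p * b) * SL.eM (y / D.p)).c = D.p * b := by simp
    have c' : (SL.fM (D.p * b) * SL.eM (y / D.p) * SL.fM (D.p * -b)).c =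
        -(b * y) * (D.p * b) := by simp; field_simp; ring
    have hpb := mul_ne_zero hp hb
    rw [D.sig_eq (by simp) (d ▸ h2), d,
      SL.x_of_ne (g := _ * SL.fM (D.p * -b)) (c' ▸ mul_ne_zero (neg_ne_zero.2 hby) hpb),
      SL.x_of_ne (g := _ * SL.eM (y / D.p)) (c.symm ▸ hpb), c, c', SL.fM_a, D.c_one_left,
      D.c_one_left, mul_div_cancel_right₀ _ hpb, D.c_add_one h2 (neg_ne_zero.2 hby) (by ring)]
    simp
  have a3 : D.sig (SL.fM (D.p * b) * SL.eM (y / D.p) * SL.fM (D.p * -b)) (SL.eM (-y / D.p)) = 0 := by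
    have c' : (SL.fM (D.p * b) * SL.eM (y / D.p) * SL.fM (D.p * -b)).c =
        -(b * y) * (D.p * b) := by simp; field_simp; ring
    have hne := mul_ne_zero (neg_ne_zero.2 hby) (mul_ne_zero hp hb)
    have c2 : (SL.fM (D.p * b) * SL.eM (y / D.p) * SL.fM (D.p * -b) * SL.eM (-y / D.p)).c =
        -(b * y) * (D.p * b) := by rw [← c']; simp
    rw [Dat.sig, SL.x_of_ne (g := _ * SL.eM (-y / D.p)) (c2 ▸ hne),
      SL.x_of_ne (g := _ * SL.fM (D.p * -b)) (c' ▸ hne), c2, c', div_self hne, D.c_one_left]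
  simp only [mul_z, mul_g, E_g, F_g, E_z, F_z, Dat.sg, D.be_mul, D.be_eM, D.be_fM, a1, a2, a3]
  rw [D.sig_of_one rfl rfl, D.sig_of_one rfl rfl, D.sig_of_one rfl (by simp)]
  simp

lemma key {n : ℕ} (hn : 3 * D.m = n + 1) : ⁅E D (D.p ^ n), F D (D.p ^ 1)⁆ ∉ S D := by
  have hp := D.p_ne
  have e : D.p ^ n * D.p ^ 1 = D.p ^ (3 * D.m) := by rw [hn, pow_add]
  have hN := pow_ne_zero (3 * D.m) hp
  have l : D.L (3 * D.m) (D.p ^ n * D.p ^ 1) := e ▸ Dat.L.pow _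
  rw [comm_EF _ _ (e ▸ hN) (Dat.lev_ne (l.neg.of_eq (by ring))) (Dat.lev_ne (l.of_eq (by ring)))]
  rintro ⟨h, hz⟩
  have ca : D.co (3 * D.m) (1 + D.p ^ n * D.p ^ 1 + (D.p ^ n) ^ 2 * (D.p ^ 1) ^ 2 - 1) = 1 := by
    rw [← Dat.co_pow (D := D) (3 * D.m)]
    exact Dat.co_congr (Dat.L.pow _) ((l.mul l (by omega)).of_eq (by rw [← e]; ring))
  have n1 : D.p ^ n * (D.p ^ 1) ^ 2 ≠ 0 := by positivity
  have n2 : -((D.p ^ n) ^ 2 * D.p ^ 1) ≠ 0 := neg_ne_zero.2 (by positivity)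
  rw [h.ss_eq n1 n2] at hz
  simp only at hz
  rw [ca, show D.p ^ n * (D.p ^ 1) ^ 2 = D.p * (D.p ^ D.m) ^ 3 by
      rw [← pow_mul D.p D.m, mul_comm D.m, hn]; ring,
    show D.p * -((D.p ^ n) ^ 2 * D.p ^ 1) = -((D.p ^ (2 * D.m)) ^ 3) by
      rw [← pow_mul D.p (2 * D.m), show 2 * D.m * 3 = 2 * (n + 1) by omega]; ring,
    D.c_neg_right _ (by positivity), D.c_cube_right _ (by positivity),
    D.c_mul_right _ hp (by positivity), D.c_cube_right _ (by positivity)] at hz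
  exact D.key (by simpa using hz.symm)

end Cov

end Pool.Agent.Lib.MP_c05f82_nt.GC
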