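import Pool.Agent.Lib.MP_c05f82_nt.GC.Defs

/-!
Products of groups of coprime orders.
-/

open scoped commutatorElement

namespace Pool.Agent.Lib.MP_c05f82_nt.GC

theorem Cop_eq {G H : Type} [Group G] [Group H] (h : (Nat.card G).Coprime (Nat.card H))
    (N : Subgroup (G × H)) :
    (N.comap (MonoidHom.inl G H)).prod (N.comap (MonoidHom.inr G H)) = N := by
  ext ⟨a, b⟩
  change ((a, 1) ∈ N ∧ (1, b) ∈ N) ↔ _
  refine ⟨fun ⟨h1, h2⟩ => by simpa using mul_mem h1 h2, fun hab => ?_⟩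
  obtain ⟨n, h1, h2⟩ := Nat.chineseRemainder h 1 0
  have e : (a, b) ^ n = (a, 1) := by
    rw [Prod.pow_mk, pow_eq_pow_of_modEq h1 pow_card_eq_one', pow_eq_pow_of_modEq h2 pow_card_eq_one',
      pow_one, pow_zero]
  have h3 : (a, 1) ∈ N := e ▸ pow_mem hab n
  exact ⟨h3, by simpa using mul_mem (inv_mem h3) hab⟩

theorem Cop_wt {G H : Type} [Group G] [Group H] [Finite G] [Finite H]
    (h : (Nat.card G).Coprime (Nat.card H)) {q : Subgroup (G × H) → Prop} {q₁ : Subgroup G → Prop}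
    {q₂ : Subgroup H → Prop} (hq : ∀ A B, q (A.prod B) ↔ q₁ A ∧ q₂ B) :
    wt q = wt q₁ * wt q₂ := by
  classical
  have := Fintype.ofFinite (Subgroup G)
  have := Fintype.ofFinite (Subgroup H)
  rw [wt_eq_sum (Finset.univ.filter q₁) (by simp), wt_eq_sum (Finset.univ.filter q₂) (by simp),
    wt_eq_sum ((Finset.univ.filter q₁ ×ˢ Finset.univ.filter q₂).image fun x => x.1.prod x.2),
    Finset.sum_image, Finset.sum_mul_sum, Finset.sum_product]
  · refine Finset.sum_congr rfl fun A _ => Finset.sum_congr rfl fun B _ => ?_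
    rw [Nat.card_congr (A.prodEquiv B).toEquiv, Nat.card_prod]
  · rintro ⟨A, B⟩ - ⟨A', B'⟩ - e
    have e' : ∀ a b, a ∈ A ∧ b ∈ B ↔ a ∈ A' ∧ b ∈ B' := fun a b => SetLike.ext_iff.1 e (a, b)
    exact Prod.ext (Subgroup.ext fun a => by simpa using e' a 1)
      (Subgroup.ext fun b => by simpa using e' 1 b)
  · intro N
    simp only [Finset.mem_image, Finset.mem_product, Finset.mem_filter, Finset.mem_univ, true_and]
    refine ⟨fun ⟨x, hx, e⟩ => e ▸ (hq _ _).2 hx, fun hN => ⟨(_, _), ?_, Cop_eq h N⟩⟩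
    exact (hq _ _).1 ((Cop_eq h N).symm ▸ hN)

theorem Cop_add_eq {G H : Type} [AddGroup G] [AddGroup H] (h : (Nat.card G).Coprime (Nat.card H))
    (N : AddSubgroup (G × H)) :
    (N.comap (AddMonoidHom.inl G H)).prod (N.comap (AddMonoidHom.inr G H)) = N := by
  ext ⟨a, b⟩
  change ((a, 0) ∈ N ∧ (0, b) ∈ N) ↔ _
  refine ⟨fun ⟨h1, h2⟩ => by simpa using add_mem h1 h2, fun hab => ?_⟩
  obtain ⟨n, h1, h2⟩ := Nat.chineseRemainder h 1 0
  have e : n • (a, b) = (a, 0) := by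
    rw [Prod.smul_mk, nsmul_eq_nsmul_of_modEq h1 card_nsmul_eq_zero',
      nsmul_eq_nsmul_of_modEq h2 card_nsmul_eq_zero', one_nsmul, zero_nsmul]
  have h3 : (a, 0) ∈ N := e ▸ nsmul_mem hab n
  exact ⟨h3, by simpa using add_mem (neg_mem h3) hab⟩

theorem Cop_awt {G H : Type} [AddGroup G] [AddGroup H] [Finite G] [Finite H]
    (h : (Nat.card G).Coprime (Nat.card H)) {q : AddSubgroup (G × H) → Prop}
    {q₁ : AddSubgroup G → Prop} {q₂ : AddSubgroup H → Prop}
    (hq : ∀ A B, q (A.prod B) ↔ q₁ A ∧ q₂ B) : awt q = awt q₁ * awt q₂ := by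
  classical
  have := Fintype.ofFinite (AddSubgroup G)
  have := Fintype.ofFinite (AddSubgroup H)
  rw [awt_eq_sum (Finset.univ.filter q₁) (by simp), awt_eq_sum (Finset.univ.filter q₂) (by simp),
    awt_eq_sum ((Finset.univ.filter q₁ ×ˢ Finset.univ.filter q₂).image fun x => x.1.prod x.2),
    Finset.sum_image, Finset.sum_mul_sum, Finset.sum_product]
  · refine Finset.sum_congr rfl fun A _ => Finset.sum_congr rfl fun B _ => ?_
    rw [Nat.card_congr (A.prodEquiv B).toEquiv, Nat.card_prod]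
  · rintro ⟨A, B⟩ - ⟨A', B'⟩ - e
    have e' : ∀ a b, a ∈ A ∧ b ∈ B ↔ a ∈ A' ∧ b ∈ B' := fun a b => SetLike.ext_iff.1 e (a, b)
    exact Prod.ext (AddSubgroup.ext fun a => by simpa using e' a 0)
      (AddSubgroup.ext fun b => by simpa using e' 0 b)
  · intro N
    simp only [Finset.mem_image, Finset.mem_product, Finset.mem_filter, Finset.mem_univ, true_and]
    refine ⟨fun ⟨x, hx, e⟩ => e ▸ (hq _ _).2 hx, fun hN => ⟨(_, _), ?_, Cop_add_eq h N⟩⟩
    exact (hq _ _).1 ((Cop_add_eq h N).symm ▸ hN)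

theorem DD_prod (G H : Type) [Group G] [Group H] [Finite G] [Finite H]
    (h : (Nat.card G).Coprime (Nat.card H)) : DD (G × H) = DD G * DD H := by
  refine Cop_wt h fun A B => ⟨fun hn => ⟨⟨fun a ha g => ?_⟩, ⟨fun b hb g => ?_⟩⟩,
    fun ⟨_, _⟩ => inferInstance⟩
  · exact (hn.conj_mem (a, 1) ⟨ha, one_mem _⟩ (g, 1)).1
  · exact (hn.conj_mem (1, b) ⟨one_mem _, hb⟩ (1, g)).2

theorem DD_prime (p : ℕ) (hp : p.Prime) : DD (Multiplicative (ZMod p)) = p + 1 := by
  classical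
  have : Fact p.Prime := ⟨hp⟩
  have hc : Nat.card (Multiplicative (ZMod p)) = p := by simp
  have : Fact (Nat.card (Multiplicative (ZMod p))).Prime := ⟨by rwa [hc]⟩
  rw [DD, wt_eq_sum (q := fun N : Subgroup (Multiplicative (ZMod p)) => N.Normal) {⊤, ⊥}
    fun N => ⟨fun _ => inferInstance, fun _ => by
      simpa [or_comm] using N.eq_bot_or_eq_top_of_prime_card⟩, Finset.sum_pair top_ne_bot,
    Subgroup.card_top, Subgroup.card_bot, hc]

theorem DW_prod {W W' : Type} [AddCommGroup W] [AddCommGroup W'] [Finite W] [Finite W']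
    (ω : W →+ W) (ω' : W' →+ W') (h : (Nat.card W).Coprime (Nat.card W')) :
    DW (ω.prodMap ω') = DW ω * DW ω' := by
  refine Cop_awt h fun A B => ⟨fun hn => ⟨fun a ha => ?_, fun b hb => ?_⟩,
    fun ⟨h1, h2⟩ x hx => ⟨h1 _ hx.1, h2 _ hx.2⟩⟩
  · exact (hn (a, 0) ⟨ha, zero_mem _⟩).1
  · exact (hn (0, b) ⟨zero_mem _, hb⟩).2

theorem Eis.prod {W W' : Type} [AddCommGroup W] [AddCommGroup W']
    {ω : W →+ W} {ω' : W' →+ W'} (h : Eis ω) (h' : Eis ω') : Eis (ω.prodMap ω') := by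
  obtain ⟨n, hn⟩ := h.div
  obtain ⟨m, hm⟩ := h'.div
  refine ⟨fun x => Prod.ext (h.rel x.1) (h'.rel x.2), n + m - 3 * n * m, fun x => Prod.ext ?_ ?_⟩
  · rw [Prod.smul_fst, show 3 * (n + m - 3 * n * m) = (1 - 3 * m) * (3 * n) + 3 * m by ring,
      add_smul, mul_smul, hn, ← add_smul, sub_add_cancel, one_smul]
  · rw [Prod.smul_snd, show 3 * (n + m - 3 * n * m) = (1 - 3 * n) * (3 * m) + 3 * n by ring,
      add_smul, mul_smul, hm, ← add_smul, sub_add_cancel, one_smul]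

end Pool.Agent.Lib.MP_c05f82_nt.GC
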