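import Pool.Agent.Lib.MP_c05f82_nt.GC.Kub

/-!
The threefold cover of the special linear group and its two involutions.
-/

open scoped commutatorElement

namespace Pool.Agent.Lib.MP_c05f82_nt.GC

variable {K : Type} [Field K]

namespace Dat

variable (D : Dat K)

lemma sig_one_left (g : SL K) : D.sig 1 g = 0 := by
  rw [sig, one_mul, div_self g.x_ne, c_one_right]

lemma sig_one_right (g : SL K) : D.sig g 1 = 0 := by
  rw [sig, mul_one, div_self g.x_ne, c_one_left]

lemma be_one : D.be 1 = 1 := by ext <;> simp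

lemma be_inv (g : SL K) : D.be g⁻¹ = (D.be g)⁻¹ := by ext <;> simp [neg_div]

lemma sg_one_left (g : SL K) : D.sg 1 g = 0 := by simp [sg, be_one, sig_one_left]

lemma sg_one_right (g : SL K) : D.sg g 1 = 0 := by simp [sg, be_one, sig_one_right]

lemma sg_cocycle (g h k : SL K) : D.sg g h + D.sg (g * h) k = D.sg g (h * k) + D.sg h k := by
  simp only [sg, be_mul]
  linear_combination D.sig_cocycle g h k + D.sig_cocycle (D.be g) (D.be h) (D.be k)

lemma sg_be (g h : SL K) : D.sg (D.be g) (D.be h) = D.sg g h := by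
  simp only [sg, be_be, add_comm]

lemma sg_de (g h : SL K) : D.sg g.de h.de = D.sg g h := by
  simp only [sg, be_de, sig_de]

lemma sig_of_one {g h : SL K} (ha : h.a = 1) (hd : g.d = 1) : D.sig g h = 0 := by
  rw [D.sig_eq (by simp [ha]) (by simp [hd]), ha, hd]
  simp [c_one_left]

lemma be_eM (b : K) : D.be (SL.eM b) = SL.fM (D.p * b) := by ext <;> simp

lemma be_fM (y : K) : D.be (SL.fM y) = SL.eM (y / D.p) := by ext <;> simp

lemma be_hM {u : K} (hu : u ≠ 0) : D.be (SL.hM u) = SL.hM u⁻¹ := by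
  ext <;> simp [SL.hM_a, SL.hM_d, hu]

end Dat

/-- the cover -/
@[ext] structure Cov (D : Dat K) where
  g : SL K
  z : ZMod 3

namespace Cov

variable {D : Dat K}

noncomputable instance : Mul (Cov D) := ⟨fun x y => ⟨x.g * y.g, x.z + y.z + D.sg x.g y.g⟩⟩
instance : One (Cov D) := ⟨⟨1, 0⟩⟩
noncomputable instance : Inv (Cov D) := ⟨fun x => ⟨x.g⁻¹, -x.z - D.sg x.g⁻¹ x.g⟩⟩

@[simp] lemma mul_g (x y : Cov D) : (x * y).g = x.g * y.g := rfl
lemma mul_z (x y : Cov D) : (x * y).z = x.z + y.z + D.sg x.g y.g := rfl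
@[simp] lemma one_g : (1 : Cov D).g = 1 := rfl
@[simp] lemma one_z : (1 : Cov D).z = 0 := rfl
@[simp] lemma inv_g (x : Cov D) : (x⁻¹).g = x.g⁻¹ := rfl
lemma inv_z (x : Cov D) : (x⁻¹).z = -x.z - D.sg x.g⁻¹ x.g := rfl

noncomputable instance : Group (Cov D) := Group.ofLeftAxioms
  (fun x y w => Cov.ext (mul_assoc _ _ _) (by
    simp only [mul_z, mul_g]
    linear_combination D.sg_cocycle x.g y.g w.g))
  (fun x => Cov.ext (one_mul _) (by simp [mul_z, D.sg_one_left]))
  (fun x => Cov.ext (inv_mul_cancel _) (by simp only [mul_z, inv_z, inv_g, one_z]; ring))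

@[simp] lemma comm_g (x y : Cov D) : (⁅x, y⁆).g = ⁅x.g, y.g⁆ := rfl

variable (D)

/-- the first involution -/
noncomputable def be : MulAut (Cov D) where
  toFun x := ⟨D.be x.g, x.z⟩
  invFun x := ⟨D.be x.g, x.z⟩
  left_inv x := Cov.ext (D.be_be _) rfl
  right_inv x := Cov.ext (D.be_be _) rfl
  map_mul' x y := Cov.ext (D.be_mul _ _) (by simp only [mul_z, D.sg_be])

/-- the second involution -/
noncomputable def de : MulAut (Cov D) where
  toFun x := ⟨x.g.de, x.z⟩
  invFun x := ⟨x.g.de, x.z⟩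
  left_inv x := Cov.ext (SL.de_de _) rfl
  right_inv x := Cov.ext (SL.de_de _) rfl
  map_mul' x y := Cov.ext (SL.de_mul _ _) (by simp only [mul_z, D.sg_de])

@[simp] lemma be_g (x : Cov D) : (be D x).g = D.be x.g := rfl
@[simp] lemma be_z (x : Cov D) : (be D x).z = x.z := rfl
@[simp] lemma de_g (x : Cov D) : (de D x).g = x.g.de := rfl
@[simp] lemma de_z (x : Cov D) : (de D x).z = x.z := rfl

lemma be_be (x : Cov D) : be D (be D x) = x := Cov.ext (D.be_be _) rfl
lemma de_de (x : Cov D) : de D (de D x) = x := Cov.ext (SL.de_de _) rfl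
lemma be_de (x : Cov D) : be D (de D x) = de D (be D x) := Cov.ext (D.be_de _) rfl

/-- lifts -/
def E (b : K) : Cov D := ⟨SL.eM b, 0⟩
def F (y : K) : Cov D := ⟨SL.fM y, 0⟩
noncomputable def Hh (u : K) : Cov D := ⟨SL.hM u, 0⟩
def zc (k : ZMod 3) : Cov D := ⟨1, k⟩

@[simp] lemma E_g (b : K) : (E D b).g = SL.eM b := rfl
@[simp] lemma F_g (b : K) : (F D b).g = SL.fM b := rfl
@[simp] lemma Hh_g (b : K) : (Hh D b).g = SL.hM b := rfl
@[simp] lemma zc_g (k : ZMod 3) : (zc D k).g = 1 := rfl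
@[simp] lemma E_z (b : K) : (E D b).z = 0 := rfl
@[simp] lemma F_z (b : K) : (F D b).z = 0 := rfl
@[simp] lemma Hh_z (b : K) : (Hh D b).z = 0 := rfl
@[simp] lemma zc_z (k : ZMod 3) : (zc D k).z = k := rfl

lemma be_E (b : K) : be D (E D b) = F D (D.p * b) := Cov.ext (D.be_eM b) rfl
lemma be_F (y : K) : be D (F D y) = E D (y / D.p) := Cov.ext (D.be_fM y) rfl
lemma be_zc (k : ZMod 3) : be D (zc D k) = zc D k := Cov.ext D.be_one rfl
lemma de_zc (k : ZMod 3) : de D (zc D k) = zc D k := Cov.ext (by ext <;> simp) rfl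
lemma de_E (b : K) : de D (E D b) = E D (-b) := Cov.ext (by ext <;> simp) rfl
lemma de_Hh (u : K) : de D (Hh D u) = Hh D u := Cov.ext (by ext <;> simp) rfl

lemma E_add (b b' : K) : E D b * E D b' = E D (b + b') := by
  refine Cov.ext (by ext <;> simp; ring) ?_
  simp only [mul_z, E_g, E_z, Dat.sg, D.be_eM]
  rw [D.sig_of_one rfl rfl, D.sig_of_one rfl rfl]; simp

lemma E_zero : E D 0 = 1 := Cov.ext (by ext <;> simp) rfl

lemma E_inv (b : K) : (E D b)⁻¹ = E D (-b) :=
  inv_eq_of_mul_eq_one_right (by rw [E_add, add_neg_cancel, E_zero])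

lemma F_inv (y : K) : (F D y)⁻¹ = F D (-y) := by
  have h := D.p_ne
  have := congrArg (be D) (E_inv D (y / D.p))
  rw [map_inv, be_E, be_E] at this
  rwa [show D.p * (y / D.p) = y by field_simp, show D.p * -(y / D.p) = -y by field_simp] at this

lemma E_comm (b b' : K) : Commute (E D b) (E D b') := by
  rw [Commute, SemiconjBy, E_add, E_add, add_comm]

lemma mul_zc (x : Cov D) (k : ZMod 3) : x * zc D k = ⟨x.g, x.z + k⟩ :=
  Cov.ext (mul_one _) (by simp [mul_z, D.sg_one_right])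

lemma zc_mul (x : Cov D) (k : ZMod 3) : zc D k * x = ⟨x.g, x.z + k⟩ :=
  Cov.ext (one_mul _) (by simp [mul_z, D.sg_one_left, add_comm])

lemma zc_comm (x : Cov D) (k : ZMod 3) : Commute (zc D k) x := by
  rw [Commute, SemiconjBy, mul_zc, zc_mul]

lemma be_Hh {u : K} (hu : u ≠ 0) : be D (Hh D u) = (Hh D u)⁻¹ := by
  have hi := inv_ne_zero hu
  have e : ∀ {w : K}, w ≠ 0 → D.sig (SL.hM w⁻¹) (SL.hM w) = 0 := fun {w} hw => by
    have hw' := inv_ne_zero hw
    have : SL.hM w⁻¹ * SL.hM w = 1 := by ext <;> simp [SL.hM_a, SL.hM_d, hw]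
    rw [Dat.sig, this, SL.x_of_eq (SL.hM_c _), SL.x_of_eq (SL.hM_c _), SL.x_of_eq SL.one_c,
      SL.hM_d hw, SL.hM_d hw', SL.one_d, inv_inv, one_div, one_div, inv_inv, D.c_inv_left _ hw,
      D.c_self hw, neg_zero]
  refine eq_inv_of_mul_eq_one_left (Cov.ext ?_ ?_)
  · ext <;> simp [SL.hM_a, SL.hM_d, hu]
  · simp only [mul_z, be_g, be_z, Hh_g, Hh_z, Dat.sg, D.be_hM hu, e hu, one_z]
    have := e hi
    rw [inv_inv] at this
    simp [D.be_hM hi, this]

end Cov

end Pool.Agent.Lib.MP_c05f82_nt.GC
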