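import Pool.Agent.Lib.MP_c05f82_nt.GC.Defs

/-!
Deep one-units are cubes.
-/

open scoped commutatorElement

namespace Pool.Agent.Lib.MP_c05f82_nt.GC

section aux

variable {Ω : Type} [NormedField Ω] [IsUltrametricDist Ω]

lemma cube_add_lt {a b : Ω} {r : ℝ} (ha : ‖a‖ < r) (hb : ‖b‖ < r) : ‖a + b‖ < r :=
  (IsUltrametricDist.norm_add_le_max a b).trans_lt (max_lt ha hb)

lemma cube_add_le {a b : Ω} {r : ℝ} (ha : ‖a‖ ≤ r) (hb : ‖b‖ ≤ r) : ‖a + b‖ ≤ r :=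
  (IsUltrametricDist.norm_add_le_max a b).trans (max_le ha hb)

omit [IsUltrametricDist Ω] in
lemma cube_mul_le {a b : Ω} (ha : ‖a‖ ≤ 1) (hb : ‖b‖ ≤ 1) : ‖a * b‖ ≤ 1 := by
  rw [norm_mul]; exact mul_le_one₀ ha (norm_nonneg _) hb

omit [IsUltrametricDist Ω] in
lemma cube_mul_lt {a b : Ω} (ha : ‖a‖ < 1) (hb : ‖b‖ ≤ 1) : ‖a * b‖ < 1 := by
  rw [norm_mul]
  exact (mul_le_of_le_one_right (norm_nonneg _) hb).trans_lt ha

lemma cube_uniq {A B Y u v : Ω} (hA : ‖A‖ < 1) (hB : ‖B‖ < 1) (hu : ‖u‖ ≤ 1) (hv : ‖v‖ ≤ 1)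
    (eu : A * u ^ 3 - B * u ^ 2 - u - Y = 0) (ev : A * v ^ 3 - B * v ^ 2 - v - Y = 0) :
    u = v := by
  by_contra h
  have h0 : u - v ≠ 0 := sub_ne_zero.2 h
  have e : (1 : Ω) = A * (u * u + u * v + v * v) + (-B) * (u + v) :=
    mul_left_cancel₀ h0 (by linear_combination ev - eu)
  have h1 : ‖A * (u * u + u * v + v * v) + (-B) * (u + v)‖ < 1 :=
    cube_add_lt (cube_mul_lt hA (cube_add_le (cube_add_le (cube_mul_le hu hu) (cube_mul_le hu hv))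
      (cube_mul_le hv hv))) (cube_mul_lt (by rwa [norm_neg]) (cube_add_le hu hv))
  rw [← e, norm_one] at h1
  exact lt_irrefl _ h1

lemma cube_ex [IsAlgClosed Ω] {A B Y : Ω} (hA : A ≠ 0) (hY : ‖Y‖ ≤ 1) :
    ∃ u : Ω, ‖u‖ ≤ 1 ∧ A * u ^ 3 - B * u ^ 2 - u - Y = 0 := by
  let P : Cubic Ω := ⟨A, -B, -1, -Y⟩
  have ha : P.a ≠ 0 := hA
  obtain ⟨x, y, z, h3⟩ := (Cubic.splits_iff_roots_eq_three (φ := RingHom.id Ω) ha).1
    (IsAlgClosed.splits _)
  have hb : -B = A * -(x + y + z) := Cubic.b_eq_three_roots ha h3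
  have hc : -1 = A * (x * y + x * z + y * z) := Cubic.c_eq_three_roots ha h3
  have hd : -Y = A * -(x * y * z) := Cubic.d_eq_three_roots ha h3
  by_cases hx : ‖x‖ ≤ 1
  · exact ⟨x, hx, by linear_combination x ^ 2 * hb + x * hc + hd⟩
  by_cases hy : ‖y‖ ≤ 1
  · exact ⟨y, hy, by linear_combination y ^ 2 * hb + y * hc + hd⟩
  by_cases hz : ‖z‖ ≤ 1
  · exact ⟨z, hz, by linear_combination z ^ 2 * hb + z * hc + hd⟩
  exfalso
  push Not at hx hy hz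
  have key : ∀ a b c : Ω, 1 < ‖a‖ → 1 < ‖b‖ → 1 < ‖c‖ → Y = A * (a * b) * c →
      ‖A * (a * b)‖ < 1 := by
    intro a b c h1 h2 h3 e
    have hp : 0 < ‖A * (a * b)‖ := by
      rw [norm_mul, norm_mul]
      exact mul_pos (norm_pos_iff.2 hA) (mul_pos (by linarith) (by linarith))
    rw [e, norm_mul] at hY
    nlinarith
  have h1 : ‖A * (x * y) + A * (x * z) + A * (y * z)‖ < 1 :=
    cube_add_lt (cube_add_lt (key x y z hx hy hz (by linear_combination -hd))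
      (key x z y hx hz hy (by linear_combination -hd)))
      (key y z x hy hz hx (by linear_combination -hd))
  rw [show A * (x * y) + A * (x * z) + A * (y * z) = -1 by linear_combination -hc, norm_neg,
    norm_one] at h1
  exact lt_irrefl _ h1

end aux

theorem Loc.cube {K Ω : Type} [Field K] [NormedField Ω] [Algebra K Ω] [IsUltrametricDist Ω]
    [IsAlgClosed Ω] [IsGalois K Ω] (L : Loc K Ω) (y : K) (hy : ‖algebraMap K Ω y‖ ≤ 1) :
    ∃ w : K, ‖algebraMap K Ω w‖ ≤ 1 ∧ (1 + L.p * w) ^ 3 = 1 + L.p ^ (3 * L.m + 1) * y := by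
  have hp := L.p_lt
  have hq : ‖algebraMap K Ω (L.p ^ L.m)‖ ≤ 1 := by
    rw [map_pow, norm_pow]; exact pow_le_one₀ (norm_nonneg _) hp.le
  have hA : ‖algebraMap K Ω (L.p * L.p)‖ < 1 := by
    rw [map_mul]; exact cube_mul_lt hp hp.le
  have hB : ‖algebraMap K Ω (L.p * L.p ^ L.m)‖ < 1 := by
    rw [map_mul]; exact cube_mul_lt hp hq
  have hA0 : algebraMap K Ω (L.p * L.p) ≠ 0 :=
    (map_ne_zero _).2 (mul_ne_zero L.p_ne L.p_ne)
  obtain ⟨u, hu, eu⟩ := cube_ex (B := algebraMap K Ω (L.p * L.p ^ L.m)) hA0 hy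
  have hfix : ∀ σ : Ω ≃ₐ[K] Ω, σ u = u := by
    intro σ
    refine cube_uniq hA hB (by rwa [L.iso]) hu ?_ eu
    have := congrArg σ eu
    simpa only [map_sub, map_mul σ, map_pow σ, AlgEquiv.commutes, map_zero] using this
  obtain ⟨w, rfl⟩ := (InfiniteGalois.mem_range_algebraMap_iff_fixed u).2 hfix
  have ew : L.p * L.p * w ^ 3 - L.p * L.p ^ L.m * w ^ 2 - w - y = 0 := by
    apply (algebraMap K Ω).injective
    rw [map_zero, ← eu]
    simp only [map_sub, map_mul, map_pow]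
  refine ⟨L.p ^ L.m * w, by rw [map_mul]; exact cube_mul_le hq hu, ?_⟩
  have h2 : (L.p ^ L.m) ^ 2 = -3 := by rw [← L.pow]; ring
  have h3 : L.p ^ (3 * L.m + 1) = (L.p ^ L.m) ^ 3 * L.p := by ring
  rw [h3]
  generalize L.p ^ L.m = q at *
  linear_combination q ^ 3 * L.p * ew + (q * L.p * w + q ^ 2 * L.p ^ 2 * w ^ 2) * h2

end Pool.Agent.Lib.MP_c05f82_nt.GC
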