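import Pool.Agent.Lib.MP_c05f82_nt.GC.Defs

/-!
Normal subgroups of the product with a cyclic group of order three.
-/

open scoped commutatorElement

namespace Pool.Agent.Lib.MP_c05f82_nt.GC

/-- the generator of the cyclic group of order three -/
def cycG : C3 := Multiplicative.ofAdd 1

lemma cyc_cases : ∀ a : C3, a = 1 ∨ a = cycG ∨ a = cycG⁻¹ := by decide

lemma cyc_ne : cycG ≠ 1 := by decide

lemma cyc_ne_inv : cycG ≠ cycG⁻¹ := by decide

lemma cyc_pow : cycG ^ 3 = 1 := by decide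

lemma cyc_card : Nat.card C3 = 3 := by simp

section

variable {B : Type} [Group B]

lemma cyc_tri {y z : B} (hz : z ^ 3 = 1) (h : y ∈ Subgroup.zpowers z) :
    y = 1 ∨ y = z ∨ y = z⁻¹ := by
  obtain ⟨k, rfl⟩ := Subgroup.mem_zpowers_iff.1 h
  rw [zpow_eq_zpow_emod k (n := 3) (by exact_mod_cast hz)]
  have : k % 3 = 0 ∨ k % 3 = 1 ∨ k % 3 = 2 := by omega
  rcases this with h | h | h <;> rw [h]
  · simp
  · simp
  · refine Or.inr (Or.inr (eq_inv_of_mul_eq_one_left ?_))
    rw [← hz, zpow_ofNat, ← pow_succ]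

lemma cyc_graph {y w : B} (hw : w ^ 3 = 1) (h : (cycG, y) ∈ Subgroup.zpowers (cycG, w)) :
    y = w := by
  rcases cyc_tri (z := (cycG, w)) (Prod.ext cyc_pow hw) h with h | h | h
  · exact absurd (congrArg Prod.fst h) cyc_ne
  · exact congrArg Prod.snd h
  · exact absurd (congrArg Prod.fst h) cyc_ne_inv

lemma cyc_card_graph {w : B} (hw : w ^ 3 = 1) : Nat.card (Subgroup.zpowers (cycG, w)) = 3 := by
  have : Fact (Nat.Prime 3) := ⟨Nat.prime_three⟩
  rw [Nat.card_zpowers]
  exact orderOf_eq_prime (Prod.ext cyc_pow hw) fun h => cyc_ne (congrArg Prod.fst h)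

lemma cyc_normal_graph {w : B} (hw : ∀ g, Commute w g) : (Subgroup.zpowers (cycG, w)).Normal := by
  refine ⟨fun x hx g => ?_⟩
  obtain ⟨k, rfl⟩ := Subgroup.mem_zpowers_iff.1 hx
  have h : Commute (cycG, w) g := Prod.ext (mul_comm _ _) (hw g.2)
  rwa [← (h.zpow_left k).eq, mul_inv_cancel_right]

lemma cyc_card_prod (A : Subgroup C3) (N : Subgroup B) :
    Nat.card (A.prod N) = Nat.card A * Nat.card N := by
  rw [Nat.card_congr (A.prodEquiv N).toEquiv, Nat.card_prod]

lemma cyc_inj (A : Subgroup C3) : Function.Injective fun N : Subgroup B => A.prod N := by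
  intro N N' h
  ext y
  have : ((1 : C3), y) ∈ A.prod N ↔ ((1 : C3), y) ∈ A.prod N' := by
    rw [show A.prod N = A.prod N' from h]
  simpa [Subgroup.mem_prod] using this

lemma cyc_mem {M : Subgroup (C3 × B)} {a : C3} (ha : a ≠ 1) {b : B} (h : (a, b) ∈ M) :
    (cycG, b) ∈ M ∨ (cycG, b⁻¹) ∈ M := by
  rcases cyc_cases a with rfl | rfl | rfl
  · exact absurd rfl ha
  · exact Or.inl h
  · exact Or.inr (by simpa using M.inv_mem h)

lemma cyc_top {M : Subgroup (C3 × B)} (h : (cycG, (1 : B)) ∈ M) :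
    (⊤ : Subgroup C3).prod (M.comap (MonoidHom.inr C3 B)) = M := by
  have h1 : ∀ a : C3, (a, (1 : B)) ∈ M := fun a => by
    rcases cyc_cases a with rfl | rfl | rfl
    · exact M.one_mem
    · exact h
    · simpa using M.inv_mem h
  ext ⟨a, y⟩
  simp only [Subgroup.mem_prod, Subgroup.mem_top, true_and, Subgroup.mem_comap,
    MonoidHom.inr_apply]
  exact ⟨fun h2 => by simpa using M.mul_mem (h1 a) h2,
    fun h2 => by simpa using M.mul_mem (h1 a⁻¹) h2⟩

lemma cyc_class [Finite B] {z : B} (h3 : orderOf z = 3)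
    (hz : ∀ M M₀ : Subgroup B, M.Normal → M₀.Normal → M₀ ≤ M → M₀.relIndex M = 3 →
      (∀ x ∈ M, ∀ g, ⁅x, g⁆ ∈ M₀) → M = Subgroup.zpowers z)
    {M : Subgroup (C3 × B)} (hM : M.Normal) {b : B} (hb : (cycG, b) ∈ M)
    (h1 : (cycG, (1 : B)) ∉ M) :
    M = Subgroup.zpowers (cycG, z) ∨ M = Subgroup.zpowers (cycG, z⁻¹) := by
  have hz3 : z ^ 3 = 1 := h3 ▸ pow_orderOf_eq_one z
  have h2 : ∀ a : C3, (a, (1 : B)) ∈ M → a = 1 := fun a ha => by
    by_contra hne
    exact h1 ((cyc_mem hne ha).elim id fun h => by simpa using h)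
  have hmap : M.map (MonoidHom.fst C3 B) = ⊤ := by
    rw [eq_top_iff]
    rintro a -
    rcases cyc_cases a with rfl | rfl | rfl
    · exact one_mem _
    · exact ⟨_, hb, rfl⟩
    · exact inv_mem ⟨_, hb, rfl⟩
  have hM2 : M.map (MonoidHom.snd C3 B) = Subgroup.zpowers z := by
    refine hz _ (M.comap (MonoidHom.inr C3 B)) (hM.map _ Prod.snd_surjective) (hM.comap _)
      (fun y hy => ⟨_, hy, rfl⟩) ?_ ?_
    · rw [Subgroup.relIndex, ← Subgroup.index_comap_of_surjective _
        ((MonoidHom.snd C3 B).subgroupMap_surjective M)]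
      have e : ((M.comap (MonoidHom.inr C3 B)).subgroupOf (M.map (MonoidHom.snd C3 B))).comap
          ((MonoidHom.snd C3 B).subgroupMap M) = (MonoidHom.fst C3 B).ker.subgroupOf M := by
        ext ⟨⟨a, y⟩, hx⟩
        show ((1 : C3), y) ∈ M ↔ a = 1
        exact ⟨fun h => h2 a (by simpa using M.mul_mem hx (M.inv_mem h)), fun h => h ▸ hx⟩
      rw [e, ← Subgroup.relIndex, Subgroup.relIndex_ker, hmap, Subgroup.card_top, cyc_card]
    · rintro _ ⟨⟨a, y⟩, hx, rfl⟩ g
      have h4 := M.mul_mem hx (hM.conj_mem _ (M.inv_mem hx) (1, g))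
      show ((1 : C3), ⁅y, g⁆) ∈ M
      simpa [commutatorElement_def, mul_assoc] using h4
  have hcard : Nat.card M ≤ 3 := by
    have hinj : Function.Injective ((MonoidHom.snd C3 B).subgroupMap M) := by
      rw [injective_iff_map_eq_one]
      rintro ⟨⟨a, y⟩, hx⟩ h
      have hy : y = 1 := congrArg Subtype.val h
      subst hy
      exact Subtype.ext (Prod.ext (h2 a hx) rfl)
    have := Nat.card_le_card_of_injective _ hinj
    rwa [hM2, Nat.card_zpowers, h3] at this
  have key : ∀ w : B, w ^ 3 = 1 → (cycG, w) ∈ M → M = Subgroup.zpowers (cycG, w) :=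
    fun w hw hm => (Subgroup.eq_of_le_of_card_ge (Subgroup.zpowers_le.2 hm)
      (by rw [cyc_card_graph hw]; exact hcard)).symm
  rcases cyc_tri hz3 (hM2 ▸ ⟨_, hb, rfl⟩ : b ∈ Subgroup.zpowers z) with h | h | h
  · exact absurd (h ▸ hb) h1
  · exact Or.inl (key z hz3 (h ▸ hb))
  · exact Or.inr (key z⁻¹ (by rw [inv_pow, hz3, inv_one]) (h ▸ hb))

end

theorem wt_le_ker (B : Type) [Group B] [Finite B] :
    wt (fun M : Subgroup (C3 × B) => M.Normal ∧ M ≤ (MonoidHom.fst C3 B).ker) = DD B := by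
  classical
  have := Fintype.ofFinite (Subgroup B)
  rw [DD, wt_eq_sum (Finset.univ.filter fun N : Subgroup B => N.Normal) (by simp),
    wt_eq_sum ((Finset.univ.filter fun N : Subgroup B => N.Normal).image
      fun N => (⊥ : Subgroup C3).prod N), Finset.sum_image (cyc_inj ⊥).injOn]
  · exact Finset.sum_congr rfl fun N _ => by rw [cyc_card_prod, Subgroup.card_bot, one_mul]
  · intro M
    simp only [Finset.mem_image, Finset.mem_filter, Finset.mem_univ, true_and]
    constructor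
    · rintro ⟨N, hN, rfl⟩
      exact ⟨inferInstance, fun x hx => hx.1⟩
    · rintro ⟨hM, h⟩
      refine ⟨M.comap (MonoidHom.inr C3 B), hM.comap _, ?_⟩
      ext ⟨a, y⟩
      simp only [Subgroup.mem_prod, Subgroup.mem_bot, Subgroup.mem_comap, MonoidHom.inr_apply]
      refine ⟨fun h1 => h1.1 ▸ h1.2, fun h1 => ?_⟩
      have ha : a = 1 := h h1
      exact ⟨ha, ha ▸ h1⟩

theorem wt_not_le_ker (B : Type) [Group B] [Finite B] (hB : OneSec B) :
    wt (fun M : Subgroup (C3 × B) => M.Normal ∧ ¬ M ≤ (MonoidHom.fst C3 B).ker) =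
      3 * DD B + 6 := by
  classical
  have := Fintype.ofFinite (Subgroup B)
  obtain ⟨z, h3, hc, hz⟩ := hB
  have hz3 : z ^ 3 = 1 := h3 ▸ pow_orderOf_eq_one z
  have hz3' : z⁻¹ ^ 3 = 1 := by rw [inv_pow, hz3, inv_one]
  have hz1 : z ≠ 1 := fun h => by simp [h] at h3
  have hne : ∀ w : B, w ^ 3 = 1 → w ≠ 1 → Subgroup.zpowers (cycG, w) ∉
      (Finset.univ.filter fun N : Subgroup B => N.Normal).image
        fun N => (⊤ : Subgroup C3).prod N := fun w hw hw1 h => by
    obtain ⟨N, -, hN⟩ := Finset.mem_image.1 h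
    exact hw1 (cyc_graph hw (hN ▸ ⟨trivial, N.one_mem⟩)).symm
  have hzz : Subgroup.zpowers (cycG, z) ≠ Subgroup.zpowers (cycG, z⁻¹) := fun h => by
    have h1 : z = z⁻¹ := cyc_graph hz3' (h ▸ Subgroup.mem_zpowers _)
    have h2 : z ^ 2 = 1 := by rw [pow_two]; exact mul_eq_one_iff_eq_inv.2 h1
    have := orderOf_dvd_of_pow_eq_one h2
    rw [h3] at this
    omega
  rw [DD, wt_eq_sum (Finset.univ.filter fun N : Subgroup B => N.Normal) (by simp),
    wt_eq_sum (insert (Subgroup.zpowers (cycG, z)) (insert (Subgroup.zpowers (cycG, z⁻¹))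
      ((Finset.univ.filter fun N : Subgroup B => N.Normal).image
        fun N => (⊤ : Subgroup C3).prod N))),
    Finset.sum_insert (by
      rw [Finset.mem_insert, not_or]; exact ⟨hzz, hne z hz3 hz1⟩),
    Finset.sum_insert (hne _ hz3' (inv_ne_one.2 hz1)), Finset.sum_image (cyc_inj ⊤).injOn,
    cyc_card_graph hz3, cyc_card_graph hz3', Finset.mul_sum]
  · rw [Finset.sum_congr rfl fun N _ => (by rw [cyc_card_prod, Subgroup.card_top, cyc_card] :
      Nat.card ((⊤ : Subgroup C3).prod N) = 3 * Nat.card N)]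
    ring
  · intro M
    simp only [Finset.mem_insert, Finset.mem_image, Finset.mem_filter, Finset.mem_univ, true_and]
    constructor
    · rintro (rfl | rfl | ⟨N, hN, rfl⟩)
      · exact ⟨cyc_normal_graph hc, fun h => cyc_ne (h (Subgroup.mem_zpowers _))⟩
      · exact ⟨cyc_normal_graph fun g => (hc g).inv_left,
          fun h => cyc_ne (h (Subgroup.mem_zpowers _))⟩
      · exact ⟨inferInstance, fun h => cyc_ne (@h (cycG, 1) ⟨trivial, N.one_mem⟩)⟩
    · rintro ⟨hM, h⟩
      by_cases h1 : (cycG, (1 : B)) ∈ M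
      · exact Or.inr (Or.inr ⟨_, hM.comap _, cyc_top h1⟩)
      obtain ⟨⟨a, b⟩, hab, ha⟩ := SetLike.not_le_iff_exists.1 h
      obtain ⟨b', hb'⟩ : ∃ b', (cycG, b') ∈ M := (cyc_mem ha hab).elim (⟨_, ·⟩) (⟨_, ·⟩)
      exact (cyc_class h3 hz hM hb' h1).imp_right Or.inl

end Pool.Agent.Lib.MP_c05f82_nt.GC
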