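import Pool.Agent.Lib.MP_c05f82_nt.GC.Defs

/-!
The uniformizer is not a norm from the unramified cubic extension.
-/

open scoped commutatorElement

namespace Pool.Agent.Lib.MP_c05f82_nt.GC

/-- the norm form in the basis `1, θ, θ ^ 2` with `θ ^ 3 = q θ ^ 2 + θ + 1` -/
def unrF {R : Type} [CommRing R] (q a b c : R) : R :=
  a * ((a + c) * (a + c + q * (b + q * c)) - (b + q * c) * (c + b + q * c)) -
    b * (c * (a + c + q * (b + q * c)) - (b + q * c) * (b + q * c)) +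
    c * (c * (c + b + q * c) - (a + c) * (b + q * c))

lemma unrF_three : ∀ a b c : ZMod 3, (a = 1 ∨ b = 1 ∨ c = 1) → unrF 0 a b c ≠ 0 := by
  unfold unrF; decide

section
variable {Ω : Type} [NormedField Ω] [IsUltrametricDist Ω]

/-- congruence to an integer modulo the maximal ideal -/
structure UnrCg (x : Ω) (r : ℤ) : Prop where
  lt : ‖x - r‖ < 1

lemma unr_add_lt {x y : Ω} (hx : ‖x‖ < 1) (hy : ‖y‖ < 1) : ‖x + y‖ < 1 :=
  (IsUltrametricDist.norm_add_le_max x y).trans_lt (max_lt hx hy)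

omit [IsUltrametricDist Ω] in
lemma unr_mul_lt {x y : Ω} (hx : ‖x‖ < 1) (hy : ‖y‖ ≤ 1) : ‖x * y‖ < 1 := by
  rw [norm_mul]
  exact mul_lt_one_of_nonneg_of_lt_one_left (norm_nonneg _) hx hy

omit [IsUltrametricDist Ω] in
lemma UnrCg.int (r : ℤ) : UnrCg (r : Ω) r := ⟨by simp⟩

lemma UnrCg.le {x : Ω} {r : ℤ} (h : UnrCg x r) : ‖x‖ ≤ 1 := by
  rw [show x = x - r + r by ring]
  exact (IsUltrametricDist.norm_add_le_max _ _).trans
    (max_le h.lt.le (IsUltrametricDist.norm_intCast_le_one Ω r))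

lemma UnrCg.add {x y : Ω} {r s : ℤ} (h : UnrCg x r) (k : UnrCg y s) : UnrCg (x + y) (r + s) :=
  ⟨by
    rw [show x + y - ((r + s : ℤ) : Ω) = x - r + (y - s) by push_cast; ring]
    exact unr_add_lt h.lt k.lt⟩

lemma UnrCg.sub {x y : Ω} {r s : ℤ} (h : UnrCg x r) (k : UnrCg y s) : UnrCg (x - y) (r - s) :=
  ⟨by
    rw [show x - y - ((r - s : ℤ) : Ω) = x - r + -(y - s) by push_cast; ring]
    exact unr_add_lt h.lt (by rw [norm_neg]; exact k.lt)⟩

lemma UnrCg.mul {x y : Ω} {r s : ℤ} (h : UnrCg x r) (k : UnrCg y s) : UnrCg (x * y) (r * s) :=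
  ⟨by
    rw [show x * y - ((r * s : ℤ) : Ω) = (x - r) * y + (y - s) * r by push_cast; ring]
    exact unr_add_lt (unr_mul_lt h.lt k.le)
      (unr_mul_lt k.lt (IsUltrametricDist.norm_intCast_le_one Ω r))⟩

lemma UnrCg.norm_one (h3 : ‖(3 : Ω)‖ < 1) {x : Ω} {r : ℤ} (h : UnrCg x r)
    (hr : (r : ZMod 3) ≠ 0) : ‖x‖ = 1 := by
  refine le_antisymm h.le (not_lt.1 fun hx => ?_)
  have h1 : (3 : ℤ) ∣ r * r - 1 := by
    have key : ∀ a : ZMod 3, a ≠ 0 → a * a - 1 = 0 := by decide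
    exact (ZMod.intCast_zmod_eq_zero_iff_dvd _ 3).1 (by push_cast; exact key _ hr)
  obtain ⟨s, hs⟩ := h1
  have hs' : (r : Ω) * r - 1 = 3 * s := by exact_mod_cast congrArg (Int.cast : ℤ → Ω) hs
  have h2 : ‖(r : Ω)‖ < 1 := by
    rw [show (r : Ω) = x + -(x - r) by ring]
    exact unr_add_lt hx (by rw [norm_neg]; exact h.lt)
  have h4 := unr_add_lt (unr_mul_lt h2 h2.le)
    (unr_mul_lt h3 (IsUltrametricDist.norm_intCast_le_one Ω (-s)))
  rw [show (r : Ω) * r + 3 * ((-s : ℤ) : Ω) = 1 by push_cast; linear_combination hs'] at h4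
  simp at h4

lemma UnrCg.form {q a b c : Ω} {r s t : ℤ} (hq : UnrCg q 0) (ha : UnrCg a r) (hb : UnrCg b s)
    (hc : UnrCg c t) : UnrCg (unrF q a b c) (unrF 0 r s t) := by
  have h1 := hb.add (hq.mul hc)
  have h2 := (ha.add hc).add (hq.mul h1)
  have h3 := (hc.add hb).add (hq.mul hc)
  exact ((ha.mul (((ha.add hc).mul h2).sub (h1.mul h3))).sub
    (hb.mul ((hc.mul h2).sub (h1.mul h1)))).add (hc.mul ((hc.mul h3).sub ((ha.add hc).mul h1)))

end

theorem Loc.notNorm {K Ω : Type} [Field K] [NormedField Ω] [Algebra K Ω] [IsUltrametricDist Ω]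
    (L : Loc K Ω) : NotNorm (1 + L.p ^ (3 * L.m)) L.p := by
  intro x y z hN
  have hp0 : 0 < ‖algebraMap K Ω L.p‖ := norm_pos_iff.2 ((map_ne_zero _).2 L.p_ne)
  have hq : ‖algebraMap K Ω (L.p ^ L.m)‖ < 1 := by
    rw [map_pow, norm_pow]
    exact pow_lt_one₀ hp0.le L.p_lt L.m_pos.ne'
  have hq2 : (L.p ^ L.m) ^ 2 + 3 = 0 := by rw [← pow_mul, mul_comm, L.pow]; ring
  rw [mul_comm 3, pow_mul] at hN
  generalize L.p ^ L.m = q at hN hq hq2
  have h3 : ‖(3 : Ω)‖ < 1 := by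
    have := congrArg (algebraMap K Ω) hq2
    rw [map_add, map_pow, map_zero, map_ofNat] at this
    rw [show (3 : Ω) = -(algebraMap K Ω q * algebraMap K Ω q) by linear_combination this, norm_neg]
    exact unr_mul_lt hq hq.le
  have hF : unrF q (x + y + z) (q * (y + 2 * z)) (q ^ 2 * z) = L.p := by
    unfold unrF
    linear_combination hN + (y * z ^ 2 + y ^ 2 * z + x * z ^ 2 + 3 * x * y * z + x * y ^ 2 +
      x ^ 2 * z + x ^ 2 * y + q ^ 2 * x * z ^ 2 + q ^ 2 * x * y * z + q ^ 2 * x ^ 2 * z +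
      q ^ 3 * y * z ^ 2 + q ^ 3 * y ^ 2 * z - 2 * q ^ 3 * x * z ^ 2) * hq2
  generalize x + y + z = a, q * (y + 2 * z) = b, q ^ 2 * z = c at hF
  obtain ⟨t, ht, ha, hb, hc⟩ : ∃ t : K, (a = t ∨ b = t ∨ c = t) ∧
      ‖algebraMap K Ω a‖ ≤ ‖algebraMap K Ω t‖ ∧ ‖algebraMap K Ω b‖ ≤ ‖algebraMap K Ω t‖ ∧
      ‖algebraMap K Ω c‖ ≤ ‖algebraMap K Ω t‖ := by
    rcases le_total ‖algebraMap K Ω a‖ ‖algebraMap K Ω b‖ with h1 | h1
    · rcases le_total ‖algebraMap K Ω b‖ ‖algebraMap K Ω c‖ with h2 | h2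
      · exact ⟨c, by simp, h1.trans h2, h2, le_rfl⟩
      · exact ⟨b, by simp, h1, le_rfl, h2⟩
    · rcases le_total ‖algebraMap K Ω a‖ ‖algebraMap K Ω c‖ with h2 | h2
      · exact ⟨c, by simp, h2, h1.trans h2, le_rfl⟩
      · exact ⟨a, by simp, le_rfl, h1, h2⟩
  have ht0 : t ≠ 0 := by
    rintro rfl
    simp only [map_zero, norm_zero, norm_le_zero_iff, map_eq_zero] at ha hb hc
    rw [ha, hb, hc] at hF
    exact L.p_ne (by rw [← hF]; simp [unrF])
  have ht1 : 0 < ‖algebraMap K Ω t‖ := norm_pos_iff.2 ((map_ne_zero _).2 ht0)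
  have res : ∀ w : K, ‖algebraMap K Ω w‖ ≤ ‖algebraMap K Ω t‖ →
      ∃ r : ℤ, UnrCg (algebraMap K Ω (w / t)) r ∧ (w = t → r = 1) := by
    intro w hw
    by_cases h : w = t
    · exact ⟨1, ⟨by simp [h, ht0]⟩, fun _ => rfl⟩
    obtain ⟨r, hr⟩ := L.res (w / t) (by rwa [map_div₀, norm_div, div_le_one ht1])
    exact ⟨r, ⟨by rwa [map_sub, map_intCast] at hr⟩, fun h' => absurd h' h⟩
  obtain ⟨r1, a1, b1⟩ := res a ha
  obtain ⟨r2, a2, b2⟩ := res b hb
  obtain ⟨r3, a3, b3⟩ := res c hc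
  have h4 := (UnrCg.form (q := algebraMap K Ω q) ⟨by simpa using hq⟩ a1 a2 a3).norm_one h3 (by
    have := unrF_three (r1 : ZMod 3) r2 r3 (ht.imp (fun h => by simp [b1 h])
      (Or.imp (fun h => by simp [b2 h]) fun h => by simp [b3 h]))
    unfold unrF at this ⊢
    push_cast
    exact this)
  have h5 : unrF (algebraMap K Ω q) (algebraMap K Ω (a / t)) (algebraMap K Ω (b / t))
      (algebraMap K Ω (c / t)) = algebraMap K Ω (L.p / t ^ 3) := by
    rw [show L.p / t ^ 3 = unrF q (a / t) (b / t) (c / t) by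
      rw [← hF]; unfold unrF; field_simp]
    simp only [unrF, map_add, map_sub, map_mul]
  obtain ⟨k, hk⟩ := L.val t ht0
  rw [h5, map_div₀, norm_div, map_pow, norm_pow, hk, div_eq_one_iff_eq (by positivity),
    ← zpow_natCast, ← zpow_mul] at h4
  have := zpow_right_injective₀ hp0 L.p_lt.ne ((zpow_one _).trans h4)
  omega

end Pool.Agent.Lib.MP_c05f82_nt.GC
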