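import Pool.Agent.Lib.MP_c05f82_nt.GC.Fld
import Pool.Agent.Lib.MP_c05f82_nt.GC.Cube
import Pool.Agent.Lib.MP_c05f82_nt.GC.Unr
import Pool.Agent.Lib.MP_c05f82_nt.GC.Sym3

/-!
Existence of the local data.
-/

open scoped commutatorElement

namespace Pool.Agent.Lib.MP_c05f82_nt.GC

/-- the valuation ring -/
def datExO (K Ω : Type) [Field K] [NormedField Ω] [Algebra K Ω] [IsUltrametricDist Ω] :
    Subring K where
  carrier := {x | ‖algebraMap K Ω x‖ ≤ 1}
  one_mem' := by simp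
  zero_mem' := by simp
  mul_mem' := fun {x y} hx hy => by
    simp only [Set.mem_ofPred_eq, map_mul, norm_mul] at hx hy ⊢
    exact mul_le_one₀ hx (norm_nonneg _) hy
  add_mem' := fun {x y} hx hy => by
    simp only [Set.mem_ofPred_eq, map_add] at hx hy ⊢
    exact (IsUltrametricDist.norm_add_le_max _ _).trans (max_le hx hy)
  neg_mem' := fun {x} hx => by simpa using hx

theorem datEx_of_loc {K Ω : Type} [Field K] [NormedField Ω] [Algebra K Ω] [IsUltrametricDist Ω]
    [IsAlgClosed Ω] [IsGalois K Ω] [CharZero K] (L : Loc K Ω) : ∃ D : Dat K, D.m = L.m := by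
  have mem : ∀ x, x ∈ datExO K Ω ↔ ‖algebraMap K Ω x‖ ≤ 1 := fun _ => Iff.rfl
  have hp0 : 0 < ‖algebraMap K Ω L.p‖ := norm_pos_iff.mpr ((map_ne_zero _).mpr L.p_ne)
  have small : ∀ y ∈ datExO K Ω, ‖algebraMap K Ω (L.p * y)‖ < 1 := fun y hy => by
    rw [map_mul, norm_mul]
    exact mul_lt_one_of_nonneg_of_lt_one_left hp0.le L.p_lt hy
  have one : ∀ z : K, ‖algebraMap K Ω z‖ < 1 → ‖algebraMap K Ω (1 + z)‖ = 1 := fun z hz => by
    rw [map_add, map_one, IsUltrametricDist.norm_add_eq_max_of_norm_ne_norm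
      (by rw [norm_one]; exact hz.ne'), norm_one, max_eq_left hz.le]
  have hu : (1 + L.p ^ (3 * L.m) : K) ≠ 0 := by
    intro h
    have := one (L.p ^ (3 * L.m)) (by
      rw [map_pow, norm_pow]
      exact pow_lt_one₀ hp0.le L.p_lt (by have := L.m_pos; omega))
    rw [h] at this; simp at this
  obtain ⟨c, c1, c2, c3, c4⟩ := exists_symbol (Ω := Ω) ((-1 + L.p ^ L.m) / 2)
    (by have := L.pow; rw [two_mul, pow_add] at this; linear_combination this / 4)
    (by norm_num) _ L.p hu L.p_ne L.notNorm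
  refine ⟨⟨L.m, datExO K Ω, L.p, c, L.m_pos, L.p_lt.le, L.p_ne, L.pow, ?_, ?_, ?_,
    fun y hy => L.cube y hy, c1, c2, c3, c4⟩, rfl⟩
  · intro x hx
    obtain ⟨r, hr⟩ := L.res x hx
    refine ⟨r, (x - r) / L.p, ?_, by have := L.p_ne; field_simp; ring⟩
    rw [mem, map_div₀, norm_div, div_le_one hp0]
    by_cases h0 : x - r = 0
    · rw [h0, map_zero, norm_zero]; exact hp0.le
    obtain ⟨k, hk⟩ := L.val _ h0
    rw [hk] at hr ⊢
    have hk1 : 0 < k := (zpow_lt_one_iff_right_of_lt_one₀ hp0 L.p_lt).mp hr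
    simpa using zpow_le_zpow_right_of_le_one₀ hp0 L.p_lt.le (show 1 ≤ k from hk1)
  · intro y hy h
    have := small y hy
    rw [h] at this; simp at this
  · intro y hy
    rw [mem, map_inv₀, norm_inv, one _ (small y hy), inv_one]

theorem exists_dat (m : ℕ) (hm : 0 < m) : ∃ (K : Type) (_ : Field K) (D : Dat K), D.m = m := by
  obtain ⟨K, L, hL⟩ := exists_loc m hm
  have := isGalois_padic K
  obtain ⟨D, hD⟩ := datEx_of_loc L
  exact ⟨K, inferInstance, D, hD.trans hL⟩

end Pool.Agent.Lib.MP_c05f82_nt.GC
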