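import Mathlib

/-!
Definitions for the infinite family of finite groups with a fixed ratio `D(G)/|G|`.
-/

open scoped commutatorElement

namespace Pool.Agent.Lib.MP_c05f82_nt.GC

/-- sum of the orders of the subgroups with property `q` -/
noncomputable def wt {G : Type} [Group G] (q : Subgroup G → Prop) : ℕ :=
  ∑ᶠ (N : Subgroup G) (_ : q N), Nat.card N

/-- sum of the orders of the additive subgroups with property `q` -/
noncomputable def awt {G : Type} [AddGroup G] (q : AddSubgroup G → Prop) : ℕ :=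
  ∑ᶠ (N : AddSubgroup G) (_ : q N), Nat.card N

/-- sum of the orders of the normal subgroups -/
noncomputable def DD (G : Type) [Group G] : ℕ := wt fun N : Subgroup G => N.Normal

/-- sum of the orders of the invariant subgroups -/
noncomputable def DW {W : Type} [AddCommGroup W] (ω : W →+ W) : ℕ :=
  awt fun H : AddSubgroup W => ∀ x ∈ H, ω x ∈ H

lemma awt_eq_sum {G : Type} [AddGroup G] {q : AddSubgroup G → Prop} (s : Finset (AddSubgroup G))
    (hs : ∀ N, N ∈ s ↔ q N) : awt q = ∑ N ∈ s, Nat.card N := by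
  rw [awt, ← finsum_mem_finset_eq_sum]
  refine finsum_congr fun N => ?_
  rw [show q N = (N ∈ s) from propext (hs N).symm]

lemma wt_eq_sum {G : Type} [Group G] {q : Subgroup G → Prop} (s : Finset (Subgroup G))
    (hs : ∀ N, N ∈ s ↔ q N) : wt q = ∑ N ∈ s, Nat.card N := by
  rw [wt, ← finsum_mem_finset_eq_sum]
  refine finsum_congr fun N => ?_
  rw [show q N = (N ∈ s) from propext (hs N).symm]

abbrev C3 : Type := Multiplicative (ZMod 3)
abbrev V4 : Type := Multiplicative (ZMod 2 × ZMod 2)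

/-- the only central section of order three is a central subgroup -/
def OneSec (B : Type) [Group B] : Prop :=
  ∃ z : B, orderOf z = 3 ∧ (∀ g, Commute z g) ∧ ∀ M M₀ : Subgroup B, M.Normal → M₀.Normal →
    M₀ ≤ M → M₀.relIndex M = 3 → (∀ x ∈ M, ∀ g, ⁅x, g⁆ ∈ M₀) → M = Subgroup.zpowers z

/-- a module over the Eisenstein integers on which three is invertible -/
structure Eis {W : Type} [AddCommGroup W] (ω : W →+ W) : Prop where
  rel : ∀ x, ω (ω x) + ω x + x = 0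
  div : ∃ n : ℤ, ∀ x : W, (3 * n) • x = x

/-! ### towers -/

/-- a filtration with layers of orders nine and three and two commuting involutions -/
structure Tower (X : Type) [Group X] (N : ℕ) where
  V : ℕ → Subgroup X
  H : ℕ → Subgroup X
  be : MulAut X
  de : MulAut X
  v : ℕ → X → ZMod 3 × ZMod 3
  h : ℕ → X → ZMod 3
  e : ℕ → X
  f : ℕ → X
  t : ℕ → X
  be2 : ∀ x, be (be x) = x
  de2 : ∀ x, de (de x) = x
  bd : ∀ x, be (de x) = de (be x)
  HV : ∀ j < N, H j ≤ V j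
  VH : ∀ j < N, V (j + 1) ≤ H j
  beV : ∀ j ≤ N, ∀ x ∈ V j, be x ∈ V j
  deV : ∀ j ≤ N, ∀ x ∈ V j, de x ∈ V j
  beH : ∀ j < N, ∀ x ∈ H j, be x ∈ H j
  deH : ∀ j < N, ∀ x ∈ H j, de x ∈ H j
  cV : ∀ j < N, ∀ x ∈ V j, ∀ g ∈ V 0, ⁅x, g⁆ ∈ H j
  cH : ∀ j < N, ∀ x ∈ H j, ∀ g ∈ V 0, ⁅x, g⁆ ∈ V (j + 1)
  cN : ∀ x ∈ V N, ∀ g ∈ V 0, ⁅x, g⁆ ∈ V N
  v_mul : ∀ j < N, ∀ x ∈ V j, ∀ y ∈ V j, v j (x * y) = v j x + v j y
  v_zero : ∀ j < N, ∀ x ∈ V j, v j x = 0 ↔ x ∈ H j
  h_mul : ∀ j < N, ∀ x ∈ H j, ∀ y ∈ H j, h j (x * y) = h j x + h j y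
  h_zero : ∀ j < N, ∀ x ∈ H j, h j x = 0 ↔ x ∈ V (j + 1)
  e_mem : ∀ j < N, e j ∈ V j
  t_mem : ∀ j < N, t j ∈ H j
  v_e : ∀ j < N, v j (e j) = (1, 0)
  v_f : ∀ j < N, v j (f j) = (0, 1)
  h_t : ∀ j < N, h j (t j) = 1
  be_e : ∀ j < N, be (e j) = f j
  de_e : ∀ j < N, de (e j) = (e j)⁻¹
  be_t : ∀ j, j + 1 < N → be (t j) = (t j)⁻¹
  be_z : ∀ j, j + 1 = N → be (t j) = t j
  de_t : ∀ j < N, de (t j) = t j
  ee : ∀ j < N, Commute (e j) (e 0)
  ef : ∀ j < N, ⁅e j, f 0⁆ ∉ V (j + 1)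
  te : ∀ j, j + 1 < N → v (j + 1) ⁅t j, e 0⁆ = (2, 0)

/-- invariant normal subgroups -/
def Tower.Inv {X : Type} [Group X] {N : ℕ} (T : Tower X N) (M : Subgroup X) : Prop :=
  M.Normal ∧ (∀ x ∈ M, T.be x ∈ M) ∧ ∀ x ∈ M, T.de x ∈ M

/-- the filtration starts with the whole group and ends with the trivial group -/
structure Tower.Red {X : Type} [Group X] {N : ℕ} (T : Tower X N) : Prop where
  pos : 0 < N
  top : T.V 0 = ⊤
  bot : T.V N = ⊥

namespace Tower

variable {X : Type} [Group X] {N : ℕ} (T : Tower X N)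

lemma v_one {j : ℕ} (hj : j < N) : T.v j 1 = 0 := (T.v_zero j hj 1 (one_mem _)).2 (one_mem _)

lemma h_one {j : ℕ} (hj : j < N) : T.h j 1 = 0 := (T.h_zero j hj 1 (one_mem _)).2 (one_mem _)

lemma v_inv {j : ℕ} (hj : j < N) {x : X} (hx : x ∈ T.V j) : T.v j x⁻¹ = -T.v j x := by
  have := T.v_mul j hj x hx x⁻¹ (inv_mem hx)
  rw [mul_inv_cancel, T.v_one hj] at this
  linear_combination -this

lemma h_inv {j : ℕ} (hj : j < N) {x : X} (hx : x ∈ T.H j) : T.h j x⁻¹ = -T.h j x := by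
  have := T.h_mul j hj x hx x⁻¹ (inv_mem hx)
  rw [mul_inv_cancel, T.h_one hj] at this
  linear_combination -this

lemma f_mem {j : ℕ} (hj : j < N) : T.f j ∈ T.V j :=
  T.be_e j hj ▸ T.beV j hj.le _ (T.e_mem j hj)

/-- the preimage of a line in a layer of order nine -/
def Vs (j : ℕ) (hj : j < N) (ε : ZMod 3) : Subgroup X where
  carrier := {x | x ∈ T.V j ∧ (T.v j x).2 = ε * (T.v j x).1}
  mul_mem' := fun {x y} hx hy => ⟨mul_mem hx.1 hy.1, by
    rw [T.v_mul j hj x hx.1 y hy.1, Prod.snd_add, Prod.fst_add, hx.2, hy.2]; ring⟩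
  one_mem' := ⟨one_mem _, by simp [T.v_one hj]⟩
  inv_mem' := fun {x} hx => ⟨inv_mem hx.1, by
    rw [T.v_inv hj hx.1, Prod.snd_neg, Prod.fst_neg, hx.2]; ring⟩

lemma mem_Vs {j : ℕ} {hj : j < N} {ε : ZMod 3} {x : X} :
    x ∈ T.Vs j hj ε ↔ x ∈ T.V j ∧ (T.v j x).2 = ε * (T.v j x).1 := Iff.rfl

end Tower

/-! ### local data -/

/-- `p` is not represented by the norm form of the cubic algebra `K[X]/(X ^ 3 - u)` -/
def NotNorm {K : Type} [Field K] (u p : K) : Prop :=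
  ∀ x y z : K, x ^ 3 + u * y ^ 3 + u ^ 2 * z ^ 3 - 3 * u * x * y * z ≠ p

/-- a discretely valued subfield with residue field of order three -/
structure Loc (K Ω : Type) [Field K] [NormedField Ω] [Algebra K Ω] where
  m : ℕ
  p : K
  m_pos : 0 < m
  pow : p ^ (2 * m) = -3
  p_ne : p ≠ 0
  p_lt : ‖algebraMap K Ω p‖ < 1
  val : ∀ x : K, x ≠ 0 → ∃ k : ℤ, ‖algebraMap K Ω x‖ = ‖algebraMap K Ω p‖ ^ k
  res : ∀ x : K, ‖algebraMap K Ω x‖ ≤ 1 → ∃ r : ℤ, ‖algebraMap K Ω (x - r)‖ < 1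
  iso : ∀ (σ : Ω ≃ₐ[K] Ω) (x : Ω), ‖σ x‖ = ‖x‖

/-- a ramified extension of the three-adic numbers with a cubic symbol -/
structure Dat (K : Type) [Field K] where
  m : ℕ
  O : Subring K
  p : K
  c : K → K → ZMod 3
  m_pos : 0 < m
  p_mem : p ∈ O
  p_ne : p ≠ 0
  pow : p ^ (2 * m) = -3
  resid : ∀ x ∈ O, ∃ r : ℤ, ∃ y ∈ O, x = r + p * y
  nunit : ∀ y ∈ O, p * y ≠ 1
  unit : ∀ y ∈ O, (1 + p * y)⁻¹ ∈ O
  cube : ∀ y ∈ O, ∃ w ∈ O, (1 + p * w) ^ 3 = 1 + p ^ (3 * m + 1) * y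
  c_mul_left : ∀ {x y : K} (z : K), x ≠ 0 → y ≠ 0 → c (x * y) z = c x z + c y z
  c_mul_right : ∀ (z : K) {x y : K}, x ≠ 0 → y ≠ 0 → c z (x * y) = c z x + c z y
  stein : ∀ {x : K}, x ≠ 0 → x ≠ 1 → c x (1 - x) = 0
  key : c (1 + p ^ (3 * m)) p ≠ 0

/-- matrices of determinant one -/
@[ext] structure SL (K : Type) [Field K] where
  a : K
  b : K
  c : K
  d : K
  det : a * d - b * c = 1

variable {K : Type} [Field K]

namespace SL

instance : Mul (SL K) := ⟨fun g h => ⟨g.a * h.a + g.b * h.c, g.a * h.b + g.b * h.d,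
  g.c * h.a + g.d * h.c, g.c * h.b + g.d * h.d,
  by linear_combination (g.a * g.d - g.b * g.c) * h.det + g.det⟩⟩
instance : One (SL K) := ⟨⟨1, 0, 0, 1, by ring⟩⟩
instance : Inv (SL K) := ⟨fun g => ⟨g.d, -g.b, -g.c, g.a, by linear_combination g.det⟩⟩

@[simp] lemma mul_a (g h : SL K) : (g * h).a = g.a * h.a + g.b * h.c := rfl
@[simp] lemma mul_b (g h : SL K) : (g * h).b = g.a * h.b + g.b * h.d := rfl
@[simp] lemma mul_c (g h : SL K) : (g * h).c = g.c * h.a + g.d * h.c := rfl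
@[simp] lemma mul_d (g h : SL K) : (g * h).d = g.c * h.b + g.d * h.d := rfl
@[simp] lemma one_a : (1 : SL K).a = 1 := rfl
@[simp] lemma one_b : (1 : SL K).b = 0 := rfl
@[simp] lemma one_c : (1 : SL K).c = 0 := rfl
@[simp] lemma one_d : (1 : SL K).d = 1 := rfl
@[simp] lemma inv_a (g : SL K) : (g⁻¹).a = g.d := rfl
@[simp] lemma inv_b (g : SL K) : (g⁻¹).b = -g.b := rfl
@[simp] lemma inv_c (g : SL K) : (g⁻¹).c = -g.c := rfl
@[simp] lemma inv_d (g : SL K) : (g⁻¹).d = g.a := rfl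

instance : Group (SL K) := Group.ofLeftAxioms
  (fun g h k => by ext <;> simp <;> ring)
  (fun g => by ext <;> simp)
  (fun g => by ext <;> simp <;> first | ring1 | linear_combination g.det)

/-- upper unipotent -/
def eM (x : K) : SL K := ⟨1, x, 0, 1, by ring⟩
/-- lower unipotent -/
def fM (x : K) : SL K := ⟨1, 0, x, 1, by ring⟩
open Classical in
/-- diagonal (the identity for `u = 0`) -/
noncomputable def hM (u : K) : SL K :=
  if h : u = 0 then 1 else ⟨u, 0, 0, u⁻¹, by simp [h]⟩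

@[simp] lemma eM_a (x : K) : (eM x).a = 1 := rfl
@[simp] lemma eM_b (x : K) : (eM x).b = x := rfl
@[simp] lemma eM_c (x : K) : (eM x).c = 0 := rfl
@[simp] lemma eM_d (x : K) : (eM x).d = 1 := rfl
@[simp] lemma fM_a (x : K) : (fM x).a = 1 := rfl
@[simp] lemma fM_b (x : K) : (fM x).b = 0 := rfl
@[simp] lemma fM_c (x : K) : (fM x).c = x := rfl
@[simp] lemma fM_d (x : K) : (fM x).d = 1 := rfl
lemma hM_a {u : K} (h : u ≠ 0) : (hM u).a = u := by simp [hM, h]
@[simp] lemma hM_b (u : K) : (hM u).b = 0 := by unfold hM; split_ifs <;> rfl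
@[simp] lemma hM_c (u : K) : (hM u).c = 0 := by unfold hM; split_ifs <;> rfl
lemma hM_d {u : K} (h : u ≠ 0) : (hM u).d = u⁻¹ := by simp [hM, h]

open Classical in
/-- the first nonzero entry of the lower row -/
noncomputable def x (g : SL K) : K := if g.c = 0 then g.d else g.c

lemma x_of_eq {g : SL K} (h : g.c = 0) : g.x = g.d := if_pos h
lemma x_of_ne {g : SL K} (h : g.c ≠ 0) : g.x = g.c := if_neg h

lemma x_ne (g : SL K) : g.x ≠ 0 := by
  by_cases h : g.c = 0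
  · rw [x_of_eq h]; intro hd
    have := g.det
    rw [h, hd] at this; simp at this
  · rwa [x_of_ne h]

/-- conjugation by `diag(1, -1)` -/
def de (g : SL K) : SL K := ⟨g.a, -g.b, -g.c, g.d, by linear_combination g.det⟩

@[simp] lemma de_a (g : SL K) : g.de.a = g.a := rfl
@[simp] lemma de_b (g : SL K) : g.de.b = -g.b := rfl
@[simp] lemma de_c (g : SL K) : g.de.c = -g.c := rfl
@[simp] lemma de_d (g : SL K) : g.de.d = g.d := rfl
lemma de_mul (g h : SL K) : (g * h).de = g.de * h.de := by ext <;> simp <;> ring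
lemma de_de (g : SL K) : g.de.de = g := by ext <;> simp

end SL

namespace Dat

variable (D : Dat K)

/-! ### the symbol -/

lemma c_one_left (z : K) : D.c 1 z = 0 := by
  have := D.c_mul_left z one_ne_zero one_ne_zero
  simpa using this

lemma c_one_right (z : K) : D.c z 1 = 0 := by
  have := D.c_mul_right z one_ne_zero one_ne_zero
  simpa using this

lemma c_inv_left (z : K) {x : K} (hx : x ≠ 0) : D.c x⁻¹ z = -D.c x z := by
  have := D.c_mul_left z hx (inv_ne_zero hx)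
  rw [mul_inv_cancel₀ hx, c_one_left] at this
  linear_combination -this

lemma c_inv_right (z : K) {x : K} (hx : x ≠ 0) : D.c z x⁻¹ = -D.c z x := by
  have := D.c_mul_right z hx (inv_ne_zero hx)
  rw [mul_inv_cancel₀ hx, c_one_right] at this
  linear_combination -this

lemma c_div_left (z : K) {x y : K} (hx : x ≠ 0) (hy : y ≠ 0) :
    D.c (x / y) z = D.c x z - D.c y z := by
  rw [div_eq_mul_inv, D.c_mul_left z hx (inv_ne_zero hy), c_inv_left _ _ hy, sub_eq_add_neg]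

lemma c_div_right (z : K) {x y : K} (hx : x ≠ 0) (hy : y ≠ 0) :
    D.c z (x / y) = D.c z x - D.c z y := by
  rw [div_eq_mul_inv, D.c_mul_right z hx (inv_ne_zero hy), c_inv_right _ _ hy, sub_eq_add_neg]

lemma c_pow_left (z : K) {x : K} (hx : x ≠ 0) (n : ℕ) : D.c (x ^ n) z = n * D.c x z := by
  induction n with
  | zero => simp [c_one_left]
  | succ n ih => rw [pow_succ, D.c_mul_left z (pow_ne_zero _ hx) hx, ih]; push_cast; ring

lemma c_pow_right (z : K) {x : K} (hx : x ≠ 0) (n : ℕ) : D.c z (x ^ n) = n * D.c z x := by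
  induction n with
  | zero => simp [c_one_right]
  | succ n ih => rw [pow_succ, D.c_mul_right z (pow_ne_zero _ hx) hx, ih]; push_cast; ring

lemma c_cube_left (z : K) {x : K} (hx : x ≠ 0) : D.c (x ^ 3) z = 0 := by
  rw [c_pow_left _ _ hx]; exact mul_eq_zero_of_left rfl _

lemma c_cube_right (z : K) {x : K} (hx : x ≠ 0) : D.c z (x ^ 3) = 0 := by
  rw [c_pow_right _ _ hx]; exact mul_eq_zero_of_left rfl _

lemma c_neg_left (z : K) {x : K} (hx : x ≠ 0) : D.c (-x) z = D.c x z := by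
  rw [show -x = (-1) ^ 3 * x by ring, D.c_mul_left z (by simp) hx, c_cube_left _ _ (by simp),
    zero_add]

lemma c_neg_right (z : K) {x : K} (hx : x ≠ 0) : D.c z (-x) = D.c z x := by
  rw [show -x = (-1) ^ 3 * x by ring, D.c_mul_right z (by simp) hx, c_cube_right _ _ (by simp),
    zero_add]

lemma c_self {x : K} (hx : x ≠ 0) : D.c x x = 0 := by
  by_cases h1 : x = 1
  · rw [h1, c_one_left]
  have h2 : 1 - x ≠ 0 := sub_ne_zero.2 (Ne.symm h1)
  have h3 : x⁻¹ ≠ 1 := by simpa using h1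
  have h4 : 1 - x⁻¹ ≠ 0 := sub_ne_zero.2 (Ne.symm h3)
  have a := D.stein (inv_ne_zero hx) h3
  rw [c_inv_left _ _ hx, show 1 - x⁻¹ = -((1 - x) / x) by field_simp; ring,
    c_neg_right _ _ (div_ne_zero h2 hx), c_div_right _ _ h2 hx, D.stein hx h1] at a
  linear_combination a

lemma c_swap {x y : K} (hx : x ≠ 0) (hy : y ≠ 0) : D.c y x = -D.c x y := by
  have := D.c_self (mul_ne_zero hx hy)
  rw [D.c_mul_left _ hx hy, D.c_mul_right _ hx hy, D.c_mul_right _ hx hy, D.c_self hx,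
    D.c_self hy] at this
  linear_combination this

lemma c_add_one {u w : K} (hu : u ≠ 0) (hw : w ≠ 0) (h : u + w = 1) : D.c u w = 0 := by
  rw [show w = 1 - u by linear_combination h]
  exact D.stein hu fun h1 => hw (by linear_combination h - h1)

/-! ### levels -/

/-- `x` is divisible by `p ^ k` -/
def L (k : ℕ) (x : K) : Prop := ∃ y ∈ D.O, x = D.p ^ k * y

variable {D}

lemma L_zero {x : K} : D.L 0 x ↔ x ∈ D.O := by simp [L]
lemma L.zero (k : ℕ) : D.L k 0 := ⟨0, zero_mem _, by simp⟩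
lemma L.add {k : ℕ} {x y : K} (hx : D.L k x) (hy : D.L k y) : D.L k (x + y) := by
  obtain ⟨a, ha, rfl⟩ := hx; obtain ⟨b, hb, rfl⟩ := hy
  exact ⟨a + b, add_mem ha hb, by ring⟩
lemma L.neg {k : ℕ} {x : K} (hx : D.L k x) : D.L k (-x) := by
  obtain ⟨a, ha, rfl⟩ := hx; exact ⟨-a, neg_mem ha, by ring⟩
lemma L.sub {k : ℕ} {x y : K} (hx : D.L k x) (hy : D.L k y) : D.L k (x - y) := by
  rw [sub_eq_add_neg]; exact hx.add hy.neg
lemma L.mono {k l : ℕ} {x : K} (hx : D.L k x) (h : l ≤ k) : D.L l x := by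
  obtain ⟨a, ha, rfl⟩ := hx
  obtain ⟨n, rfl⟩ := Nat.exists_eq_add_of_le h
  exact ⟨D.p ^ n * a, mul_mem (pow_mem D.p_mem n) ha, by ring⟩
lemma L.mul {i j k : ℕ} {x y : K} (hx : D.L i x) (hy : D.L j y) (h : k ≤ i + j) :
    D.L k (x * y) := by
  obtain ⟨a, ha, rfl⟩ := hx; obtain ⟨b, hb, rfl⟩ := hy
  exact L.mono ⟨a * b, mul_mem ha hb, by ring⟩ h
lemma L.of_eq {k : ℕ} {x y : K} (hx : D.L k x) (h : y = x) : D.L k y := h ▸ hx
lemma L.pow (k : ℕ) : D.L k (D.p ^ k) := ⟨1, one_mem _, by simp⟩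
lemma L.one : D.L 0 1 := L_zero.2 (one_mem _)
lemma L.int (r : ℤ) : D.L 0 r := L_zero.2 (intCast_mem _ r)
lemma L.nat (r : ℕ) : D.L 0 r := L_zero.2 (natCast_mem _ r)
lemma L.three : D.L (2 * D.m) 3 := ⟨-1, neg_mem (one_mem _), by rw [D.pow]; ring⟩
lemma L.three' : D.L 1 3 := L.three.mono (by have := D.m_pos; omega)
lemma three_ne (D : Dat K) : (3 : K) ≠ 0 := fun h =>
  pow_ne_zero (2 * D.m) D.p_ne (by rw [D.pow, h]; simp)
lemma L.mul_p {k : ℕ} {x : K} (hx : D.L k x) : D.L (k + 1) (D.p * x) := by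
  obtain ⟨a, ha, rfl⟩ := hx; exact ⟨a, ha, by ring⟩
lemma L.div_p {k : ℕ} {x : K} (hx : D.L (k + 1) x) : D.L k (x / D.p) := by
  obtain ⟨a, ha, rfl⟩ := hx
  exact ⟨a, ha, by have := D.p_ne; field_simp; ring⟩
lemma L.div_three {k : ℕ} {x : K} (hx : D.L (k + 2 * D.m) x) : D.L k (x / 3) := by
  obtain ⟨a, ha, rfl⟩ := hx
  exact ⟨-a, neg_mem ha, by have := D.three_ne; rw [pow_add, D.pow]; field_simp⟩
lemma not_L_one : ¬ D.L 1 1 := fun ⟨y, hy, h⟩ => D.nunit y hy (by simpa using h.symm)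
lemma not_L_pow (k : ℕ) : ¬ D.L (k + 1) (D.p ^ k) := fun ⟨y, hy, h⟩ =>
  D.nunit y hy (mul_left_cancel₀ (pow_ne_zero k D.p_ne) (by linear_combination -h))
/-- one-units are integral -/
lemma L.of_sub_one {k : ℕ} {u : K} (hu : D.L k (u - 1)) : D.L 0 u :=
  ((hu.mono (Nat.zero_le _)).add L.one).of_eq (by ring)
lemma L.ne_zero {u : K} (hu : D.L 1 (u - 1)) : u ≠ 0 := fun h =>
  not_L_one (hu.neg.of_eq (by rw [h]; ring))
lemma L.inv {u : K} (hu : D.L 1 (u - 1)) : D.L 0 u⁻¹ := by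
  obtain ⟨y, hy, h⟩ := hu
  rw [L_zero, show u = 1 + D.p * y by linear_combination h]
  exact D.unit y hy
lemma L.inv_sub_one {k : ℕ} {u : K} (hu : D.L (k + 1) (u - 1)) : D.L (k + 1) (u⁻¹ - 1) := by
  have h1 := hu.mono (show 1 ≤ k + 1 by omega)
  have h0 := h1.ne_zero
  exact (hu.neg.mul h1.inv le_rfl).of_eq (by field_simp; ring)
lemma L.exists_cube {u : K} (hu : D.L (3 * D.m + 1) (u - 1)) :
    ∃ w, D.L 1 (w - 1) ∧ w ^ 3 = u := by
  obtain ⟨y, hy, h⟩ := hu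
  obtain ⟨w, hw, e⟩ := D.cube y hy
  exact ⟨1 + D.p * w, ⟨w, hw, by ring⟩, by linear_combination e - h⟩

lemma L_int_iff {r : ℤ} : D.L 1 r ↔ (r : ZMod 3) = 0 := by
  rw [ZMod.intCast_zmod_eq_zero_iff_dvd]
  constructor
  · intro h
    by_contra h3
    have h1 : (3 : ℤ) ∣ r * r - 1 := by
      have : r % 3 = 1 ∨ r % 3 = 2 := by push_cast at h3; omega
      rcases this with h | h
      · exact ⟨(r - 1) / 3 * (r + 1), by
          have : r - 1 = 3 * ((r - 1) / 3) := by omega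
          linear_combination (r + 1) * this⟩
      · exact ⟨(r + 1) / 3 * (r - 1), by
          have : r + 1 = 3 * ((r + 1) / 3) := by omega
          linear_combination (r - 1) * this⟩
    obtain ⟨s, hs⟩ := h1
    have hs' : (r : K) * r - 1 = 3 * s := by exact_mod_cast congrArg (Int.cast : ℤ → K) hs
    exact not_L_one (((h.mul (L.int r) le_rfl).sub (L.three'.mul (L.int s) le_rfl)).of_eq
      (by linear_combination -hs'))
  · rintro ⟨s, rfl⟩
    exact (L.three'.mul (L.int s) le_rfl).of_eq (by push_cast; ring)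

variable (D) in
open Classical in
/-- the coefficient of `p ^ k` -/
noncomputable def co (k : ℕ) (x : K) : ZMod 3 :=
  if h : ∃ r : ℤ, D.L (k + 1) (x - r * D.p ^ k) then (h.choose : ZMod 3) else 0

lemma co_eq {k : ℕ} {x : K} {r : ℤ} (h : D.L (k + 1) (x - r * D.p ^ k)) : D.co k x = r := by
  have ex : ∃ r : ℤ, D.L (k + 1) (x - r * D.p ^ k) := ⟨r, h⟩
  rw [co, dif_pos ex, ← sub_eq_zero, ← Int.cast_sub, ← L_int_iff (D := D)]
  obtain ⟨y, hy, e⟩ := h.sub ex.choose_spec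
  exact ⟨y, hy, mul_left_cancel₀ (pow_ne_zero k D.p_ne) (by push_cast; linear_combination e)⟩

lemma L.exists_co {k : ℕ} {x : K} (hx : D.L k x) :
    ∃ r : ℤ, D.L (k + 1) (x - r * D.p ^ k) ∧ D.co k x = r := by
  obtain ⟨a, ha, rfl⟩ := hx
  obtain ⟨r, y, hy, rfl⟩ := D.resid a ha
  have : D.L (k + 1) (D.p ^ k * (r + D.p * y) - r * D.p ^ k) := ⟨y, hy, by ring⟩
  exact ⟨r, this, co_eq this⟩

lemma co_add {k : ℕ} {x y : K} (hx : D.L k x) (hy : D.L k y) :
    D.co k (x + y) = D.co k x + D.co k y := by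
  obtain ⟨r, h1, e1⟩ := hx.exists_co
  obtain ⟨s, h2, e2⟩ := hy.exists_co
  rw [e1, e2, co_eq (r := r + s) ((h1.add h2).of_eq (by push_cast; ring)), Int.cast_add]

lemma co_congr {k : ℕ} {x y : K} (hy : D.L k y) (h : D.L (k + 1) (x - y)) :
    D.co k x = D.co k y := by
  obtain ⟨s, h2, e2⟩ := hy.exists_co
  rw [e2, co_eq (r := s) ((h.add h2).of_eq (by ring))]

lemma co_eq_zero_iff {k : ℕ} {x : K} (hx : D.L k x) : D.co k x = 0 ↔ D.L (k + 1) x := by
  constructor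
  · intro h
    obtain ⟨r, h1, e1⟩ := hx.exists_co
    rw [e1, ← L_int_iff (D := D)] at h
    exact (h1.add (h.mul (L.pow k) (by omega))).of_eq (by ring)
  · intro h
    simpa using co_eq (r := 0) (h.of_eq (by simp))

lemma co_pow (k : ℕ) : D.co k (D.p ^ k) = 1 := by
  simpa using co_eq (D := D) (k := k) (x := D.p ^ k) (r := 1) ((L.zero _).of_eq (by simp))

variable (D)

/-! ### the cocycle -/

/-- conjugation by the antidiagonal matrix with entries `1` and `p` -/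
def be (g : SL K) : SL K :=
  ⟨g.d, g.c / D.p, D.p * g.b, g.a, by have := D.p_ne; field_simp; linear_combination g.det⟩

@[simp] lemma be_a (g : SL K) : (D.be g).a = g.d := rfl
@[simp] lemma be_b (g : SL K) : (D.be g).b = g.c / D.p := rfl
@[simp] lemma be_c (g : SL K) : (D.be g).c = D.p * g.b := rfl
@[simp] lemma be_d (g : SL K) : (D.be g).d = g.a := rfl
lemma be_mul (g h : SL K) : D.be (g * h) = D.be g * D.be h := by
  have := D.p_ne
  ext <;> simp <;> field_simp <;> ring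
lemma be_be (g : SL K) : D.be (D.be g) = g := by
  have := D.p_ne
  ext <;> simp <;> field_simp
lemma be_de (g : SL K) : D.be g.de = (D.be g).de := by ext <;> simp [neg_div]

noncomputable def sig (g h : SL K) : ZMod 3 := D.c ((g * h).x / g.x) ((g * h).x / h.x)

noncomputable def sg (g h : SL K) : ZMod 3 := D.sig g h + D.sig (D.be g) (D.be h)

/-- congruence conditions -/
def Gm (i k l : ℕ) (g : SL K) : Prop :=
  D.L i (g.a - 1) ∧ D.L k g.b ∧ D.L l g.c ∧ D.L i (g.d - 1)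

end Dat

end Pool.Agent.Lib.MP_c05f82_nt.GC
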