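import Pool.Agent.Lib.MP_c05f82_nt.GC.Defs

/-!
Semidirect products with a fixed point free action through a group of order three.
-/

open scoped commutatorElement

namespace Pool.Agent.Lib.MP_c05f82_nt.GC

open SemidirectProduct

section

variable {W : Type} [AddCommGroup W] {ω : W →+ W}

lemma Fpf_cube (hω : Eis ω) (x : W) : ω (ω (ω x)) = x := by
  have h1 := hω.rel x
  have h2 := hω.rel (ω x)
  have : ω (ω (ω x)) - x = (ω (ω (ω x)) + ω (ω x) + ω x) - (ω (ω x) + ω x + x) := by abel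
  rw [h1, h2, sub_zero, sub_eq_zero] at this
  exact this

/-- the action of the generator -/
def FpfOm (hω : Eis ω) : MulAut (Multiplicative W) where
  toFun x := Multiplicative.ofAdd (ω x.toAdd)
  invFun x := Multiplicative.ofAdd (ω (ω x.toAdd))
  left_inv x := by simp [Fpf_cube hω]
  right_inv x := by simp [Fpf_cube hω]
  map_mul' x y := by simp

lemma FpfOm_apply (hω : Eis ω) (x : Multiplicative W) :
    FpfOm hω x = Multiplicative.ofAdd (ω x.toAdd) := rfl

lemma FpfOm_cube (hω : Eis ω) : FpfOm hω ^ 3 = 1 := by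
  ext x
  simp [pow_succ, FpfOm_apply, Fpf_cube hω]

/-- the action through the character -/
def FpfPhi (hω : Eis ω) {Q : Type} [Group Q] (χ : Q →* C3) : Q →* MulAut (Multiplicative W) where
  toFun q := FpfOm hω ^ (χ q).toAdd.val
  map_one' := by simp
  map_mul' a b := by
    rw [map_mul, toAdd_mul, ZMod.val_add, ← pow_add, ← pow_eq_pow_mod _ (FpfOm_cube hω)]

lemma Fpf_split (hω : Eis ω) (w : W) :
    (∃ u, u - ω u = w) ∧ (∃ u, u - ω (ω u) = w) := by
  obtain ⟨n, hn⟩ := hω.div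
  have key : ∀ x, (x - ω (ω x)) - ω (x - ω (ω x)) = (3 : ℤ) • x := by
    intro x
    have h1 := hω.rel x
    rw [map_sub, Fpf_cube hω]
    have : (3 : ℤ) • x = x - ω (ω x) - (ω x - x) + (ω (ω x) + ω x + x) := by
      rw [show (3 : ℤ) = 1 + 1 + 1 by norm_num, add_smul, add_smul, one_smul]; abel
    rw [this, h1, add_zero]
  refine ⟨⟨n • w - ω (ω (n • w)), ?_⟩, ⟨n • w - ω (n • w), ?_⟩⟩
  · rw [key, smul_smul, hn]
  · have := key (n • w)
    rw [smul_smul, hn] at this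
    refine Eq.trans ?_ this
    simp only [map_sub]
    abel

/-- a subgroup containing the first two differences of `w` contains `w` -/
lemma Fpf_mem (hω : Eis ω) (H : AddSubgroup W) (w : W) (h1 : ω w - w ∈ H)
    (h2 : ω (ω w - w) - (ω w - w) ∈ H) : w ∈ H := by
  obtain ⟨n, hn⟩ := hω.div
  have h3 : ω (ω w - w) - (ω w - w) = -((3 : ℤ) • ω w) := by
    have h1 := hω.rel w
    have : -((3 : ℤ) • ω w) = ω (ω w) - ω w - (ω w - w) - (ω (ω w) + ω w + w) := by
      rw [show (3 : ℤ) = 1 + 1 + 1 by norm_num, add_smul, add_smul, one_smul]; abel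
    rw [this, h1, sub_zero, map_sub]
  rw [h3, neg_mem_iff] at h2
  have h4 := H.zsmul_mem h2 n
  rw [smul_smul, mul_comm, hn] at h4
  simpa using H.sub_mem h4 h1

variable (hω : Eis ω) {Q : Type} [Group Q] (χ : Q →* C3)

lemma FpfPhi_ker {q : Q} (hq : q ∈ χ.ker) (x : Multiplicative W) : FpfPhi hω χ q x = x := by
  have : χ q = 1 := hq
  change (FpfOm hω ^ (χ q).toAdd.val) x = x
  simp [this]

lemma FpfPhi_one {q : Q} (hq : χ q = Multiplicative.ofAdd 1) (x : Multiplicative W) :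
    FpfPhi hω χ q x = Multiplicative.ofAdd (ω x.toAdd) := by
  change (FpfOm hω ^ (χ q).toAdd.val) x = _
  rw [hq, toAdd_ofAdd, show (1 : ZMod 3).val = 1 from rfl, pow_one, FpfOm_apply]

lemma FpfPhi_two {q : Q} (hq : χ q = Multiplicative.ofAdd 2) (x : Multiplicative W) :
    FpfPhi hω χ q x = Multiplicative.ofAdd (ω (ω x.toAdd)) := by
  change (FpfOm hω ^ (χ q).toAdd.val) x = _
  rw [hq, toAdd_ofAdd, show (2 : ZMod 3).val = 2 from rfl, pow_two]
  rfl

lemma Fpf_cases (c : C3) : c = 1 ∨ c = Multiplicative.ofAdd 1 ∨ c = Multiplicative.ofAdd 2 := by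
  revert c; decide

lemma FpfPhi_mem {H : AddSubgroup W} (hH : ∀ x ∈ H, ω x ∈ H) (q : Q) {x : Multiplicative W}
    (hx : x.toAdd ∈ H) : (FpfPhi hω χ q x).toAdd ∈ H := by
  rcases Fpf_cases (χ q) with h | h | h
  · rwa [FpfPhi_ker hω χ h]
  · rw [FpfPhi_one hω χ h]; exact hH _ hx
  · rw [FpfPhi_two hω χ h]; exact hH _ (hH _ hx)

/-- the semidirect product -/
abbrev FpfG : Type := Multiplicative W ⋊[FpfPhi hω χ] Q

/-- the part of a subgroup inside the module -/
def FpfL (P : Subgroup (FpfG hω χ)) : AddSubgroup W :=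
  Subgroup.toAddSubgroup' (P.comap (inl : Multiplicative W →* FpfG hω χ))

lemma mem_FpfL {P : Subgroup (FpfG hω χ)} {w : W} :
    w ∈ FpfL hω χ P ↔ (inl (Multiplicative.ofAdd w) : FpfG hω χ) ∈ P := Iff.rfl

/-- the part of a subgroup inside the complement -/
def FpfR (P : Subgroup (FpfG hω χ)) : Subgroup Q := P.comap (inr : Q →* FpfG hω χ)

lemma mem_FpfR {P : Subgroup (FpfG hω χ)} {q : Q} :
    q ∈ FpfR hω χ P ↔ (inr q : FpfG hω χ) ∈ P := Iff.rfl

/-- the subgroup attached to an invariant subgroup and a subgroup of the complement -/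
def FpfP (H : AddSubgroup W) (hH : ∀ x ∈ H, ω x ∈ H) (M : Subgroup Q) :
    Subgroup (FpfG hω χ) where
  carrier := {g | g.left.toAdd ∈ H ∧ g.right ∈ M}
  mul_mem' := fun {a b} ha hb => ⟨by
    rw [mul_left, toAdd_mul]
    exact H.add_mem ha.1 (FpfPhi_mem hω χ hH _ hb.1), M.mul_mem ha.2 hb.2⟩
  one_mem' := ⟨H.zero_mem, M.one_mem⟩
  inv_mem' := fun {a} ha => ⟨by
    rw [inv_left]
    exact FpfPhi_mem hω χ hH _ (H.neg_mem ha.1), M.inv_mem ha.2⟩

lemma mem_FpfP {H : AddSubgroup W} {hH : ∀ x ∈ H, ω x ∈ H} {M : Subgroup Q} {g : FpfG hω χ} :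
    g ∈ FpfP hω χ H hH M ↔ g.left.toAdd ∈ H ∧ g.right ∈ M := Iff.rfl

lemma FpfP_normal {H : AddSubgroup W} (hH : ∀ x ∈ H, ω x ∈ H) {M : Subgroup Q} (hM : M.Normal)
    (h : M ≤ χ.ker ∨ H = ⊤) : (FpfP hω χ H hH M).Normal := by
  refine ⟨fun g hg x => ⟨?_, hM.conj_mem _ hg.2 _⟩⟩
  rcases h with h | h
  · have h1 : x.right * g.right * x.right⁻¹ ∈ χ.ker := h (hM.conj_mem _ hg.2 _)
    have h2 : (x * g * x⁻¹).left = FpfPhi hω χ x.right g.left := by
      rw [mul_left, mul_left, inv_left, mul_right, ← MulAut.mul_apply, ← map_mul,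
        FpfPhi_ker hω χ h1, mul_inv_cancel_comm]
    rw [h2]
    exact FpfPhi_mem hω χ hH _ hg.1
  · rw [h]; trivial

lemma Fpf_card (P : Subgroup (FpfG hω χ))
    (h : ∀ g, g ∈ P ↔ g.left.toAdd ∈ FpfL hω χ P ∧ g.right ∈ FpfR hω χ P) :
    Nat.card P = Nat.card (FpfL hω χ P) * Nat.card (FpfR hω χ P) := by
  rw [← Nat.card_prod]
  exact Nat.card_congr
    { toFun := fun g => (⟨g.1.left.toAdd, ((h _).1 g.2).1⟩, ⟨g.1.right, ((h _).1 g.2).2⟩)
      invFun := fun p => ⟨⟨Multiplicative.ofAdd p.1.1, p.2.1⟩, (h _).2 ⟨p.1.2, p.2.2⟩⟩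
      left_inv := fun _ => rfl
      right_inv := fun _ => rfl }

variable {q₀ : Q} (h₀ : χ q₀ = Multiplicative.ofAdd 1) (hc : ∀ q, Commute q₀ q)

include h₀ hc in
lemma Fpf_diff {P : Subgroup (FpfG hω χ)} (hP : P.Normal) {g : FpfG hω χ} (hg : g ∈ P) :
    ω g.left.toAdd - g.left.toAdd ∈ FpfL hω χ P := by
  have h1 := P.mul_mem (hP.conj_mem _ hg (inr q₀)) (P.inv_mem hg)
  have h2 : q₀ * g.right * q₀⁻¹ = g.right := by rw [(hc _).eq, mul_inv_cancel_right]
  rw [mem_FpfL]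
  convert h1 using 1
  ext
  · simp only [left_inl, mul_left, mul_right, inv_left, inv_right, left_inr, right_inr, inv_one,
      map_one, mul_one, one_mul, h2]
    rw [← MulAut.mul_apply, ← map_mul, mul_inv_cancel, map_one, MulAut.one_apply,
      FpfPhi_one hω χ h₀, sub_eq_add_neg]
    rfl
  · rw [right_inl]
    simp [h2]

include h₀ hc in
lemma Fpf_mem_iff {P : Subgroup (FpfG hω χ)} (hP : P.Normal) (g : FpfG hω χ) :
    g ∈ P ↔ g.left.toAdd ∈ FpfL hω χ P ∧ g.right ∈ FpfR hω χ P := by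
  constructor
  · intro hg
    have h1 := Fpf_diff hω χ h₀ hc hP hg
    have h2 := Fpf_diff hω χ h₀ hc hP ((mem_FpfL hω χ).1 h1)
    have h3 : g.left.toAdd ∈ FpfL hω χ P := Fpf_mem hω _ _ h1 h2
    refine ⟨h3, ?_⟩
    have h4 : (inl g.left : FpfG hω χ) ∈ P := h3
    have h5 := P.mul_mem (P.inv_mem h4) hg
    rw [mem_FpfR]
    convert h5 using 1
    rw [eq_inv_mul_iff_mul_eq, inl_left_mul_inr_right]
  · rintro ⟨h1, h2⟩
    rw [← inl_left_mul_inr_right g]
    exact P.mul_mem h1 h2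

include h₀ in
lemma FpfL_inv {P : Subgroup (FpfG hω χ)} (hP : P.Normal) :
    ∀ x ∈ FpfL hω χ P, ω x ∈ FpfL hω χ P := by
  intro x hx
  have h1 := hP.conj_mem _ ((mem_FpfL hω χ).1 hx) (inr q₀)
  rw [← map_inv, ← inl_aut, FpfPhi_one hω χ h₀] at h1
  exact h1

lemma FpfL_top {P : Subgroup (FpfG hω χ)} (hP : P.Normal) :
    FpfR hω χ P ≤ χ.ker ∨ FpfL hω χ P = ⊤ := by
  by_cases h : FpfR hω χ P ≤ χ.ker
  · exact Or.inl h
  right
  obtain ⟨q, hq, hq'⟩ := SetLike.not_le_iff_exists.1 h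
  have key : ∀ u : W, u - (FpfPhi hω χ q (Multiplicative.ofAdd u)).toAdd ∈ FpfL hω χ P := by
    intro u
    have hq1 : (inr q : FpfG hω χ) ∈ P := hq
    have h1 := P.mul_mem (hP.conj_mem _ hq1 (inl (Multiplicative.ofAdd u))) (P.inv_mem hq1)
    rw [mem_FpfL]
    convert h1 using 1
    ext
    · simp [sub_eq_add_neg]
    · rw [right_inl]
      simp
  rw [eq_top_iff]
  intro w _
  rcases Fpf_cases (χ q) with h | h | h
  · exact absurd h hq'
  · obtain ⟨u, rfl⟩ := (Fpf_split hω w).1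
    simpa [FpfPhi_one hω χ h] using key u
  · obtain ⟨u, rfl⟩ := (Fpf_split hω w).2
    simpa [FpfPhi_two hω χ h] using key u

end

theorem exists_fpf {W : Type} [AddCommGroup W] [Finite W] (ω : W →+ W) (hω : Eis ω)
    (Q : Type) [Group Q] [Finite Q] (χ : Q →* C3) (q₀ : Q)
    (h₀ : χ q₀ = Multiplicative.ofAdd 1) (hc : ∀ q, Commute q₀ q) :
    ∃ (G : Type) (_ : Group G) (_ : Finite G), Nat.card G = Nat.card W * Nat.card Q ∧
      DD G = DW ω * wt (fun M : Subgroup Q => M.Normal ∧ M ≤ χ.ker) +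
        Nat.card W * wt (fun M : Subgroup Q => M.Normal ∧ ¬ M ≤ χ.ker) := by
  classical
  have hfin : Finite (FpfG hω χ) := Finite.of_equiv _ SemidirectProduct.equivProd.symm
  refine ⟨FpfG hω χ, inferInstance, hfin, SemidirectProduct.card, ?_⟩
  let _ : Fintype (Subgroup (FpfG hω χ)) := Fintype.ofFinite _
  let _ : Fintype (Subgroup Q) := Fintype.ofFinite _
  let _ : Fintype (AddSubgroup W) := Fintype.ofFinite _
  rw [DD, DW, wt_eq_sum (Finset.univ.filter fun P : Subgroup (FpfG hω χ) => P.Normal) (by simp),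
    awt_eq_sum (Finset.univ.filter fun H : AddSubgroup W => ∀ x ∈ H, ω x ∈ H) (by simp),
    wt_eq_sum (Finset.univ.filter fun M : Subgroup Q => M.Normal ∧ M ≤ χ.ker) (by simp),
    wt_eq_sum (Finset.univ.filter fun M : Subgroup Q => M.Normal ∧ ¬ M ≤ χ.ker) (by simp)]
  have hsum : ∑ P ∈ Finset.univ.filter (fun P : Subgroup (FpfG hω χ) => P.Normal), Nat.card P =
      ∑ p ∈ Finset.univ.filter (fun p : AddSubgroup W × Subgroup Q =>
        (∀ x ∈ p.1, ω x ∈ p.1) ∧ p.2.Normal ∧ (p.2 ≤ χ.ker ∨ p.1 = ⊤)),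
        Nat.card p.1 * Nat.card p.2 := by
    refine Finset.sum_bij (fun P _ => (FpfL hω χ P, FpfR hω χ P)) ?_ ?_ ?_ ?_
    · intro P hP
      have hP' : P.Normal := (Finset.mem_filter.1 hP).2
      exact Finset.mem_filter.2 ⟨Finset.mem_univ _, FpfL_inv hω χ h₀ hP', hP'.comap _,
        FpfL_top hω χ hP'⟩
    · intro P hP R hR h
      obtain ⟨e1, e2⟩ := Prod.mk.inj h
      ext g
      rw [Fpf_mem_iff hω χ h₀ hc (Finset.mem_filter.1 hP).2,
        Fpf_mem_iff hω χ h₀ hc (Finset.mem_filter.1 hR).2, e1, e2]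
    · rintro ⟨H, M⟩ hp
      obtain ⟨h1, h2, h3⟩ := (Finset.mem_filter.1 hp).2
      refine ⟨FpfP hω χ H h1 M, Finset.mem_filter.2 ⟨Finset.mem_univ _,
        FpfP_normal hω χ h1 h2 h3⟩, Prod.ext ?_ ?_⟩
      · ext w
        simp [mem_FpfL, mem_FpfP]
      · ext q
        simp [mem_FpfR, mem_FpfP]
    · intro P hP
      exact Fpf_card hω χ P (Fpf_mem_iff hω χ h₀ hc (Finset.mem_filter.1 hP).2)
  rw [hsum, ← Finset.sum_filter_add_sum_filter_not _
    (fun p : AddSubgroup W × Subgroup Q => p.2 ≤ χ.ker), Finset.sum_mul_sum, ← Finset.sum_product',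
    Finset.mul_sum]
  congr 1
  · refine Finset.sum_congr ?_ fun _ _ => rfl
    ext ⟨H, M⟩
    simp only [Finset.mem_filter, Finset.mem_univ, true_and, Finset.mem_product]
    tauto
  · symm
    refine Finset.sum_bij (fun M _ => ((⊤ : AddSubgroup W), M)) ?_ ?_ ?_ ?_
    · intro M hM
      simp only [Finset.mem_filter, Finset.mem_univ, true_and] at hM ⊢
      exact ⟨⟨fun _ _ => trivial, hM.1, Or.inr trivial⟩, hM.2⟩
    · intro M _ R _ h
      exact (Prod.ext_iff.1 h).2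
    · rintro ⟨H, M⟩ hp
      simp only [Finset.mem_filter, Finset.mem_univ, true_and] at hp
      obtain ⟨⟨_, h2, h3⟩, h4⟩ := hp
      exact ⟨M, by simp [h2, h4], by rw [h3.resolve_left h4]⟩
    · intro M _
      simp

end Pool.Agent.Lib.MP_c05f82_nt.GC
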