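import Pool.Agent.Lib.MP_c05f82_nt.GC.Defs

/-!
Normal subgroups of a reduced tower.
-/

open scoped commutatorElement

namespace Pool.Agent.Lib.MP_c05f82_nt.GC

namespace Tower

variable {A : Type} [Group A] {N : ℕ} {T : Tower A N}

theorem lat1_normal {K : Subgroup A} (h : ∀ x ∈ K, ∀ g, ⁅x, g⁆ ∈ K) : K.Normal :=
  ⟨fun x hx g => by
    have e : g * x * g⁻¹ = ⁅x, g⁆⁻¹ * x := by simp only [commutatorElement_def]; group
    rw [e]
    exact mul_mem (inv_mem (h x hx g)) hx⟩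

theorem lat1_comm_mem {M : Subgroup A} (hM : M.Normal) {x : A} (hx : x ∈ M) (g : A) :
    ⁅x, g⁆ ∈ M := by
  have e : ⁅x, g⁆ = x * (g * x⁻¹ * g⁻¹) := by simp only [commutatorElement_def]; group
  rw [e]
  exact mul_mem hx (hM.conj_mem _ (inv_mem hx) g)

theorem Red.lat1_top (R : T.Red) (g : A) : g ∈ T.V 0 := by rw [R.top]; trivial

theorem Red.V_normal (R : T.Red) {j : ℕ} (hj : j ≤ N) : (T.V j).Normal := by
  refine lat1_normal fun x hx g => ?_
  rcases hj.lt_or_eq with h | rfl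
  · exact T.HV j h (T.cV j h x hx g (R.lat1_top g))
  · exact T.cN x hx g (R.lat1_top g)

theorem Red.H_normal (R : T.Red) {j : ℕ} (hj : j < N) : (T.H j).Normal :=
  lat1_normal fun x hx g => T.VH j hj (T.cH j hj x hx g (R.lat1_top g))

theorem Red.Vs_normal (R : T.Red) {j : ℕ} (hj : j < N) (ε : ZMod 3) : (T.Vs j hj ε).Normal := by
  refine lat1_normal fun x hx g => ?_
  have h1 := T.cV j hj x hx.1 g (R.lat1_top g)
  have h2 := T.HV j hj h1
  refine T.mem_Vs.2 ⟨h2, ?_⟩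
  rw [(T.v_zero j hj _ h2).2 h1]
  simp

theorem lat1_pow {W : Type} [AddCommGroup W] {K : Subgroup A} {φ : A → W}
    (hadd : ∀ x ∈ K, ∀ y ∈ K, φ (x * y) = φ x + φ y) {x : A} (hx : x ∈ K) (n : ℕ) :
    φ (x ^ n) = n • φ x := by
  induction n with
  | zero =>
    have := hadd 1 (one_mem _) 1 (one_mem _)
    simpa using this
  | succ n ih => rw [pow_succ, hadd _ (pow_mem hx n) _ hx, ih, succ_nsmul]

theorem lat1_v_ef {j : ℕ} (hj : j < N) (w : ZMod 3 × ZMod 3) :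
    T.v j (T.e j ^ w.1.val * T.f j ^ w.2.val) = w := by
  rw [T.v_mul j hj _ (pow_mem (T.e_mem j hj) _) _ (pow_mem (T.f_mem hj) _),
    lat1_pow (T.v_mul j hj) (T.e_mem j hj), lat1_pow (T.v_mul j hj) (T.f_mem hj),
    T.v_e j hj, T.v_f j hj]
  revert w
  decide

theorem lat1_h_t {j : ℕ} (hj : j < N) (k : ZMod 3) : T.h j (T.t j ^ k.val) = k := by
  rw [lat1_pow (T.h_mul j hj) (T.t_mem j hj), T.h_t j hj]
  revert k
  decide

theorem exists_v {j : ℕ} (hj : j < N) (w : ZMod 3 × ZMod 3) : ∃ x ∈ T.V j, T.v j x = w :=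
  ⟨_, mul_mem (pow_mem (T.e_mem j hj) _) (pow_mem (T.f_mem hj) _), lat1_v_ef hj w⟩

theorem exists_h {j : ℕ} (hj : j < N) (k : ZMod 3) : ∃ x ∈ T.H j, T.h j x = k :=
  ⟨_, pow_mem (T.t_mem j hj) _, lat1_h_t hj k⟩

theorem lat1_div_H {j : ℕ} (hj : j < N) {x y : A} (hx : x ∈ T.V j) (hy : y ∈ T.V j)
    (h : T.v j x = T.v j y) : x * y⁻¹ ∈ T.H j := by
  rw [← T.v_zero j hj _ (mul_mem hx (inv_mem hy)), T.v_mul j hj _ hx _ (inv_mem hy),
    T.v_inv hj hy, h, add_neg_cancel]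

theorem lat1_div_V {j : ℕ} (hj : j < N) {x y : A} (hx : x ∈ T.H j) (hy : y ∈ T.H j)
    (h : T.h j x = T.h j y) : x * y⁻¹ ∈ T.V (j + 1) := by
  rw [← T.h_zero j hj _ (mul_mem hx (inv_mem hy)), T.h_mul j hj _ hx _ (inv_mem hy),
    T.h_inv hj hy, h, add_neg_cancel]

/-- an additive map on `V j` that kills `H j` is determined by two values -/
theorem lat1_lin_V {W : Type} [AddCommGroup W] {j : ℕ} (hj : j < N) {φ : A → W}
    (hadd : ∀ x ∈ T.V j, ∀ y ∈ T.V j, φ (x * y) = φ x + φ y) (h0 : ∀ x ∈ T.H j, φ x = 0)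
    {x : A} (hx : x ∈ T.V j) :
    φ x = (T.v j x).1.val • φ (T.e j) + (T.v j x).2.val • φ (T.f j) := by
  have he := pow_mem (T.e_mem j hj) (T.v j x).1.val
  have hf := pow_mem (T.f_mem hj) (T.v j x).2.val
  have h1 := lat1_div_H hj hx (mul_mem he hf) (lat1_v_ef hj (T.v j x)).symm
  have h2 := hadd _ (T.HV j hj h1) _ (mul_mem he hf)
  rw [inv_mul_cancel_right, h0 _ h1, zero_add, hadd _ he _ hf, lat1_pow hadd (T.e_mem j hj),
    lat1_pow hadd (T.f_mem hj)] at h2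
  exact h2

/-- an additive map on `H j` that kills `V (j + 1)` is determined by one value -/
theorem lat1_lin_H {W : Type} [AddCommGroup W] {j : ℕ} (hj : j < N) {φ : A → W}
    (hadd : ∀ x ∈ T.H j, ∀ y ∈ T.H j, φ (x * y) = φ x + φ y) (h0 : ∀ x ∈ T.V (j + 1), φ x = 0)
    {x : A} (hx : x ∈ T.H j) : φ x = (T.h j x).val • φ (T.t j) := by
  have ht := pow_mem (T.t_mem j hj) (T.h j x).val
  have h1 := lat1_div_V hj hx ht (lat1_h_t hj (T.h j x)).symm
  have h2 := hadd _ (T.VH j hj h1) _ ht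
  rw [inv_mul_cancel_right, h0 _ h1, zero_add, lat1_pow hadd (T.t_mem j hj)] at h2
  exact h2

theorem lat1_be_f {j : ℕ} (hj : j < N) : T.be (T.f j) = T.e j := by
  rw [← T.be_e j hj, T.be2]

theorem v_be {j : ℕ} (hj : j < N) {x : A} (hx : x ∈ T.V j) :
    T.v j (T.be x) = (T.v j x).swap := by
  have h := lat1_lin_V (T := T) hj (φ := fun x => T.v j (T.be x))
    (fun x hx y hy => by
      rw [map_mul, T.v_mul j hj _ (T.beV j hj.le _ hx) _ (T.beV j hj.le _ hy)])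
    (fun x hx => (T.v_zero j hj _ (T.beV j hj.le _ (T.HV j hj hx))).2 (T.beH j hj _ hx)) hx
  rw [h, T.be_e j hj, lat1_be_f hj, T.v_e j hj, T.v_f j hj]
  generalize T.v j x = w
  revert w
  decide

theorem v_de {j : ℕ} (hj : j < N) {x : A} (hx : x ∈ T.V j) : T.v j (T.de x) = -T.v j x := by
  have h := lat1_lin_V (T := T) hj (φ := fun x => T.v j (T.de x))
    (fun x hx y hy => by
      rw [map_mul, T.v_mul j hj _ (T.deV j hj.le _ hx) _ (T.deV j hj.le _ hy)])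
    (fun x hx => (T.v_zero j hj _ (T.deV j hj.le _ (T.HV j hj hx))).2 (T.deH j hj _ hx)) hx
  have e : T.de (T.f j) = (T.f j)⁻¹ := by
    rw [← T.be_e j hj, ← T.bd, T.de_e j hj, map_inv]
  rw [h, T.de_e j hj, e, T.v_inv hj (T.e_mem j hj), T.v_inv hj (T.f_mem hj), T.v_e j hj,
    T.v_f j hj]
  generalize T.v j x = w
  revert w
  decide

theorem lat1_comm_mul (x y g : A) : ⁅x * y, g⁆ = ⁅⁅y, g⁆, x⁆⁻¹ * ⁅y, g⁆ * ⁅x, g⁆ := by
  simp only [commutatorElement_def]; group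

theorem Red.lat1_hc (R : T.Red) {j : ℕ} (hj : j < N) (g : A) {x : A} (hx : x ∈ T.V j) :
    T.h j ⁅x, g⁆ = (T.v j x).1.val • T.h j ⁅T.e j, g⁆ + (T.v j x).2.val • T.h j ⁅T.f j, g⁆ := by
  refine lat1_lin_V (T := T) hj (φ := fun x => T.h j ⁅x, g⁆) (fun x hx y hy => ?_)
    (fun x hx => ?_) hx
  · have h1 := T.cV j hj x hx g (R.lat1_top g)
    have h2 := T.cV j hj y hy g (R.lat1_top g)
    have h3 := inv_mem (T.cH j hj _ h2 x (R.lat1_top x))
    have h4 := T.VH j hj h3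
    rw [lat1_comm_mul, T.h_mul j hj _ (mul_mem h4 h2) _ h1, T.h_mul j hj _ h4 _ h2,
      (T.h_zero j hj _ h4).2 h3, zero_add, add_comm]
  · have h1 := T.cH j hj x hx g (R.lat1_top g)
    exact (T.h_zero j hj _ (T.VH j hj h1)).2 h1

theorem Red.lat1_vc_add (R : T.Red) {j : ℕ} (hj : j + 1 < N) (g : A) :
    ∀ x ∈ T.H j, ∀ y ∈ T.H j,
      T.v (j + 1) ⁅x * y, g⁆ = T.v (j + 1) ⁅x, g⁆ + T.v (j + 1) ⁅y, g⁆ := by
  intro x hx y hy
  have hj' : j < N := by omega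
  have h1 := T.cH j hj' x hx g (R.lat1_top g)
  have h2 := T.cH j hj' y hy g (R.lat1_top g)
  have h3 := inv_mem (T.cV _ hj _ h2 x (R.lat1_top x))
  have h4 := T.HV _ hj h3
  rw [lat1_comm_mul, T.v_mul _ hj _ (mul_mem h4 h2) _ h1, T.v_mul _ hj _ h4 _ h2,
    (T.v_zero _ hj _ h4).2 h3, zero_add, add_comm]

theorem Red.lat1_vc (R : T.Red) {j : ℕ} (hj : j + 1 < N) (g : A) {x : A} (hx : x ∈ T.H j) :
    T.v (j + 1) ⁅x, g⁆ = (T.h j x).val • T.v (j + 1) ⁅T.t j, g⁆ := by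
  refine lat1_lin_H (T := T) (by omega) (φ := fun x => T.v (j + 1) ⁅x, g⁆)
    (R.lat1_vc_add hj g) (fun x hx => ?_) hx
  have h1 := T.cV _ hj x hx g (R.lat1_top g)
  exact (T.v_zero _ hj _ (T.HV _ hj h1)).2 h1

theorem Red.lat1_tf (R : T.Red) {j : ℕ} (hj : j + 1 < N) :
    T.v (j + 1) ⁅T.t j, T.f 0⁆ = (0, 1) := by
  have hj' : j < N := by omega
  have h1 := v_be hj (T.cH j hj' _ (T.t_mem j hj') _ (R.lat1_top (T.e 0)))
  rw [map_commutatorElement, T.be_t j hj, T.be_e 0 R.pos, T.te j hj,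
    R.lat1_vc hj _ (inv_mem (T.t_mem j hj')), T.h_inv hj' (T.t_mem j hj'), T.h_t j hj'] at h1
  revert h1
  generalize T.v (j + 1) ⁅T.t j, T.f 0⁆ = w
  revert w
  decide

/-- from an element of `V j` outside `H j` to an element of `H j` outside `V (j + 1)` -/
theorem Red.lat1_step (R : T.Red) {j : ℕ} (hj : j < N) {x : A} (hV : x ∈ T.V j)
    (hH : x ∉ T.H j) : ∃ g, ⁅x, g⁆ ∉ T.V (j + 1) := by
  have h0 := R.pos
  have c1 : ⁅T.e j, T.e 0⁆ = 1 := (T.ee j hj).commutator_eq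
  have c2 : ⁅T.f j, T.f 0⁆ = 1 := by
    rw [← T.be_e j hj, ← T.be_e 0 h0, ← map_commutatorElement, c1, map_one]
  have c3 : T.h j ⁅T.e j, T.f 0⁆ ≠ 0 := fun h =>
    T.ef j hj ((T.h_zero j hj _ (T.cV j hj _ (T.e_mem j hj) _ (R.lat1_top _))).1 h)
  have c4 : T.h j ⁅T.f j, T.e 0⁆ ≠ 0 := fun h => by
    have h1 := T.beV (j + 1) hj _
      ((T.h_zero j hj _ (T.cV j hj _ (T.f_mem hj) _ (R.lat1_top _))).1 h)
    rw [map_commutatorElement, lat1_be_f hj, T.be_e 0 h0] at h1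
    exact T.ef j hj h1
  by_contra hn
  have hn' : ∀ g, T.h j ⁅x, g⁆ = 0 := fun g =>
    (T.h_zero j hj _ (T.cV j hj _ hV _ (R.lat1_top g))).2 (by_contra fun h => hn ⟨g, h⟩)
  have a1 := R.lat1_hc hj (T.e 0) hV
  have a2 := R.lat1_hc hj (T.f 0) hV
  rw [hn', c1, T.h_one hj] at a1
  rw [hn', c2, T.h_one hj] at a2
  refine hH ((T.v_zero j hj _ hV).1 ?_)
  revert a1 a2 c3 c4
  generalize T.v j x = w
  generalize T.h j ⁅T.e j, T.f 0⁆ = a
  generalize T.h j ⁅T.f j, T.e 0⁆ = b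
  revert w a b
  decide

theorem lat1_H_of_V {M : Subgroup A} {j : ℕ} (hj : j < N) {y : A}
    (hy : y ∈ M) (hH : y ∈ T.H j) (hV : y ∉ T.V (j + 1)) (hle : T.V (j + 1) ≤ M) :
    T.H j ≤ M := by
  intro x hx
  have h0 : T.h j y ≠ 0 := fun h => hV ((T.h_zero j hj _ hH).1 h)
  obtain ⟨n, hn⟩ : ∃ n : ℕ, T.h j x = n • T.h j y := by
    refine ⟨(T.h j x * T.h j y).val, ?_⟩
    revert h0
    generalize T.h j x = a
    generalize T.h j y = b
    revert a b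
    decide
  rw [← lat1_pow (T.h_mul j hj) hH] at hn
  have := mul_mem (hle (lat1_div_V hj hx (pow_mem hH n) hn)) (pow_mem hy n)
  rwa [inv_mul_cancel_right] at this

theorem Red.lat1_H_le (R : T.Red) {M : Subgroup A} (hM : M.Normal) (k : ℕ) :
    ∀ j, j + 1 + k = N → ∀ y ∈ M, y ∈ T.H j → y ∉ T.V (j + 1) → T.H j ≤ M := by
  induction k with
  | zero =>
    intro j hj y hy hH hV
    refine lat1_H_of_V (by omega) hy hH hV ?_
    rw [show j + 1 = N by omega, R.bot]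
    exact bot_le
  | succ k ih =>
    intro j hj y hy hH hV
    have hj0 : j < N := by omega
    have hj1 : j + 1 < N := by omega
    refine lat1_H_of_V hj0 hy hH hV ?_
    have h0 : T.h j y ≠ 0 := fun h => hV ((T.h_zero j hj0 _ hH).1 h)
    have m1 := T.cH j hj0 y hH _ (R.lat1_top (T.e 0))
    have m2 := T.cH j hj0 y hH _ (R.lat1_top (T.f 0))
    have v1 := R.lat1_vc hj1 (T.e 0) hH
    have v2 := R.lat1_vc hj1 (T.f 0) hH
    rw [T.te j hj1] at v1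
    rw [R.lat1_tf hj1] at v2
    have n1 : ⁅y, T.e 0⁆ ∉ T.H (j + 1) := fun h => by
      rw [(T.v_zero _ hj1 _ m1).2 h] at v1
      revert h0 v1
      generalize T.h j y = a
      revert a
      decide
    obtain ⟨g, hg⟩ := R.lat1_step hj1 m1 n1
    have hle := ih (j + 1) (by omega) _ (lat1_comm_mem hM (lat1_comm_mem hM hy _) g)
      (T.cV _ hj1 _ m1 g (R.lat1_top g)) hg
    intro x hx
    obtain ⟨a, b, hab⟩ : ∃ a b : ℕ, T.v (j + 1) x =
        a • T.v (j + 1) ⁅y, T.e 0⁆ + b • T.v (j + 1) ⁅y, T.f 0⁆ := by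
      refine ⟨(2 * (T.v (j + 1) x).1 * T.h j y).val, ((T.v (j + 1) x).2 * T.h j y).val, ?_⟩
      rw [v1, v2]
      revert h0
      generalize T.v (j + 1) x = w
      generalize T.h j y = c
      revert w c
      decide
    rw [← lat1_pow (T.v_mul _ hj1) m1, ← lat1_pow (T.v_mul _ hj1) m2,
      ← T.v_mul _ hj1 _ (pow_mem m1 a) _ (pow_mem m2 b)] at hab
    have := mul_mem (hle (lat1_div_H hj1 hx (mul_mem (pow_mem m1 a) (pow_mem m2 b)) hab))
      (mul_mem (pow_mem (lat1_comm_mem hM hy (T.e 0)) a) (pow_mem (lat1_comm_mem hM hy (T.f 0)) b))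
    rwa [inv_mul_cancel_right] at this

theorem Red.H_le (R : T.Red) {M : Subgroup A} (hM : M.Normal) {j : ℕ} (hj : j < N) {y : A}
    (hy : y ∈ M) (hH : y ∈ T.H j) (hV : y ∉ T.V (j + 1)) : T.H j ≤ M :=
  R.lat1_H_le hM (N - (j + 1)) j (by omega) y hy hH hV

theorem Red.H_le' (R : T.Red) {M : Subgroup A} (hM : M.Normal) {j : ℕ} (hj : j < N) {x : A}
    (hx : x ∈ M) (hV : x ∈ T.V j) (hH : x ∉ T.H j) : T.H j ≤ M := by
  obtain ⟨g, hg⟩ := R.lat1_step hj hV hH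
  exact R.H_le hM hj (lat1_comm_mem hM hx g) (T.cV j hj x hV g (R.lat1_top g)) hg

theorem Red.tri (R : T.Red) {M : Subgroup A} (hM : M.Normal) :
    M = ⊥ ∨ ∃ j < N, M = T.H j ∨ (T.H j ≤ M ∧ M ≤ T.V j ∧ M ≠ T.H j) := by
  have key : ∀ n, M ≤ T.V n ∨ ∃ j < n, M ≤ T.V j ∧ ¬ M ≤ T.V (j + 1) := by
    intro n
    induction n with
    | zero => exact Or.inl fun g _ => R.lat1_top g
    | succ n ih =>
      rcases ih with h | ⟨j, h1, h2⟩
      · by_cases h' : M ≤ T.V (n + 1)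
        · exact Or.inl h'
        · exact Or.inr ⟨n, n.lt_succ_self, h, h'⟩
      · exact Or.inr ⟨j, by omega, h2⟩
  rcases key N with h | ⟨j, hj, h1, h2⟩
  · exact Or.inl (le_bot_iff.1 (R.bot ▸ h))
  · refine Or.inr ⟨j, hj, ?_⟩
    by_cases h : M ≤ T.H j
    · obtain ⟨y, hy, hy'⟩ := SetLike.not_le_iff_exists.1 h2
      exact Or.inl (le_antisymm h (R.H_le hM hj hy (h hy) hy'))
    · obtain ⟨x, hx, hx'⟩ := SetLike.not_le_iff_exists.1 h
      exact Or.inr ⟨R.H_le' hM hj hx (h1 hx) hx', h1, fun e => h e.le⟩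

end Tower

end Pool.Agent.Lib.MP_c05f82_nt.GC
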