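import Pool.Agent.Lib.MP_c05f82_nt.GC.Lat1

/-!
Orders in a reduced tower and the sum over the invariant normal subgroups.
-/

open scoped commutatorElement

namespace Pool.Agent.Lib.MP_c05f82_nt.GC

theorem Lat2_card {A B : Type} [Group A] [AddCommGroup B] (K L : Subgroup A) (hL : L ≤ K)
    (φ : A → B) (hmul : ∀ x ∈ K, ∀ y ∈ K, φ (x * y) = φ x + φ y)
    (hker : ∀ x ∈ K, φ x = 0 ↔ x ∈ L) (hsurj : ∀ b, ∃ x ∈ K, φ x = b) :
    Nat.card K = Nat.card B * Nat.card L := by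
  let f : K →* Multiplicative B := MonoidHom.mk' (fun x => Multiplicative.ofAdd (φ x))
    fun x y => by rw [← ofAdd_add, ← hmul _ x.2 _ y.2]; rfl
  have h1 : Function.Surjective f := fun b => by
    obtain ⟨x, hx, h⟩ := hsurj b.toAdd
    exact ⟨⟨x, hx⟩, congrArg Multiplicative.ofAdd h⟩
  have h2 : f.ker = L.subgroupOf K := by
    ext x
    rw [MonoidHom.mem_ker, Subgroup.mem_subgroupOf, ← hker x x.2]
    rfl
  rw [Subgroup.card_eq_card_quotient_mul_card_subgroup f.ker,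
    Nat.card_congr (QuotientGroup.quotientKerEquivOfSurjective f h1).toEquiv, h2,
    Nat.card_congr (Subgroup.subgroupOfEquivOfLe hL).toEquiv]
  rfl

namespace Tower

variable {A : Type} [Group A] {N : ℕ} {T : Tower A N}

theorem Lat2_VH {j : ℕ} (hj : j < N) : Nat.card (T.V j) = 9 * Nat.card (T.H j) := by
  rw [Lat2_card (T.V j) (T.H j) (T.HV j hj) (T.v j) (T.v_mul j hj) (T.v_zero j hj) (exists_v hj)]
  simp

theorem Lat2_HV {j : ℕ} (hj : j < N) : Nat.card (T.H j) = 3 * Nat.card (T.V (j + 1)) := by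
  rw [Lat2_card (T.H j) (T.V (j + 1)) (T.VH j hj) (T.h j) (T.h_mul j hj) (T.h_zero j hj)
    (exists_h hj)]
  simp

theorem Red.card_V (R : T.Red) {j : ℕ} (hj : j ≤ N) : Nat.card (T.V j) = 27 ^ (N - j) := by
  obtain ⟨k, hk⟩ := Nat.exists_eq_add_of_le hj
  induction k generalizing j with
  | zero =>
    obtain rfl : j = N := by omega
    rw [R.bot]; simp
  | succ k ih =>
    rw [Lat2_VH (by omega), Lat2_HV (by omega), ih (by omega) (by omega),
      show N - j = N - (j + 1) + 1 by omega, pow_succ]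
    ring

theorem Red.card (R : T.Red) : Nat.card A = 27 ^ N := by
  have := R.card_V (Nat.zero_le N)
  rwa [R.top, Subgroup.card_top, Nat.sub_zero] at this

theorem Red.finite (R : T.Red) : Finite A :=
  Nat.finite_of_card_ne_zero (by rw [R.card]; positivity)

theorem Red.card_H (R : T.Red) {j : ℕ} (hj : j < N) :
    Nat.card (T.H j) = 3 * 27 ^ (N - 1 - j) := by
  rw [Lat2_HV hj, R.card_V hj, show N - (j + 1) = N - 1 - j by omega]

theorem Lat2_H_le_Vs {j : ℕ} (hj : j < N) (ε : ZMod 3) : T.H j ≤ T.Vs j hj ε := fun x hx =>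
  ⟨T.HV j hj hx, by rw [(T.v_zero j hj x (T.HV j hj hx)).2 hx]; simp⟩

theorem Red.card_Vs (R : T.Red) {j : ℕ} (hj : j < N) (ε : ZMod 3) :
    Nat.card (T.Vs j hj ε) = 9 * 27 ^ (N - 1 - j) := by
  rw [Lat2_card (T.Vs j hj ε) (T.H j) (Lat2_H_le_Vs hj ε) (fun x => (T.v j x).1)
    (fun x hx y hy => by simp only [T.v_mul j hj x hx.1 y hy.1, Prod.fst_add])
    (fun x hx => by
      rw [← T.v_zero j hj x hx.1, Prod.ext_iff, hx.2]
      constructor
      · intro h; exact ⟨h, by rw [h]; simp⟩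
      · exact fun h => h.1)
    (fun b => by
      obtain ⟨x, hx, h⟩ := exists_v (T := T) hj (b, ε * b)
      exact ⟨x, ⟨hx, by rw [h]⟩, by simp only [h]⟩), R.card_H hj]
  simp
  ring

theorem Lat2_mem {M : Subgroup A} {j : ℕ} (hj : j < N) (h1 : T.H j ≤ M) (h2 : M ≤ T.V j) {x y : A}
    (hx : x ∈ M) (hy : y ∈ T.V j) (h : T.v j y = T.v j x) : y ∈ M := by
  have h3 : y * x⁻¹ ∈ T.H j := (T.v_zero j hj _ (mul_mem hy (inv_mem (h2 hx)))).1 (by
    rw [T.v_mul j hj y hy _ (inv_mem (h2 hx)), T.v_inv hj (h2 hx), h, add_neg_cancel])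
  simpa using mul_mem (h1 h3) hx

theorem Lat2_lines (S : ZMod 3 × ZMod 3 → Prop) (h0 : S 0) (hadd : ∀ a b, S a → S b → S (a + b))
    (hsw : ∀ a, S a → S a.swap) (hne : ∃ a, a ≠ 0 ∧ S a) :
    (∀ a, S a ↔ a.2 = 1 * a.1) ∨ (∀ a, S a ↔ a.2 = -1 * a.1) ∨ ∀ a, S a := by
  have hspan : ∀ a b, S a → S b → ∀ i k : Fin 3, S (i.val • a + k.val • b) := by
    have h1 : ∀ a, S a → ∀ n : ℕ, S (n • a) := by
      intro a ha n
      induction n with
      | zero => simpa using h0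
      | succ n ih => rw [succ_nsmul]; exact hadd _ _ ih ha
    exact fun a b ha hb i k => hadd _ _ (h1 a ha _) (h1 b hb _)
  have hall : ∀ a b, S a → S b → a.1 * b.2 ≠ a.2 * b.1 → ∀ c, S c := by
    intro a b ha hb hab c
    have key : ∀ a b c : ZMod 3 × ZMod 3, a.1 * b.2 ≠ a.2 * b.1 →
        ∃ i k : Fin 3, c = i.val • a + k.val • b := by decide
    obtain ⟨i, k, rfl⟩ := key a b c hab
    exact hspan a b ha hb i k
  obtain ⟨a, ha0, ha⟩ := hne
  by_cases h : ∀ c, S c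
  · exact Or.inr (Or.inr h)
  have hpar : ∀ b, S b → a.1 * b.2 = a.2 * b.1 := fun b hb => by
    by_contra h1
    exact h (hall a b ha hb h1)
  have hline : ∀ ε : ZMod 3, a.2 = ε * a.1 → ∀ c, S c ↔ c.2 = ε * c.1 := by
    intro ε hε c
    constructor
    · intro hc
      have key : ∀ (ε : ZMod 3) (a c : ZMod 3 × ZMod 3), a ≠ 0 → a.2 = ε * a.1 →
        a.1 * c.2 = a.2 * c.1 → c.2 = ε * c.1 := by decide
      exact key ε a c ha0 hε (hpar c hc)
    · intro hc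
      have key : ∀ (ε : ZMod 3) (a c : ZMod 3 × ZMod 3), a ≠ 0 → a.2 = ε * a.1 →
        c.2 = ε * c.1 → ∃ i k : Fin 3, c = i.val • a + k.val • a := by decide
      obtain ⟨i, k, rfl⟩ := key ε a c ha0 hε hc
      exact hspan a a ha ha i k
  have key : ∀ a : ZMod 3 × ZMod 3, a ≠ 0 → a.1 * a.swap.2 = a.2 * a.swap.1 →
      a.2 = 1 * a.1 ∨ a.2 = -1 * a.1 := by decide
  rcases key a ha0 (hpar _ (hsw a ha)) with h1 | h1
  · exact Or.inl (hline 1 h1)
  · exact Or.inr (Or.inl (hline (-1) h1))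

theorem Red.inv_iff (R : T.Red) (M : Subgroup A) : T.Inv M ↔ M = ⊥ ∨ ∃ j, ∃ hj : j < N,
    M = T.H j ∨ M = T.Vs j hj 1 ∨ M = T.Vs j hj (-1) ∨ M = T.V j := by
  constructor
  · rintro ⟨hM, hb, -⟩
    rcases R.tri hM with h | ⟨j, hj, h | ⟨h1, h2, h3⟩⟩
    · exact Or.inl h
    · exact Or.inr ⟨j, hj, Or.inl h⟩
    refine Or.inr ⟨j, hj, Or.inr ?_⟩
    have key := Lat2_lines (fun w => ∃ x ∈ M, T.v j x = w) ⟨1, one_mem _, T.v_one hj⟩
      (by
        rintro _ _ ⟨x, hx, rfl⟩ ⟨y, hy, rfl⟩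
        exact ⟨x * y, mul_mem hx hy, T.v_mul j hj x (h2 hx) y (h2 hy)⟩)
      (by
        rintro _ ⟨x, hx, rfl⟩
        exact ⟨T.be x, hb x hx, v_be hj (h2 hx)⟩)
      (by
        obtain ⟨x, hx, hx'⟩ := SetLike.not_le_iff_exists.1 fun h => h3 (le_antisymm h h1)
        exact ⟨_, fun h => hx' ((T.v_zero j hj x (h2 hx)).1 h), x, hx, rfl⟩)
    have hl : ∀ ε : ZMod 3, (∀ a : ZMod 3 × ZMod 3, (∃ x ∈ M, T.v j x = a) ↔ a.2 = ε * a.1) →
        M = T.Vs j hj ε := by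
      intro ε h
      refine le_antisymm (fun x hx => ⟨h2 hx, (h _).1 ⟨x, hx, rfl⟩⟩) fun y hy => ?_
      obtain ⟨x, hx, h4⟩ := (h _).2 hy.2
      exact Lat2_mem hj h1 h2 hx hy.1 h4.symm
    rcases key with h | h | h
    · exact Or.inl (hl 1 h)
    · exact Or.inr (Or.inl (hl (-1) h))
    · refine Or.inr (Or.inr (le_antisymm h2 fun y hy => ?_))
      obtain ⟨x, hx, h4⟩ := h (T.v j y)
      exact Lat2_mem hj h1 h2 hx hy h4.symm
  · have hs : ∀ j (hj : j < N) (ε : ZMod 3), ε * ε = 1 → T.Inv (T.Vs j hj ε) := by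
      refine fun j hj ε hε => ⟨R.Vs_normal hj ε, fun x hx => ⟨T.beV j hj.le x hx.1, ?_⟩,
        fun x hx => ⟨T.deV j hj.le x hx.1, ?_⟩⟩
      · rw [v_be hj hx.1, Prod.snd_swap, Prod.fst_swap, hx.2, ← mul_assoc, hε, one_mul]
      · rw [v_de hj hx.1, Prod.snd_neg, Prod.fst_neg, hx.2, mul_neg]
    rintro (rfl | ⟨j, hj, rfl | rfl | rfl | rfl⟩)
    · exact ⟨inferInstance, fun x hx => by simpa using hx, fun x hx => by simpa using hx⟩
    · exact ⟨R.H_normal hj, T.beH j hj, T.deH j hj⟩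
    · exact hs j hj 1 (by simp)
    · exact hs j hj (-1) (by simp)
    · exact ⟨R.V_normal hj.le, T.beV j hj.le, T.deV j hj.le⟩

theorem Lat2_geom (n : ℕ) : 13 * (1 + ∑ j ∈ Finset.range n, 48 * 27 ^ j) + 11 = 24 * 27 ^ n := by
  induction n with
  | zero => simp
  | succ n ih => rw [Finset.sum_range_succ, pow_succ]; omega

theorem Lat2_pow (a b i k : ℕ) (ha : 1 ≤ a) (ha' : a ≤ 3) (hb : 1 ≤ b) (hb' : b ≤ 3)
    (h : 3 ^ a * 27 ^ i = 3 ^ b * 27 ^ k) : a = b ∧ i = k := by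
  rw [show 27 = 3 ^ 3 by norm_num, ← pow_mul, ← pow_mul, ← pow_add, ← pow_add] at h
  have := Nat.pow_right_injective (by norm_num : 2 ≤ 3) h
  omega

theorem Red.wt_inv (R : T.Red) : 13 * wt T.Inv + 11 = 24 * 27 ^ N := by
  classical
  let g : Fin N × Fin 4 → Subgroup A := fun x =>
    ![T.H x.1, T.Vs x.1 x.1.2 1, T.Vs x.1 x.1.2 (-1), T.V x.1] x.2
  let a : Fin 4 → ℕ := ![1, 2, 2, 3]
  have hc : ∀ x, Nat.card (g x) = 3 ^ a x.2 * 27 ^ (N - 1 - x.1) := by
    rintro ⟨j, k⟩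
    fin_cases k
    · exact R.card_H j.2
    · exact R.card_Vs j.2 1
    · exact R.card_Vs j.2 (-1)
    · have := j.2
      change Nat.card (T.V j) = 3 ^ 3 * 27 ^ (N - 1 - j)
      rw [R.card_V j.2.le, show N - j = N - 1 - j + 1 by omega, pow_succ]
      ring
  have ha : ∀ k, 1 ≤ a k ∧ a k ≤ 3 := by decide
  have hne : ∀ j (hj : j < N), T.Vs j hj 1 ≠ T.Vs j hj (-1) := by
    intro j hj h
    obtain ⟨x, hx, h1⟩ := exists_v (T := T) hj (1, 1)
    have h2 : x ∈ T.Vs j hj 1 := ⟨hx, by rw [h1]; simp⟩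
    rw [h] at h2
    have h3 := h2.2
    rw [h1] at h3
    exact absurd h3 (by decide)
  have hinj : Function.Injective g := by
    rintro ⟨j, k⟩ ⟨j', k'⟩ h
    have h1 := hc (j, k)
    rw [h, hc] at h1
    obtain ⟨h2, h3⟩ := Lat2_pow _ _ _ _ (ha _).1 (ha _).2 (ha _).1 (ha _).2 h1
    obtain rfl : j = j' := by
      have := j.2
      have := j'.2
      exact Fin.ext (by dsimp only at h3; omega)
    have key : ∀ k k' : Fin 4, a k' = a k → k = k' ∨ (k = 1 ∧ k' = 2) ∨ (k = 2 ∧ k' = 1) := by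
      decide
    rcases key k k' h2 with rfl | ⟨rfl, rfl⟩ | ⟨rfl, rfl⟩
    · rfl
    · exact absurd h (hne j j.2)
    · exact absurd h.symm (hne j j.2)
  have hbot : (⊥ : Subgroup A) ∉ Finset.univ.image g := by
    intro h
    obtain ⟨x, -, hx⟩ := Finset.mem_image.1 h
    have h1 := hc x
    rw [hx, Subgroup.card_bot] at h1
    have h2 : 3 ∣ 3 ^ a x.2 * 27 ^ (N - 1 - x.1) :=
      (dvd_pow_self 3 (by have := (ha x.2).1; omega)).mul_right _
    rw [← h1] at h2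
    omega
  rw [wt_eq_sum (insert ⊥ (Finset.univ.image g)) (fun M => by
      rw [R.inv_iff, Finset.mem_insert, Finset.mem_image]
      refine or_congr_right ⟨?_, ?_⟩
      · rintro ⟨⟨j, k⟩, -, rfl⟩
        refine ⟨j, j.2, ?_⟩
        fin_cases k
        · exact Or.inl rfl
        · exact Or.inr (Or.inl rfl)
        · exact Or.inr (Or.inr (Or.inl rfl))
        · exact Or.inr (Or.inr (Or.inr rfl))
      · rintro ⟨j, hj, rfl | rfl | rfl | rfl⟩
        · exact ⟨(⟨j, hj⟩, 0), Finset.mem_univ _, rfl⟩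
        · exact ⟨(⟨j, hj⟩, 1), Finset.mem_univ _, rfl⟩
        · exact ⟨(⟨j, hj⟩, 2), Finset.mem_univ _, rfl⟩
        · exact ⟨(⟨j, hj⟩, 3), Finset.mem_univ _, rfl⟩),
    Finset.sum_insert hbot, Finset.sum_image hinj.injOn, Subgroup.card_bot,
    Finset.sum_congr rfl fun x _ => hc x, Fintype.sum_prod_type, ← Lat2_geom N,
    ← Finset.sum_range_reflect, Finset.sum_range]
  congr 3
  refine Finset.sum_congr rfl fun j _ => ?_
  simp only [Fin.sum_univ_four, a, Matrix.cons_val_zero, Matrix.cons_val_one, Matrix.cons_val]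
  ring

end Tower

end Pool.Agent.Lib.MP_c05f82_nt.GC
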