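import Pool.Agent.Lib.MP_c05f82_nt.GC.Lat1

/-!
The top and the bottom of a reduced tower.
-/

open scoped commutatorElement

namespace Pool.Agent.Lib.MP_c05f82_nt.GC

namespace Tower

variable {A : Type} [Group A] {N : ℕ} {T : Tower A N}

lemma lat3_div {j : ℕ} (hj : j < N) {x y : A} (hx : x ∈ T.V j) (hy : y ∈ T.V j) :
    T.v j (x * y⁻¹) = T.v j x - T.v j y := by
  rw [T.v_mul j hj x hx _ (inv_mem hy), T.v_inv hj hy, sub_eq_add_neg]

lemma lat3_mem {M : Subgroup A} {j : ℕ} (hj : j < N) (hH : T.H j ≤ M) {x y : A} (hx : x ∈ T.V j)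
    (hy : y ∈ T.V j) (hM : y ∈ M) (e : T.v j y = T.v j x) : x ∈ M := by
  have h1 : x * y⁻¹ ∈ T.H j := (T.v_zero j hj _ (mul_mem hx (inv_mem hy))).1 (by
    rw [lat3_div hj hx hy, e, sub_self])
  simpa using mul_mem (hH h1) hM

lemma lat3_de {j : ℕ} (hj : j < N) {x : A} (hx : x ∈ T.V j) :
    T.v j (T.de x * x⁻¹) = T.v j x := by
  rw [lat3_div hj (T.deV j hj.le x hx) hx, v_de hj hx]
  generalize T.v j x = w
  revert w
  decide

lemma Red.lat3_all (R : T.Red) (x : A) : x ∈ T.V 0 := by rw [R.top]; trivial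

lemma Red.lat3_H (R : T.Red) {M : Subgroup A} (hM : M.Normal) {y : A} (hy : y ∈ M)
    (h : T.v 0 y ≠ 0) : T.H 0 ≤ M :=
  R.H_le' hM R.pos hy (R.lat3_all y) fun h' => h ((T.v_zero 0 R.pos y (R.lat3_all y)).2 h')

lemma Red.lat3_max (R : T.Red) {M : Subgroup A} {ε : ZMod 3} (h : T.Vs 0 R.pos ε ≤ M) :
    M = T.Vs 0 R.pos ε ∨ M = ⊤ := by
  by_cases hle : M ≤ T.Vs 0 R.pos ε
  · exact Or.inl (le_antisymm hle h)
  obtain ⟨m, hm, hn⟩ := SetLike.not_le_iff_exists.1 hle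
  have hn' : ¬ (T.v 0 m).2 = ε * (T.v 0 m).1 := fun e => hn ⟨R.lat3_all m, e⟩
  refine Or.inr (eq_top_iff.2 fun x _ => ?_)
  have key : ∀ (ε : ZMod 3) (w u : ZMod 3 × ZMod 3), ¬ u.2 = ε * u.1 →
      w.2 = ε * w.1 ∨ (w - u).2 = ε * (w - u).1 ∨ (w + u).2 = ε * (w + u).1 := by decide
  rcases key ε (T.v 0 x) (T.v 0 m) hn' with e | e | e
  · exact h ⟨R.lat3_all x, e⟩
  · rw [← lat3_div R.pos (R.lat3_all x) (R.lat3_all m)] at e
    simpa using mul_mem (h ⟨R.lat3_all _, e⟩) hm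
  · rw [← T.v_mul 0 R.pos x (R.lat3_all x) m (R.lat3_all m)] at e
    simpa using mul_mem (h ⟨R.lat3_all _, e⟩) (inv_mem hm)

lemma Red.lat3_top (R : T.Red) (M : Subgroup A) {ε : ZMod 3} {σ : A → A}
    {ψ : ZMod 3 × ZMod 3 → ZMod 3 × ZMod 3} (hσ : ∀ x, T.v 0 (σ x) = ψ (T.v 0 x))
    (h1 : ψ (1, 0) ≠ 0) (h2 : ∀ w, (ψ w).2 = ε * (ψ w).1)
    (h3 : ∀ u : ZMod 3 × ZMod 3, u.2 = ε * u.1 → ∃ w, ψ w = u) :
    (M.Normal ∧ ∀ x, σ x ∈ M) ↔ M = T.Vs 0 R.pos ε ∨ M = ⊤ := by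
  constructor
  · rintro ⟨hM, h⟩
    have hH : T.H 0 ≤ M := R.lat3_H hM (h (T.e 0)) (by rw [hσ, T.v_e 0 R.pos]; exact h1)
    refine R.lat3_max fun z hz => ?_
    obtain ⟨w, hw⟩ := h3 _ hz.2
    obtain ⟨x, -, hx⟩ := exists_v (T := T) R.pos w
    exact lat3_mem R.pos hH hz.1 (R.lat3_all _) (h x) (by rw [hσ, hx, hw])
  · rintro (rfl | rfl)
    · exact ⟨R.Vs_normal R.pos ε, fun x => ⟨R.lat3_all _, by rw [hσ]; exact h2 _⟩⟩
    · exact ⟨inferInstance, fun _ => trivial⟩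

theorem Red.top_de (R : T.Red) {M : Subgroup A} (hM : M.Normal)
    (h : ∀ x, T.de x * x⁻¹ ∈ M) : M = ⊤ := by
  have hH : T.H 0 ≤ M := R.lat3_H hM (h (T.e 0)) (by
    rw [lat3_de R.pos (R.lat3_all _), T.v_e 0 R.pos]; decide)
  exact eq_top_iff.2 fun x _ =>
    lat3_mem R.pos hH (R.lat3_all x) (R.lat3_all _) (h x) (lat3_de R.pos (R.lat3_all x))

theorem Red.top_be (R : T.Red) (M : Subgroup A) :
    (M.Normal ∧ ∀ x, T.be x * x⁻¹ ∈ M) ↔ M = T.Vs 0 R.pos (-1) ∨ M = ⊤ :=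
  R.lat3_top M (σ := fun x => T.be x * x⁻¹) (ψ := fun w => w.swap - w)
    (fun x => by rw [lat3_div R.pos (R.lat3_all _) (R.lat3_all x), v_be R.pos (R.lat3_all x)])
    (by decide) (by decide) (by decide)

theorem Red.top_bd (R : T.Red) (M : Subgroup A) :
    (M.Normal ∧ ∀ x, T.be (T.de x) * x⁻¹ ∈ M) ↔ M = T.Vs 0 R.pos 1 ∨ M = ⊤ :=
  R.lat3_top M (σ := fun x => T.be (T.de x) * x⁻¹) (ψ := fun w => (-w).swap - w)
    (fun x => by
      rw [lat3_div R.pos (R.lat3_all _) (R.lat3_all x), v_be R.pos (R.lat3_all _),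
        v_de R.pos (R.lat3_all x)])
    (by decide) (by decide) (by decide)

theorem Red.central (R : T.Red) {M M₀ : Subgroup A} (hM : M.Normal) (h₀ : M₀.Normal)
    (hle : M₀ ≤ M) (hne : M₀ ≠ M) (hb : ∀ x ∈ M, T.be x * x⁻¹ ∈ M₀)
    (hd : ∀ x ∈ M, T.de x * x⁻¹ ∈ M₀) : M = T.H (N - 1) := by
  rcases R.tri hM with rfl | ⟨j, hj, rfl | ⟨h1, h2, h3⟩⟩
  · exact absurd (le_bot_iff.1 hle) hne
  · by_cases hl : j + 1 = N
    · rw [show N - 1 = j by omega]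
    have ht := T.t_mem j hj
    have hy := hb _ ht
    rw [T.be_t j (by omega)] at hy
    have hH := mul_mem (inv_mem ht) (inv_mem ht)
    refine absurd (le_antisymm hle (R.H_le h₀ hj hy hH fun hV => ?_)) hne
    have := (T.h_zero j hj _ hH).2 hV
    rw [T.h_mul j hj _ (inv_mem ht) _ (inv_mem ht), T.h_inv hj ht, T.h_t j hj] at this
    exact absurd this (by decide)
  · obtain ⟨x, hx, hn⟩ := SetLike.not_le_iff_exists.1 fun h : M ≤ T.H j => h3 (le_antisymm h h1)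
    have hV : ∀ y ∈ M, T.de y * y⁻¹ ∈ T.V j := fun y hy =>
      mul_mem (T.deV j hj.le y (h2 hy)) (inv_mem (h2 hy))
    have hH : T.H j ≤ M₀ := R.H_le' h₀ hj (hd x hx) (hV x hx) fun h => hn
      ((T.v_zero j hj x (h2 hx)).1 (by
        rw [← lat3_de hj (h2 hx)]; exact (T.v_zero j hj _ (hV x hx)).2 h))
    exact absurd (le_antisymm hle fun y hy =>
      lat3_mem hj hH (h2 hy) (hV y hy) (hd y hy) (lat3_de hj (h2 hy))) hne

lemma Red.lat3_lt (R : T.Red) : N - 1 < N := by have := R.pos; omega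

lemma Red.lat3_bot (R : T.Red) : T.V (N - 1 + 1) = ⊥ := by
  rw [show N - 1 + 1 = N by have := R.pos; omega, R.bot]

lemma Red.lat3_eq (R : T.Red) {x y : A} (hx : x ∈ T.H (N - 1)) (hy : y ∈ T.H (N - 1))
    (e : T.h (N - 1) x = T.h (N - 1) y) : x = y := by
  have h1 := (T.h_zero _ R.lat3_lt _ (mul_mem hx (inv_mem hy))).1 (by
    rw [T.h_mul _ R.lat3_lt _ hx _ (inv_mem hy), T.h_inv R.lat3_lt hy, e, add_neg_cancel])
  rw [R.lat3_bot, Subgroup.mem_bot] at h1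
  exact mul_inv_eq_one.1 h1

theorem Red.H_last (R : T.Red) : T.H (N - 1) = Subgroup.zpowers (T.t (N - 1)) := by
  have ht := T.t_mem _ R.lat3_lt
  refine le_antisymm (fun x hx => ?_) ((Subgroup.zpowers_le).2 ht)
  have key : ∀ k : ZMod 3, k = 0 ∨ k = 1 ∨ k = -1 := by decide
  rcases key (T.h (N - 1) x) with e | e | e
  · rw [R.lat3_eq hx (one_mem _) (by rw [e, T.h_one R.lat3_lt])]
    exact one_mem _
  · rw [R.lat3_eq hx ht (by rw [e, T.h_t _ R.lat3_lt])]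
    exact Subgroup.mem_zpowers _
  · rw [R.lat3_eq hx (inv_mem ht) (by rw [e, T.h_inv R.lat3_lt ht, T.h_t _ R.lat3_lt])]
    exact inv_mem (Subgroup.mem_zpowers _)

theorem Red.orderOf_last (R : T.Red) : orderOf (T.t (N - 1)) = 3 := by
  have ht := T.t_mem _ R.lat3_lt
  have : Fact (Nat.Prime 3) := ⟨Nat.prime_three⟩
  refine orderOf_eq_prime ?_ fun h => ?_
  · rw [pow_three]
    refine R.lat3_eq (mul_mem ht (mul_mem ht ht)) (one_mem _) ?_
    rw [T.h_mul _ R.lat3_lt _ ht _ (mul_mem ht ht), T.h_mul _ R.lat3_lt _ ht _ ht,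
      T.h_t _ R.lat3_lt, T.h_one R.lat3_lt]
    decide
  · have := T.h_t _ R.lat3_lt
    rw [h, T.h_one R.lat3_lt] at this
    exact absurd this (by decide)

theorem Red.commute_last (R : T.Red) (g : A) : Commute (T.t (N - 1)) g := by
  have := T.cH _ R.lat3_lt _ (T.t_mem _ R.lat3_lt) g (R.lat3_all g)
  rw [R.lat3_bot, Subgroup.mem_bot] at this
  exact commutatorElement_eq_one_iff_commute.1 this

end Tower

end Pool.Agent.Lib.MP_c05f82_nt.GC
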