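import Pool.Agent.Lib.MP_c05f82_nt.GC.Defs

/-!
Passage from a tower to the quotient of its top by its bottom.
-/

open scoped commutatorElement

namespace Pool.Agent.Lib.MP_c05f82_nt.GC

/-- a quotient `A` of `U` by `W`, with the map `φ` and a section `s` -/
structure QuotD {X A : Type} [Group X] [Group A] (U W : Subgroup X) (φ : X → A) (s : A → X) :
    Prop where
  le : W ≤ U
  mul : ∀ x ∈ U, ∀ y ∈ U, φ (x * y) = φ x * φ y
  mem : ∀ q, s q ∈ U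
  sec : ∀ q, φ (s q) = q
  ker : ∀ x ∈ U, φ x = 1 ↔ x ∈ W

theorem quot_exists {X : Type} [Group X] {U W : Subgroup X} (hW : W ≤ U)
    (hn : ∀ x ∈ W, ∀ g ∈ U, ⁅x, g⁆ ∈ W) :
    ∃ (A : Type) (_ : Group A) (φ : X → A) (s : A → X), QuotD U W φ s := by
  classical
  have : (W.subgroupOf U).Normal := ⟨fun x hx g => by
    have := mul_mem (inv_mem (hn x hx g g.2)) hx
    rw [Subgroup.mem_subgroupOf]
    convert this using 1
    simp [commutatorElement_def, mul_assoc]⟩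
  refine ⟨U ⧸ W.subgroupOf U, inferInstance,
    fun x => if h : x ∈ U then QuotientGroup.mk ⟨x, h⟩ else 1, fun q => (q.out : U), hW,
    fun x hx y hy => ?_, fun q => q.out.2, fun q => ?_, fun x hx => ?_⟩
  · rw [dif_pos hx, dif_pos hy, dif_pos (mul_mem hx hy)]
    rfl
  · rw [dif_pos q.out.2]
    exact q.out_eq
  · rw [dif_pos hx, QuotientGroup.eq_one_iff, Subgroup.mem_subgroupOf]

namespace QuotD

variable {X A : Type} [Group X] [Group A] {U W : Subgroup X} {φ : X → A} {s : A → X}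
  (Q : QuotD U W φ s)

include Q

theorem one : φ 1 = 1 := (Q.ker 1 (one_mem _)).2 (one_mem _)

theorem inv {x : X} (hx : x ∈ U) : φ x⁻¹ = (φ x)⁻¹ :=
  eq_inv_of_mul_eq_one_left (by rw [← Q.mul _ (inv_mem hx) _ hx, inv_mul_cancel, Q.one])

theorem comm {x y : X} (hx : x ∈ U) (hy : y ∈ U) : ⁅φ x, φ y⁆ = φ ⁅x, y⁆ := by
  rw [commutatorElement_def, commutatorElement_def,
    Q.mul _ (mul_mem (mul_mem hx hy) (inv_mem hx)) _ (inv_mem hy),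
    Q.mul _ (mul_mem hx hy) _ (inv_mem hx), Q.mul _ hx _ hy, Q.inv hx, Q.inv hy]

theorem out {x : X} (hx : x ∈ U) : ∃ k ∈ W, s (φ x) = x * k :=
  ⟨x⁻¹ * s (φ x), (Q.ker _ (mul_mem (inv_mem hx) (Q.mem _))).1 (by
    rw [Q.mul _ (inv_mem hx) _ (Q.mem _), Q.inv hx, Q.sec, inv_mul_cancel]), by simp⟩

theorem surj (q : A) : ∃ x ∈ U, φ x = q := ⟨s q, Q.mem q, Q.sec q⟩

/-- the image of a subgroup -/
def im (S : Subgroup X) : Subgroup A where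
  carrier := {q | ∃ x, x ∈ S ∧ x ∈ U ∧ φ x = q}
  mul_mem' := by
    rintro _ _ ⟨x, h1, h2, rfl⟩ ⟨y, k1, k2, rfl⟩
    exact ⟨x * y, mul_mem h1 k1, mul_mem h2 k2, Q.mul _ h2 _ k2⟩
  one_mem' := ⟨1, one_mem _, one_mem _, Q.one⟩
  inv_mem' := by
    rintro _ ⟨x, h1, h2, rfl⟩
    exact ⟨x⁻¹, inv_mem h1, inv_mem h2, Q.inv h2⟩

theorem mem_im {S : Subgroup X} (hS : W ≤ S) {x : X} (hx : x ∈ U) : φ x ∈ Q.im S ↔ x ∈ S := by
  refine ⟨fun ⟨y, h1, h2, e⟩ => ?_, fun h => ⟨x, h, hx, rfl⟩⟩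
  have := mul_mem h1 (hS ((Q.ker _ (mul_mem (inv_mem h2) hx)).1 (by
    rw [Q.mul _ (inv_mem h2) _ hx, Q.inv h2, e, inv_mul_cancel])))
  simpa using this

theorem im_mono {S S' : Subgroup X} (h : S ≤ S') : Q.im S ≤ Q.im S' :=
  fun _ ⟨x, h1, h2, e⟩ => ⟨x, h h1, h2, e⟩

theorem aut (σ : MulAut X) (h2 : ∀ x, σ (σ x) = x) (hU : ∀ x ∈ U, σ x ∈ U)
    (hW : ∀ x ∈ W, σ x ∈ W) : ∃ τ : MulAut A, ∀ x ∈ U, τ (φ x) = φ (σ x) := by
  have e : ∀ x ∈ U, φ (σ (s (φ x))) = φ (σ x) := fun x hx => by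
    obtain ⟨k, hk, e⟩ := Q.out hx
    rw [e, map_mul, Q.mul _ (hU x hx) _ (hU k (Q.le hk)), (Q.ker _ (hU k (Q.le hk))).2 (hW k hk),
      mul_one]
  have i : ∀ q, φ (σ (s (φ (σ (s q))))) = q := fun q => by
    rw [e _ (hU _ (Q.mem q)), h2, Q.sec]
  refine ⟨⟨⟨fun q => φ (σ (s q)), fun q => φ (σ (s q)), i, i⟩, fun p q => ?_⟩, e⟩
  obtain ⟨x, hx, rfl⟩ := Q.surj p
  obtain ⟨y, hy, rfl⟩ := Q.surj q
  change φ (σ (s (φ x * φ y))) = φ (σ (s (φ x))) * φ (σ (s (φ y)))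
  rw [← Q.mul x hx y hy, e _ (mul_mem hx hy), e x hx, e y hy, map_mul,
    Q.mul _ (hU x hx) _ (hU y hy)]

end QuotD

theorem Tower.quot_anti {X : Type} [Group X] {N : ℕ} (T : Tower X N) {i j : ℕ} (h : i ≤ j)
    (hj : j ≤ N) : T.V j ≤ T.V i := by
  induction h with
  | refl => exact le_rfl
  | step _ ih => exact ((T.VH _ hj).trans (T.HV _ hj)).trans (ih (Nat.le_of_succ_le hj))

theorem Tower.exists_red {X : Type} [Group X] {N : ℕ} (T : Tower X N) (hN : 0 < N) :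
    ∃ (A : Type) (_ : Group A) (T' : Tower A N), T'.Red := by
  have V0 : ∀ {j}, j ≤ N → T.V j ≤ T.V 0 := fun hj => T.quot_anti (Nat.zero_le _) hj
  have H0 : ∀ {j}, j < N → T.H j ≤ T.V 0 := fun hj => (T.HV _ hj).trans (V0 hj.le)
  have NV : ∀ {j}, j ≤ N → T.V N ≤ T.V j := fun hj => T.quot_anti hj le_rfl
  have NH : ∀ {j}, j < N → T.V N ≤ T.H j := fun hj => (NV hj).trans (T.VH _ hj)
  obtain ⟨A, _, φ, s, Q⟩ := quot_exists (V0 le_rfl) T.cN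
  obtain ⟨be, hb⟩ := Q.aut T.be T.be2 (T.beV 0 hN.le) (T.beV N le_rfl)
  obtain ⟨de, hd⟩ := Q.aut T.de T.de2 (T.deV 0 hN.le) (T.deV N le_rfl)
  have hv : ∀ j < N, ∀ x ∈ T.V j, T.v j (s (φ x)) = T.v j x := fun j hj x hx => by
    obtain ⟨k, hk, e⟩ := Q.out (V0 hj.le hx)
    rw [e, T.v_mul j hj x hx k (NV hj.le hk), (T.v_zero j hj k (NV hj.le hk)).2 (NH hj hk),
      add_zero]
  have hh : ∀ j < N, ∀ x ∈ T.H j, T.h j (s (φ x)) = T.h j x := fun j hj x hx => by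
    obtain ⟨k, hk, e⟩ := Q.out (H0 hj hx)
    rw [e, T.h_mul j hj x hx k (NH hj hk), (T.h_zero j hj k (NH hj hk)).2 (NV hj hk), add_zero]
  have cm : ∀ {x y}, x ∈ T.V 0 → y ∈ T.V 0 → ⁅x, y⁆ ∈ T.V 0 := fun hx hy =>
    mul_mem (mul_mem (mul_mem hx hy) (inv_mem hx)) (inv_mem hy)
  have e0 : ∀ {j}, j < N → T.e j ∈ T.V 0 := fun hj => V0 hj.le (T.e_mem _ hj)
  have f0 : ∀ {j}, j < N → T.f j ∈ T.V 0 := fun hj => V0 hj.le (T.f_mem hj)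
  have t0 : ∀ {j}, j < N → T.t j ∈ T.V 0 := fun hj => H0 hj (T.t_mem _ hj)
  refine ⟨A, inferInstance,
    { V := fun j => Q.im (T.V j), H := fun j => Q.im (T.H j), be := be, de := de
      v := fun j q => T.v j (s q), h := fun j q => T.h j (s q)
      e := fun j => φ (T.e j), f := fun j => φ (T.f j), t := fun j => φ (T.t j)
      be2 := fun q => ?_, de2 := fun q => ?_, bd := fun q => ?_
      HV := fun j hj => Q.im_mono (T.HV j hj), VH := fun j hj => Q.im_mono (T.VH j hj)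
      beV := ?_, deV := ?_, beH := ?_, deH := ?_, cV := ?_, cH := ?_, cN := ?_
      v_mul := ?_, v_zero := ?_, h_mul := ?_, h_zero := ?_
      e_mem := fun j hj => ⟨_, T.e_mem j hj, e0 hj, rfl⟩
      t_mem := fun j hj => ⟨_, T.t_mem j hj, t0 hj, rfl⟩
      v_e := fun j hj => (hv j hj _ (T.e_mem j hj)).trans (T.v_e j hj)
      v_f := fun j hj => (hv j hj _ (T.f_mem hj)).trans (T.v_f j hj)
      h_t := fun j hj => (hh j hj _ (T.t_mem j hj)).trans (T.h_t j hj)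
      be_e := fun j hj => by rw [hb _ (e0 hj), T.be_e j hj]
      de_e := fun j hj => by rw [hd _ (e0 hj), T.de_e j hj, Q.inv (e0 hj)]
      be_t := fun j hj => by rw [hb _ (t0 (by omega)), T.be_t j hj, Q.inv (t0 (by omega))]
      be_z := fun j hj => by rw [hb _ (t0 (by omega)), T.be_z j hj]
      de_t := fun j hj => by rw [hd _ (t0 hj), T.de_t j hj]
      ee := fun j hj => ?_, ef := fun j hj => ?_, te := fun j hj => ?_ }, hN, ?_, ?_⟩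
  · obtain ⟨x, hx, rfl⟩ := Q.surj q
    rw [hb x hx, hb _ (T.beV 0 hN.le x hx), T.be2]
  · obtain ⟨x, hx, rfl⟩ := Q.surj q
    rw [hd x hx, hd _ (T.deV 0 hN.le x hx), T.de2]
  · obtain ⟨x, hx, rfl⟩ := Q.surj q
    rw [hd x hx, hb _ (T.deV 0 hN.le x hx), hb x hx, hd _ (T.beV 0 hN.le x hx), T.bd]
  · rintro j hj _ ⟨x, h1, h2, rfl⟩
    exact ⟨_, T.beV j hj x h1, T.beV 0 hN.le x h2, (hb x h2).symm⟩
  · rintro j hj _ ⟨x, h1, h2, rfl⟩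
    exact ⟨_, T.deV j hj x h1, T.deV 0 hN.le x h2, (hd x h2).symm⟩
  · rintro j hj _ ⟨x, h1, h2, rfl⟩
    exact ⟨_, T.beH j hj x h1, T.beV 0 hN.le x h2, (hb x h2).symm⟩
  · rintro j hj _ ⟨x, h1, h2, rfl⟩
    exact ⟨_, T.deH j hj x h1, T.deV 0 hN.le x h2, (hd x h2).symm⟩
  · rintro j hj _ ⟨x, h1, h2, rfl⟩ _ ⟨g, -, k, rfl⟩
    exact ⟨_, T.cV j hj x h1 g k, cm h2 k, (Q.comm h2 k).symm⟩
  · rintro j hj _ ⟨x, h1, h2, rfl⟩ _ ⟨g, -, k, rfl⟩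
    exact ⟨_, T.cH j hj x h1 g k, cm h2 k, (Q.comm h2 k).symm⟩
  · rintro _ ⟨x, h1, h2, rfl⟩ _ ⟨g, -, k, rfl⟩
    exact ⟨_, T.cN x h1 g k, cm h2 k, (Q.comm h2 k).symm⟩
  · rintro j hj _ ⟨x, h1, h2, rfl⟩ _ ⟨y, k1, k2, rfl⟩
    rw [← Q.mul x h2 y k2, hv j hj _ (mul_mem h1 k1), hv j hj x h1, hv j hj y k1,
      T.v_mul j hj x h1 y k1]
  · rintro j hj _ ⟨x, h1, h2, rfl⟩
    rw [hv j hj x h1, Q.mem_im (NH hj) h2, T.v_zero j hj x h1]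
  · rintro j hj _ ⟨x, h1, h2, rfl⟩ _ ⟨y, k1, k2, rfl⟩
    rw [← Q.mul x h2 y k2, hh j hj _ (mul_mem h1 k1), hh j hj x h1, hh j hj y k1,
      T.h_mul j hj x h1 y k1]
  · rintro j hj _ ⟨x, h1, h2, rfl⟩
    rw [hh j hj x h1, Q.mem_im (NV hj) h2, T.h_zero j hj x h1]
  · change φ _ * φ _ = φ _ * φ _
    rw [← Q.mul _ (e0 hj) _ (e0 hN), ← Q.mul _ (e0 hN) _ (e0 hj), (T.ee j hj).eq]
  · rw [Q.comm (e0 hj) (f0 hN), Q.mem_im (NV hj) (cm (e0 hj) (f0 hN))]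
    exact T.ef j hj
  · rw [Q.comm (t0 (by omega)) (e0 hN),
      hv _ hj _ (T.cH j (by omega) _ (T.t_mem j (by omega)) _ (e0 hN)), T.te j hj]
  · refine eq_top_iff.2 fun q _ => ?_
    obtain ⟨x, hx, rfl⟩ := Q.surj q
    exact ⟨x, hx, hx, rfl⟩
  · refine eq_bot_iff.2 ?_
    rintro _ ⟨x, h1, h2, rfl⟩
    exact (Q.ker x h2).2 h1

end Pool.Agent.Lib.MP_c05f82_nt.GC
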