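import Pool.Agent.Lib.MP_c05f82_nt.GC.Defs

/-!
The semidirect product of a tower with the Klein four group.
-/

open scoped commutatorElement

namespace Pool.Agent.Lib.MP_c05f82_nt.GC

namespace Tower

variable {A : Type} [Group A] {N : ℕ} (T : Tower A N)

lemma be_sq : T.be * T.be = 1 := by ext x; exact T.be2 x
lemma de_sq : T.de * T.de = 1 := by ext x; exact T.de2 x
lemma be_de_comm : Commute T.be T.de := by ext x; exact T.bd x

lemma pow_val_add {G : Type} [Group G] {a : G} (ha : a * a = 1) (i j : ZMod 2) :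
    a ^ (i + j).val = a ^ i.val * a ^ j.val := by
  have h2 : a ^ 2 = 1 := by rw [pow_two, ha]
  rw [← pow_add, ZMod.val_add, ← pow_eq_pow_mod _ h2]

/-- the action of the Klein four group -/
def act : V4 →* MulAut A := MonoidHom.mk' (fun s => T.be ^ s.toAdd.1.val * T.de ^ s.toAdd.2.val)
  fun s r => by
    rw [toAdd_mul, Prod.fst_add, Prod.snd_add, pow_val_add T.be_sq, pow_val_add T.de_sq]
    exact (T.be_de_comm.pow_pow _ _).mul_mul_mul_comm _ _

/-- the three involutions of the Klein four group -/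
def sb : V4 := Multiplicative.ofAdd (1, 0)
def sd : V4 := Multiplicative.ofAdd (0, 1)
def sbd : V4 := Multiplicative.ofAdd (1, 1)

lemma V4_cases : ∀ s : V4, s = 1 ∨ s = sb ∨ s = sd ∨ s = sbd := by decide

lemma act_sb : T.act sb = T.be := by
  show T.be ^ 1 * T.de ^ 0 = _
  simp
lemma act_sd : T.act sd = T.de := by
  show T.be ^ 0 * T.de ^ 1 = _
  simp
lemma act_sbd : T.act sbd = T.be * T.de := by
  show T.be ^ 1 * T.de ^ 1 = _
  simp

variable {T} in
lemma Inv.act {M : Subgroup A} (hM : T.Inv M) (s : V4) {x : A} (hx : x ∈ M) : T.act s x ∈ M := by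
  rcases V4_cases s with rfl | rfl | rfl | rfl
  · simpa using hx
  · rw [act_sb]; exact hM.2.1 x hx
  · rw [act_sd]; exact hM.2.2 x hx
  · rw [act_sbd]; exact hM.2.1 _ (hM.2.2 x hx)

/-- the semidirect product -/
abbrev B : Type := A ⋊[T.act] V4

/-- the product of an invariant subgroup and a subgroup of the Klein four group -/
def SD (M : Subgroup A) (hM : T.Inv M) (U : Subgroup V4) : Subgroup T.B where
  carrier := {b | b.left ∈ M ∧ b.right ∈ U}
  mul_mem' := fun ha hb => ⟨mul_mem ha.1 (hM.act _ hb.1), mul_mem ha.2 hb.2⟩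
  one_mem' := ⟨one_mem _, one_mem _⟩
  inv_mem' := fun ha => ⟨hM.act _ (inv_mem ha.1), inv_mem ha.2⟩

lemma mem_SD {M : Subgroup A} {hM : T.Inv M} {U : Subgroup V4} {b : T.B} :
    b ∈ T.SD M hM U ↔ b.left ∈ M ∧ b.right ∈ U := Iff.rfl

theorem card_B : Nat.card T.B = Nat.card A * 4 := by
  rw [SemidirectProduct.card]
  simp

theorem finite_B [Finite A] : Finite T.B :=
  Finite.of_equiv _ SemidirectProduct.equivProd.symm

theorem card_SD (M : Subgroup A) (hM : T.Inv M) (U : Subgroup V4) :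
    Nat.card (T.SD M hM U) = Nat.card M * Nat.card U := by
  rw [← Nat.card_prod]
  exact Nat.card_congr ⟨fun b => (⟨b.1.left, b.2.1⟩, ⟨b.1.right, b.2.2⟩),
    fun x => ⟨⟨x.1, x.2⟩, x.1.2, x.2.2⟩, fun _ => rfl, fun _ => rfl⟩

theorem SD_inj {M M' : Subgroup A} {hM : T.Inv M} {hM' : T.Inv M'} {U U' : Subgroup V4}
    (h : T.SD M hM U = T.SD M' hM' U') : M = M' ∧ U = U' := by
  have e : ∀ (a : A) (s : V4), a ∈ M ∧ s ∈ U ↔ a ∈ M' ∧ s ∈ U' := fun a s =>
    SetLike.ext_iff.1 h ⟨a, s⟩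
  exact ⟨Subgroup.ext fun a => by simpa [one_mem] using e a 1,
    Subgroup.ext fun s => by simpa [one_mem] using e 1 s⟩

lemma semi1_conj (g b : T.B) : (g * b * g⁻¹).right = b.right ∧
    (g * b * g⁻¹).left = g.left * T.act g.right b.left * T.act b.right g.left⁻¹ := by
  have e : g.right * b.right * g.right⁻¹ = b.right := by rw [mul_comm g.right, mul_inv_cancel_right]
  refine ⟨e, ?_⟩
  simp only [SemidirectProduct.mul_left, SemidirectProduct.mul_right, SemidirectProduct.inv_left]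
  rw [← MulAut.mul_apply, ← map_mul, e]

theorem SD_normal_iff (M : Subgroup A) (hM : T.Inv M) (U : Subgroup V4) :
    (T.SD M hM U).Normal ↔ ∀ s ∈ U, ∀ x, T.act s x * x⁻¹ ∈ M := by
  constructor
  · intro h s hs x
    have := (h.conj_mem ⟨1, s⟩ ⟨one_mem _, hs⟩ ⟨x⁻¹, 1⟩).1
    rw [(T.semi1_conj _ _).2] at this
    simpa [mul_assoc] using hM.1.conj_mem _ this x |> fun a => hM.1.mem_comm this
  · refine fun h => ⟨fun b hb g => ⟨?_, (T.semi1_conj g b).1 ▸ hb.2⟩⟩
    rw [(T.semi1_conj _ _).2]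
    have h1 := hM.1.conj_mem _ (hM.act g.right hb.1) g.left
    have h2 := hM.1.mem_comm (h _ hb.2 g.left⁻¹)
    simpa [mul_assoc] using mul_mem h1 h2

lemma semi1_sq (s : V4) : s * s = 1 := by
  revert s
  decide

theorem exists_SD (hA : Odd (Nat.card A)) (P : Subgroup T.B) (hP : P.Normal) :
    ∃ M hM U, P = T.SD M hM U := by
  have m : ∀ a : A, a ∈ P.comap SemidirectProduct.inl ↔ (⟨a, 1⟩ : T.B) ∈ P := fun _ => Iff.rfl
  have i : ∀ s : V4, ∀ a ∈ P.comap SemidirectProduct.inl,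
      T.act s a ∈ P.comap SemidirectProduct.inl := fun s a ha => by
    have := hP.conj_mem _ ha (SemidirectProduct.inr s)
    rwa [← map_inv, ← SemidirectProduct.inl_aut] at this
  have hM : T.Inv (P.comap SemidirectProduct.inl) :=
    ⟨hP.comap _, T.act_sb ▸ i sb, T.act_sd ▸ i sd⟩
  have key : ∀ b ∈ P, b.left ∈ P.comap SemidirectProduct.inl := by
    intro b hb
    have h1 : b.left * T.act b.right b.left ∈ P.comap SemidirectProduct.inl := by
      rw [m]
      convert mul_mem hb hb using 1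
      apply SemidirectProduct.ext
      · rfl
      · exact (semi1_sq _).symm
    have h2 : b.left * b.left * T.act b.right b.left⁻¹ * b.left⁻¹ ∈
        P.comap SemidirectProduct.inl := by
      rw [m]
      convert mul_mem (hP.conj_mem b hb ⟨b.left, 1⟩) (inv_mem hb) using 1
      apply SemidirectProduct.ext
      · rw [SemidirectProduct.mul_left, (T.semi1_conj _ _).1, (T.semi1_conj _ _).2,
          SemidirectProduct.inv_left, ← MulAut.mul_apply, ← map_mul, mul_inv_cancel]
        simp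
      · rw [SemidirectProduct.mul_right, (T.semi1_conj _ _).1, SemidirectProduct.inv_right,
          mul_inv_cancel]
    have h3 : b.left ^ 2 ∈ P.comap SemidirectProduct.inl := by
      simpa [mul_assoc, sq] using mul_mem h2 h1
    obtain ⟨k, hk⟩ := hA
    have h4 := pow_mem h3 (k + 1)
    rwa [← pow_mul, show 2 * (k + 1) = Nat.card A + 1 by omega, pow_succ, pow_card_eq_one',
      one_mul] at h4
  refine ⟨_, hM, P.map SemidirectProduct.rightHom, Subgroup.ext fun b => ⟨fun hb =>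
    ⟨key b hb, b, hb, rfl⟩, ?_⟩⟩
  rintro ⟨h1, c, hc, h2⟩
  have h3 := mul_mem (mul_mem h1 (inv_mem (key c hc))) (one_mem _)
  convert mul_mem ((m _).1 h3) hc using 1
  apply SemidirectProduct.ext
  · simp
  · simpa using h2.symm

theorem V4_subgroup (U : Subgroup V4) : U = ⊥ ∨ U = Subgroup.zpowers sb ∨
    U = Subgroup.zpowers sd ∨ U = Subgroup.zpowers sbd ∨ U = ⊤ := by
  have z : ∀ s r : V4, r ∈ Subgroup.zpowers s ↔ r = 1 ∨ r = s := fun s r => by
    refine ⟨?_, by rintro (rfl | rfl) <;> simp⟩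
    rintro ⟨k, rfl⟩
    have h2 : s ^ (2 : ℤ) = 1 := by rw [zpow_two, semi1_sq]
    rcases Int.even_or_odd' k with ⟨j, rfl | rfl⟩ <;> simp [zpow_add, zpow_mul, h2]
  have e1 : sb * sd = sbd := by decide
  have e2 : sb * sbd = sd := by decide
  have e3 : sd * sbd = sb := by decide
  have n1 : sb ≠ 1 ∧ sd ≠ 1 ∧ sbd ≠ 1 ∧ sb ≠ sd ∧ sb ≠ sbd ∧ sd ≠ sbd := by decide
  obtain ⟨a1, a2, a3, a4, a5, a6⟩ := n1
  have t : sb ∈ U → sd ∈ U → sbd ∈ U → U = ⊤ := fun h1 h2 h3 => eq_top_iff.2 fun s _ => by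
    rcases V4_cases s with rfl | rfl | rfl | rfl <;> first | exact one_mem _ | assumption
  by_cases h1 : sb ∈ U <;> by_cases h2 : sd ∈ U <;> by_cases h3 : sbd ∈ U
  · simp [t h1 h2 h3]
  · exact absurd (e1 ▸ mul_mem h1 h2) h3
  · exact absurd (e2 ▸ mul_mem h1 h3) h2
  · refine .inr (.inl (Subgroup.ext fun s => ?_))
    rcases V4_cases s with rfl | rfl | rfl | rfl <;> simp [*, a4.symm, a5.symm]
  · exact absurd (e3 ▸ mul_mem h2 h3) h1
  · refine .inr (.inr (.inl (Subgroup.ext fun s => ?_)))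
    rcases V4_cases s with rfl | rfl | rfl | rfl <;> simp [*, a6.symm]
  · refine .inr (.inr (.inr (.inl (Subgroup.ext fun s => ?_))))
    rcases V4_cases s with rfl | rfl | rfl | rfl <;> simp [*]
  · refine .inl (Subgroup.ext fun s => ?_)
    rcases V4_cases s with rfl | rfl | rfl | rfl <;> simp [*]

end Tower

end Pool.Agent.Lib.MP_c05f82_nt.GC
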