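import Pool.Agent.Lib.MP_c05f82_nt.GC.Lat2
import Pool.Agent.Lib.MP_c05f82_nt.GC.Lat3
import Pool.Agent.Lib.MP_c05f82_nt.GC.Semi1

/-!
The sum of the orders of the normal subgroups of the semidirect product.
-/

open scoped commutatorElement

namespace Pool.Agent.Lib.MP_c05f82_nt.GC

namespace Tower

variable {A : Type} [Group A] {N : ℕ} {T : Tower A N}

lemma Semi2_mem_zpowers {G : Type} [Group G] {g : G} (hg : g * g = 1) (s : G) :
    s ∈ Subgroup.zpowers g ↔ s = 1 ∨ s = g := by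
  constructor
  · rintro ⟨k, rfl⟩
    have h2 : g ^ (2 : ℤ) = 1 := by rw [zpow_two, hg]
    rcases Int.even_or_odd' k with ⟨m, rfl | rfl⟩
    · exact Or.inl (by show g ^ (2 * m) = 1; rw [zpow_mul, h2, one_zpow])
    · exact Or.inr (by
        show g ^ (2 * m + 1) = g
        rw [zpow_add_one, zpow_mul, h2, one_zpow, one_mul])
  · rintro (rfl | rfl)
    · exact one_mem _
    · exact Subgroup.mem_zpowers _

lemma Semi2_card_zpowers {g : V4} (hg : g * g = 1) (h1 : g ≠ 1) :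
    Nat.card (Subgroup.zpowers g) = 2 := by
  rw [Nat.card_zpowers]
  exact orderOf_eq_prime (by rw [pow_two, hg]) h1

variable (T) in
/-- the invariant normal subgroups `M` for which `SD M U` is normal -/
def Semi2_ok (U : Subgroup V4) (M : Subgroup A) : Prop :=
  T.Inv M ∧ ∀ s ∈ U, ∀ x, T.act s x * x⁻¹ ∈ M

lemma Semi2_ok_zpowers {g : V4} (hg : g * g = 1) (M : Subgroup A) :
    T.Semi2_ok (Subgroup.zpowers g) M ↔ T.Inv M ∧ ∀ x, T.act g x * x⁻¹ ∈ M := by
  refine and_congr_right fun _ => ⟨fun h => h g (Subgroup.mem_zpowers g), fun h s hs x => ?_⟩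
  rcases (Semi2_mem_zpowers hg s).1 hs with rfl | rfl
  · simp
  · exact h x

theorem Red.Semi2_split (R : T.Red) :
    DD T.B = ∑ᶠ U : Subgroup V4, wt (T.Semi2_ok U) * Nat.card U := by
  classical
  have := R.finite
  have := Fintype.ofFinite (Subgroup A)
  have := Fintype.ofFinite (Subgroup V4)
  have hodd : Odd (Nat.card A) := by
    rw [R.card]
    exact Odd.pow (by decide)
  let Φ : Subgroup V4 × Subgroup A → Subgroup T.B := fun p =>
    if h : T.Inv p.2 then T.SD p.2 h p.1 else ⊥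
  let S : Finset (Subgroup V4 × Subgroup A) := Finset.univ.filter fun p => T.Semi2_ok p.1 p.2
  have hS : ∀ p, p ∈ S ↔ T.Semi2_ok p.1 p.2 := fun p => by simp [S]
  have hΦ : ∀ p (h : T.Inv p.2), Φ p = T.SD p.2 h p.1 := fun p h => dif_pos h
  have h1 : ∀ P : Subgroup T.B, P ∈ S.image Φ ↔ P.Normal := by
    intro P
    rw [Finset.mem_image]
    constructor
    · rintro ⟨p, hp, rfl⟩
      have hp' := (hS p).1 hp
      rw [hΦ p hp'.1]
      exact (T.SD_normal_iff _ _ _).2 hp'.2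
    · intro hP
      obtain ⟨M, hM, U, rfl⟩ := T.exists_SD hodd P hP
      exact ⟨(U, M), (hS _).2 ⟨hM, (T.SD_normal_iff _ _ _).1 hP⟩, hΦ _ hM⟩
  have h2 : Set.InjOn Φ S := by
    intro p hp q hq e
    rw [hΦ p ((hS p).1 hp).1, hΦ q ((hS q).1 hq).1] at e
    exact Prod.ext (T.SD_inj e).2 (T.SD_inj e).1
  rw [DD, wt_eq_sum _ h1, Finset.sum_image h2, finsum_eq_sum_of_fintype]
  have h3 : ∀ p ∈ S, Nat.card (Φ p) = Nat.card p.2 * Nat.card p.1 := fun p hp => by
    rw [hΦ p ((hS p).1 hp).1, T.card_SD]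
  rw [Finset.sum_congr rfl h3, Finset.sum_filter, Fintype.sum_prod_type]
  refine Finset.sum_congr rfl fun U _ => ?_
  rw [wt_eq_sum (Finset.univ.filter (T.Semi2_ok U)) (fun M => by simp), Finset.sum_mul,
    Finset.sum_filter]

lemma Semi2_sum (F : Subgroup V4 → ℕ) : ∑ᶠ U, F U = F ⊥ + F (Subgroup.zpowers sb) +
    F (Subgroup.zpowers sd) + F (Subgroup.zpowers sbd) + F ⊤ := by
  classical
  have := Fintype.ofFinite (Subgroup V4)
  have hb := Semi2_mem_zpowers (show sb * sb = 1 by decide)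
  have hd := Semi2_mem_zpowers (show sd * sd = 1 by decide)
  have hbd := Semi2_mem_zpowers (show sbd * sbd = 1 by decide)
  have ne : ∀ {U U' : Subgroup V4} (s : V4), s ∉ U → s ∈ U' → U ≠ U' :=
    fun s h h' e => h (e ▸ h')
  have n0 : ∀ {s : V4}, s ≠ 1 → s ∉ (⊥ : Subgroup V4) := fun h h' => h (Subgroup.mem_bot.1 h')
  have e : (Finset.univ : Finset (Subgroup V4)) =
      {⊥, Subgroup.zpowers sb, Subgroup.zpowers sd, Subgroup.zpowers sbd, ⊤} := by
    ext U
    simpa using V4_subgroup U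
  have n01 := ne sb (n0 (by decide)) (Subgroup.mem_zpowers sb)
  have n02 := ne sd (n0 (by decide)) (Subgroup.mem_zpowers sd)
  have n03 := ne sbd (n0 (by decide)) (Subgroup.mem_zpowers sbd)
  have n04 := ne sb (n0 (by decide)) (Subgroup.mem_top sb)
  have n12 := ne sd (by rw [hb]; decide) (Subgroup.mem_zpowers sd)
  have n13 := ne sbd (by rw [hb]; decide) (Subgroup.mem_zpowers sbd)
  have n14 := ne sd (by rw [hb]; decide) (Subgroup.mem_top sd)
  have n23 := ne sbd (by rw [hd]; decide) (Subgroup.mem_zpowers sbd)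
  have n24 := ne sb (by rw [hd]; decide) (Subgroup.mem_top sb)
  have n34 := ne sb (by rw [hbd]; decide) (Subgroup.mem_top sb)
  rw [finsum_eq_sum_of_fintype, e, Finset.sum_insert, Finset.sum_insert, Finset.sum_insert,
    Finset.sum_insert, Finset.sum_singleton]
  · ring
  · simpa using n34
  · simpa using ⟨n23, n24⟩
  · simpa using ⟨n12, n13, n14⟩
  · simp only [Finset.mem_insert, Finset.mem_singleton, not_or]
    exact ⟨n01, n02, n03, n04⟩

lemma Semi2_inv_top : T.Inv ⊤ :=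
  ⟨inferInstance, fun _ _ => Subgroup.mem_top _, fun _ _ => Subgroup.mem_top _⟩

lemma Red.Semi2_wt_top (R : T.Red) {q : Subgroup A → Prop} (hq : ∀ M, q M ↔ M = ⊤) :
    wt q = 27 ^ N := by
  rw [wt_eq_sum {⊤} (fun M => by rw [hq, Finset.mem_singleton]), Finset.sum_singleton,
    Subgroup.card_top, R.card]

lemma Red.Semi2_wt_two (R : T.Red) {q : Subgroup A → Prop} (ε : ZMod 3)
    (hq : ∀ M, q M ↔ M = T.Vs 0 R.pos ε ∨ M = ⊤) : 3 * wt q = 4 * 27 ^ N := by
  classical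
  obtain ⟨n, hn⟩ : ∃ n, N = n + 1 := ⟨N - 1, by have := R.pos; omega⟩
  have h1 : Nat.card (T.Vs 0 R.pos ε) = 9 * 27 ^ n := by
    rw [R.card_Vs, show N - 1 - 0 = n by omega]
  have h2 : Nat.card (⊤ : Subgroup A) = 27 * 27 ^ n := by
    rw [Subgroup.card_top, R.card, show (27 : ℕ) ^ N = 27 ^ (n + 1) by rw [← hn], pow_succ']
  have h3 : (27 : ℕ) ^ N = 27 * 27 ^ n := by rw [← pow_succ', ← hn]
  have h4 : 0 < 27 ^ n := by positivity
  have hne : T.Vs 0 R.pos ε ≠ ⊤ := fun e => by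
    rw [e, h2] at h1
    omega
  rw [wt_eq_sum {T.Vs 0 R.pos ε, ⊤}
    (fun M => by rw [hq, Finset.mem_insert, Finset.mem_singleton]), Finset.sum_pair hne, h1, h2,
    h3]
  ring

theorem Red.DD_B (R : T.Red) : 39 * DD T.B + 33 = 514 * 27 ^ N := by
  have e0 : T.Semi2_ok ⊥ = T.Inv := by
    ext M
    refine ⟨fun h => h.1, fun h => ⟨h, fun s hs x => ?_⟩⟩
    rw [Subgroup.mem_bot.1 hs]
    simp
  have e1 : 3 * wt (T.Semi2_ok (Subgroup.zpowers sb)) = 4 * 27 ^ N := by
    refine R.Semi2_wt_two (-1) fun M => ?_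
    rw [Semi2_ok_zpowers (by decide), act_sb]
    refine ⟨fun h => (R.top_be M).1 ⟨h.1.1, h.2⟩, fun h => ⟨?_, ((R.top_be M).2 h).2⟩⟩
    rcases h with rfl | rfl
    · exact (R.inv_iff _).2 (Or.inr ⟨0, R.pos, Or.inr (Or.inr (Or.inl rfl))⟩)
    · exact Semi2_inv_top
  have e2 : wt (T.Semi2_ok (Subgroup.zpowers sd)) = 27 ^ N := by
    refine R.Semi2_wt_top fun M => ?_
    rw [Semi2_ok_zpowers (by decide), act_sd]
    refine ⟨fun h => R.top_de h.1.1 h.2, ?_⟩
    rintro rfl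
    exact ⟨Semi2_inv_top, fun _ => Subgroup.mem_top _⟩
  have e3 : 3 * wt (T.Semi2_ok (Subgroup.zpowers sbd)) = 4 * 27 ^ N := by
    refine R.Semi2_wt_two 1 fun M => ?_
    rw [Semi2_ok_zpowers (by decide), act_sbd]
    refine ⟨fun h => (R.top_bd M).1 ⟨h.1.1, h.2⟩, fun h => ⟨?_, ((R.top_bd M).2 h).2⟩⟩
    rcases h with rfl | rfl
    · exact (R.inv_iff _).2 (Or.inr ⟨0, R.pos, Or.inr (Or.inl rfl)⟩)
    · exact Semi2_inv_top
  have e4 : wt (T.Semi2_ok ⊤) = 27 ^ N := by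
    refine R.Semi2_wt_top fun M => ⟨fun h => R.top_de h.1.1 fun x => ?_, ?_⟩
    · have := h.2 sd (Subgroup.mem_top _) x
      rwa [act_sd] at this
    · rintro rfl
      exact ⟨Semi2_inv_top, fun _ _ _ => Subgroup.mem_top _⟩
  have c4 : Nat.card V4 = 4 := by simp [V4]
  have hw := R.wt_inv
  rw [R.Semi2_split, Semi2_sum, e0, e2, e4, Subgroup.card_bot, Subgroup.card_top, c4,
    Semi2_card_zpowers (by decide) (by decide), Semi2_card_zpowers (by decide) (by decide),
    Semi2_card_zpowers (by decide) (by decide)]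
  omega

end Tower

end Pool.Agent.Lib.MP_c05f82_nt.GC
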