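import Pool.Agent.Lib.MP_c05f82_nt.GC.Lat2
import Pool.Agent.Lib.MP_c05f82_nt.GC.Lat3
import Pool.Agent.Lib.MP_c05f82_nt.GC.Semi1

/-!
The only central section of order three of the semidirect product.
-/

open scoped commutatorElement

namespace Pool.Agent.Lib.MP_c05f82_nt.GC

namespace Tower

variable {A : Type} [Group A] {N : ℕ} {T : Tower A N}

theorem Red.oneSec (R : T.Red) : OneSec T.B := by
  have hpos := R.pos
  have hN : N - 1 < N := by omega
  have hfin := R.finite
  have hfix : ∀ s : V4, T.act s (T.t (N - 1)) = T.t (N - 1) := by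
    have hb := T.be_z (N - 1) (by omega)
    have hd := T.de_t (N - 1) hN
    intro s
    rcases V4_cases s with rfl | rfl | rfl | rfl
    · simp
    · rw [act_sb]; exact hb
    · rw [act_sd]; exact hd
    · rw [act_sbd, MulAut.mul_apply, hd, hb]
  refine ⟨SemidirectProduct.inl (T.t (N - 1)), ?_, fun g => ?_, fun M M₀ hM h₀ hle h3 hc => ?_⟩
  · rw [orderOf_injective _ SemidirectProduct.inl_injective, R.orderOf_last]
  · refine SemidirectProduct.ext ?_ ?_
    · simp [hfix, (R.commute_last g.left).eq]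
    · simp
  have hodd : Odd (Nat.card A) := by rw [R.card]; exact Odd.pow (by decide)
  obtain ⟨M1, h1, U1, rfl⟩ := T.exists_SD hodd M hM
  obtain ⟨M0, h0, U0, rfl⟩ := T.exists_SD hodd M₀ h₀
  have hin : ∀ {P : Subgroup A} {hP : T.Inv P} {U : Subgroup V4} {x : A},
      (SemidirectProduct.inl x : T.B) ∈ T.SD P hP U ↔ x ∈ P := by
    intro P hP U x
    simp [mem_SD]
  have hle' : M0 ≤ M1 := fun x hx => hin.1 (hle (hin.2 hx))
  have hne : M0 ≠ M1 := by
    rintro rfl
    have e := ((T.SD M0 h0 U0).subgroupOf (T.SD M0 h1 U1)).card_mul_index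
    rw [Nat.card_congr (Subgroup.subgroupOfEquivOfLe hle).toEquiv, ← Subgroup.relIndex, h3,
      card_SD, card_SD, mul_assoc] at e
    have e2 := Nat.eq_of_mul_eq_mul_left Nat.card_pos e
    have e3 : Nat.card U1 ∣ 4 := by
      have := U1.card_subgroup_dvd_card
      rwa [show Nat.card V4 = 4 by simp [Nat.card_eq_fintype_card]] at this
    rw [← e2] at e3
    exact absurd (Dvd.dvd.trans (Dvd.intro_left _ rfl) e3) (by decide)
  have hcm : ∀ s : V4, ∀ x ∈ M1, T.act s x * x⁻¹ ∈ M0 := by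
    intro s x hx
    have := (hc _ (hin.2 hx) (SemidirectProduct.inr s)).1
    have e : (⁅(SemidirectProduct.inl x : T.B), (SemidirectProduct.inr s : T.B)⁆).left
        = (T.act s x * x⁻¹)⁻¹ := by
      simp [commutatorElement_def]
    rw [e] at this
    exact inv_mem_iff.1 this
  have hM1 : M1 = T.H (N - 1) := R.central h1.1 h0.1 hle' hne
    (fun x hx => by simpa [act_sb] using hcm sb x hx)
    (fun x hx => by simpa [act_sd] using hcm sd x hx)
  have hcard : Nat.card M1 = 3 := by rw [hM1, R.card_H hN]; simp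
  have htop : M1 ≠ ⊤ := by
    rintro rfl
    rw [Subgroup.card_top, R.card, show N = (N - 1) + 1 by omega, pow_succ] at hcard
    omega
  have hVs : ∀ ε, M1 ≠ T.Vs 0 R.pos ε := by
    rintro ε rfl
    rw [R.card_Vs] at hcard
    omega
  have hU : U1 = ⊥ := by
    rw [eq_bot_iff]
    intro s hs
    have h := (T.SD_normal_iff M1 h1 U1).1 hM s hs
    rcases V4_cases s with rfl | rfl | rfl | rfl
    · exact one_mem _
    · rw [act_sb] at h
      exact absurd ((R.top_be M1).1 ⟨h1.1, h⟩) (not_or.2 ⟨hVs _, htop⟩)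
    · rw [act_sd] at h
      exact absurd (R.top_de h1.1 h) htop
    · rw [act_sbd] at h
      exact absurd ((R.top_bd M1).1 ⟨h1.1, h⟩) (not_or.2 ⟨hVs _, htop⟩)
  ext b
  rw [mem_SD, hU, hM1, R.H_last, Subgroup.mem_bot, Subgroup.mem_zpowers_iff,
    Subgroup.mem_zpowers_iff]
  constructor
  · rintro ⟨⟨k, hk⟩, hb⟩
    refine ⟨k, ?_⟩
    rw [← map_zpow, hk]
    exact SemidirectProduct.ext rfl hb.symm
  · rintro ⟨k, rfl⟩
    rw [← map_zpow]
    exact ⟨⟨k, rfl⟩, rfl⟩

end Tower

end Pool.Agent.Lib.MP_c05f82_nt.GC
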