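import Pool.Agent.Lib.MP_c05f82_nt.GC.Wc

/-!
The invariant subgroups of a module of order 1024.
-/

open scoped commutatorElement

namespace Pool.Agent.Lib.MP_c05f82_nt.GC

abbrev W2O : Type := ZMod 16 × ZMod 16
abbrev W2F : Type := ZMod 2 × ZMod 2
abbrev W2I : Type := Fin 5 × Bool × W2F

/-- the elements of order at most two -/
def W2e (r : W2F) : W2O := (8 * (r.1.val : ZMod 16), 8 * (r.2.val : ZMod 16))

/-- the equivariant map with `(1, 0) ↦ E` -/
def W2phi (E : W2O) (y : W2F) : W2O :=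
  ((y.1.val : ZMod 16) * E.1 - (y.2.val : ZMod 16) * E.2,
    (y.1.val : ZMod 16) * E.2 + (y.2.val : ZMod 16) * (E.1 - E.2))

/-- multiplication by a power of two -/
def W2m (j : ℕ) (x : W2O) : W2O := (2 ^ j * x.1, 2 ^ j * x.2)

def W2P (i : W2I) (w : W2O × W2F) : Prop :=
  W2m i.1.val w.1 = W2phi (W2e i.2.2) w.2 ∧ (i.2.1 = true → w.2 = 0)

instance (i : W2I) (w : W2O × W2F) : Decidable (W2P i w) := by unfold W2P; infer_instance

lemma W2phi_add : ∀ r y z : W2F,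
    W2phi (W2e r) (y + z) = W2phi (W2e r) y + W2phi (W2e r) z := by decide +kernel

lemma W2phi_neg : ∀ r y : W2F, W2phi (W2e r) (-y) = -W2phi (W2e r) y := by decide +kernel

lemma W2phi_zero (E : W2O) : W2phi E 0 = 0 := by simp [W2phi]

lemma W2phi_rot : ∀ r y : W2F, W2phi (W2e r) (-y.2, y.1 - y.2) =
    (-(W2phi (W2e r) y).2, (W2phi (W2e r) y).1 - (W2phi (W2e r) y).2) := by decide +kernel

lemma W2m_add (j : ℕ) (x y : W2O) : W2m j (x + y) = W2m j x + W2m j y := by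
  ext <;> simp [W2m, mul_add]

lemma W2m_neg (j : ℕ) (x : W2O) : W2m j (-x) = -W2m j x := by
  ext <;> simp [W2m]

/-- the invariant subgroups -/
def W2S (i : W2I) : AddSubgroup (W2O × W2F) where
  carrier := {w | W2P i w}
  add_mem' := fun {a b} ha hb => ⟨by rw [Prod.fst_add, Prod.snd_add, W2m_add, W2phi_add, ha.1, hb.1],
    fun h => by rw [Prod.snd_add, ha.2 h, hb.2 h, add_zero]⟩
  zero_mem' := ⟨by rw [Prod.snd_zero, W2phi_zero]; simp [W2m], fun _ => rfl⟩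
  neg_mem' := fun {a} ha => ⟨by rw [Prod.fst_neg, Prod.snd_neg, W2m_neg, W2phi_neg, ha.1],
    fun h => by rw [Prod.snd_neg, ha.2 h, neg_zero]⟩

lemma W2mem {i : W2I} {w : W2O × W2F} : w ∈ W2S i ↔ W2P i w := Iff.rfl

lemma W2S_inv (i : W2I) : ∀ x ∈ W2S i, (rot 16).prodMap (rot 2) x ∈ W2S i := by
  rintro ⟨x, y⟩ ⟨h1, h2⟩
  refine ⟨?_, fun h => ?_⟩
  · change W2m i.1.val (-x.2, x.1 - x.2) = W2phi (W2e i.2.2) (-y.2, y.1 - y.2)
    rw [W2phi_rot, ← show W2m i.1.val x = W2phi (W2e i.2.2) y from h1]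
    ext <;> simp [W2m, mul_sub]
  · change ((-y.2, y.1 - y.2) : W2F) = 0
    rw [show y = 0 from h2 h]; rfl

/-- the index set -/
def W2J : Finset W2I := Finset.univ.filter fun i => (i.2.1 = true ∨ i.1 = 4) → i.2.2 = 0

lemma W2card (i : W2I) : Nat.card (W2S i) = (Finset.univ.filter (W2P i)).card := by
  rw [← Fintype.card_subtype, ← Nat.card_eq_fintype_card]
  rfl

/-- the order, computed coordinate by coordinate -/
def W2c (i : W2I) : ℕ := ∑ y : W2F, if (i.2.1 = true → y = 0) then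
  (Finset.univ.filter fun p : ZMod 16 => 2 ^ i.1.val * p = (W2phi (W2e i.2.2) y).1).card *
  (Finset.univ.filter fun q : ZMod 16 => 2 ^ i.1.val * q = (W2phi (W2e i.2.2) y).2).card else 0

lemma W2card' (i : W2I) : (Finset.univ.filter (W2P i)).card = W2c i := by
  rw [Finset.card_filter, Fintype.sum_prod_type_right]
  refine Finset.sum_congr rfl fun y _ => ?_
  rw [Fintype.sum_prod_type]
  split_ifs with h
  · rw [Finset.card_filter, Finset.card_filter, Finset.sum_mul_sum]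
    refine Finset.sum_congr rfl fun p _ => Finset.sum_congr rfl fun q _ => ?_
    rw [ite_zero_mul_ite_zero, one_mul]
    refine if_congr ?_ rfl rfl
    exact (and_iff_left h).trans Prod.ext_iff
  · refine Finset.sum_eq_zero fun p _ => Finset.sum_eq_zero fun q _ => if_neg fun hh => h hh.2

lemma W2sum : ∑ i ∈ W2J, W2c i = 2725 := by decide +kernel

lemma W2inj : ∀ i ∈ W2J, ∀ i' ∈ W2J, (∀ m : Fin 5,
    (W2P i ((2 ^ m.val, 0), 0) ↔ W2P i' ((2 ^ m.val, 0), 0)) ∧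
    (W2P i ((2 ^ m.val, 0), (1, 0)) ↔ W2P i' ((2 ^ m.val, 0), (1, 0))) ∧
    (W2P i ((0, 2 ^ m.val), (1, 0)) ↔ W2P i' ((0, 2 ^ m.val), (1, 0))) ∧
    (W2P i ((2 ^ m.val, 2 ^ m.val), (1, 0)) ↔ W2P i' ((2 ^ m.val, 2 ^ m.val), (1, 0)))) →
    i = i' := by decide +kernel

/-- a multiplier taking `(p, q)` to `(2 ^ k, 0)` -/
def W2a (k v : ℕ) (p q : ZMod 16) : W2O :=
  let p1 : ZMod 16 := (p.val / 2 ^ v : ℕ)
  let q1 : ZMod 16 := (q.val / 2 ^ v : ℕ)
  let c : ZMod 16 := 2 ^ (k - v) * (p1 * p1 - p1 * q1 + q1 * q1) ^ 3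
  (c * (p1 - q1), -c * q1)

lemma W2gen' : ∀ j : Fin 4, ∀ p q : ZMod 16, W2m j.val (p, q) ≠ 0 → ∃ v : Fin 4,
    (W2a (3 - j.val) v.val p q).1 * p - (W2a (3 - j.val) v.val p q).2 * q = 2 ^ (3 - j.val) ∧
    (W2a (3 - j.val) v.val p q).1 * q + (W2a (3 - j.val) v.val p q).2 * (p - q) = 0 := by
  decide +kernel

lemma W2gen (j : Fin 4) (p q : ZMod 16) (h : W2m j.val (p, q) ≠ 0) :
    ∃ a b : ZMod 16, a * p - b * q = 2 ^ (3 - j.val) ∧ a * q + b * (p - q) = 0 :=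
  let ⟨_, hv⟩ := W2gen' j p q h
  ⟨_, _, hv⟩

lemma W2div : ∀ j : Fin 5, ∀ p : ZMod 16, 2 ^ j.val * p = 0 →
    ∃ a : ZMod 16, p = a * 2 ^ (4 - j.val) := by decide +kernel

lemma W2half : ∀ j : Fin 5, ∀ u : W2O, W2m j.val (u + u) = 0 →
    ∃ r : W2F, W2m j.val u = W2e r ∧ (j = 4 → r = 0) := by decide +kernel

section

variable {H : AddSubgroup (W2O × W2F)} (hH : ∀ x ∈ H, (rot 16).prodMap (rot 2) x ∈ H)
include hH

lemma W2comb {x : W2O} {y : W2F} (h : (x, y) ∈ H) (a b : ℕ) :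
    (((a * x.1 - b * x.2, a * x.2 + b * (x.1 - x.2)),
      (a * y.1 - b * y.2, a * y.2 + b * (y.1 - y.2))) : W2O × W2F) ∈ H := by
  have := H.add_mem (H.nsmul_mem h a) (H.nsmul_mem (hH _ h) b)
  convert this using 1
  ext <;> simp [sub_eq_add_neg, mul_add]

lemma W2comb0 {p q : ZMod 16} (h : (((p, q), 0) : W2O × W2F) ∈ H) (a b : ZMod 16) :
    (((a * p - b * q, a * q + b * (p - q)), 0) : W2O × W2F) ∈ H := by
  have := W2comb hH h a.val b.val
  simpa [Prod.mk_zero_zero] using this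

lemma W2level : ∃ j : Fin 5, ∀ x : W2O, ((x, 0) : W2O × W2F) ∈ H ↔ W2m j.val x = 0 := by
  classical
  have ex : ∃ k : ℕ, ((((2 : ZMod 16) ^ k, 0), 0) : W2O × W2F) ∈ H :=
    ⟨4, by rw [show (2 : ZMod 16) ^ 4 = 0 from rfl]; exact H.zero_mem⟩
  have hk4 : Nat.find ex ≤ 4 :=
    Nat.find_min' ex (by rw [show (2 : ZMod 16) ^ 4 = 0 from rfl]; exact H.zero_mem)
  refine ⟨⟨4 - Nat.find ex, by omega⟩, fun ⟨p, q⟩ => ⟨fun h => ?_, fun h => ?_⟩⟩
  · by_contra hne
    have hpos : 0 < Nat.find ex := by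
      rcases Nat.eq_zero_or_pos (Nat.find ex) with h0 | h0
      · exfalso; apply hne
        simp only [h0, W2m]
        rw [show (2 : ZMod 16) ^ (4 - 0) = 0 from rfl]; simp
      · exact h0
    obtain ⟨a, b, e1, e2⟩ := W2gen ⟨4 - Nat.find ex, by omega⟩ p q hne
    have := W2comb0 hH h a b
    rw [e1, e2] at this
    exact Nat.find_min ex (show 3 - (4 - Nat.find ex) < Nat.find ex by omega) this
  · obtain ⟨a, ha⟩ := W2div ⟨4 - Nat.find ex, by omega⟩ p (congrArg Prod.fst h)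
    obtain ⟨b, hb⟩ := W2div ⟨4 - Nat.find ex, by omega⟩ q (congrArg Prod.snd h)
    rw [show 4 - (⟨4 - Nat.find ex, by omega⟩ : Fin 5).val = Nat.find ex by simp; omega] at ha hb
    have := W2comb0 hH (Nat.find_spec ex) a b
    rw [ha, hb]
    simpa using this

lemma W2class : ∃ i ∈ W2J, W2S i = H := by
  obtain ⟨j, hj⟩ := W2level hH
  by_cases h0 : ∀ w ∈ H, w.2 = 0
  · refine ⟨(j, true, 0), by simp [W2J], ?_⟩
    ext ⟨x, y⟩
    rw [W2mem]
    constructor
    · rintro ⟨h1, h2⟩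
      have hy : y = 0 := h2 rfl
      subst hy
      exact (hj x).2 (by simpa [W2phi_zero] using h1)
    · intro h
      have hy : y = 0 := h0 _ h
      subst hy
      exact ⟨by simpa [W2phi_zero] using (hj x).1 h, fun _ => rfl⟩
  · push Not at h0
    obtain ⟨⟨x0, y0⟩, hm, hy0⟩ := h0
    obtain ⟨u, hu⟩ : ∃ u : W2O, ((u, (1, 0)) : W2O × W2F) ∈ H := by
      have key : ∀ y : W2F, y ≠ 0 → ∃ a b : Fin 2,
          (((a.val : ZMod 2) * y.1 - (b.val : ZMod 2) * y.2,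
            (a.val : ZMod 2) * y.2 + (b.val : ZMod 2) * (y.1 - y.2)) : W2F) = (1, 0) := by
        decide +kernel
      obtain ⟨a, b, e⟩ := key y0 hy0
      have := W2comb hH hm a.val b.val
      rw [e] at this
      exact ⟨_, this⟩
    have h2 : ((u + u, 0) : W2O × W2F) ∈ H := H.add_mem hu hu
    obtain ⟨r, hr, hr4⟩ := W2half j u ((hj _).1 h2)
    refine ⟨(j, false, r), by simpa [W2J] using hr4, ?_⟩
    ext ⟨x, y⟩
    have hc := W2comb hH hu y.1.val y.2.val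
    have e : (((y.1.val : ZMod 2) * ((1, 0) : W2F).1 - (y.2.val : ZMod 2) * ((1, 0) : W2F).2,
        (y.1.val : ZMod 2) * ((1, 0) : W2F).2 +
          (y.2.val : ZMod 2) * (((1, 0) : W2F).1 - ((1, 0) : W2F).2)) : W2F) = y := by simp
    rw [e] at hc
    change ((W2phi u y, y) : W2O × W2F) ∈ H at hc
    have e2 : W2m j.val (W2phi u y) = W2phi (W2e r) y := by
      rw [← hr]; ext <;> simp only [W2m, W2phi] <;> ring
    have e3 : ((x, y) : W2O × W2F) ∈ H ↔ ((x + -W2phi u y, 0) : W2O × W2F) ∈ H := by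
      rw [← H.add_mem_cancel_right (H.neg_mem hc)]
      simp
    rw [W2mem, e3, hj, W2m_add, W2m_neg, e2, add_neg_eq_zero]
    simp [W2P]

end

theorem DW_two : DW ((rot 16).prodMap (rot 2)) = 2725 := by
  classical
  rw [DW, awt_eq_sum (W2J.image W2S), Finset.sum_image, ← W2sum]
  · exact Finset.sum_congr rfl fun i _ => (W2card i).trans (W2card' i)
  · intro i hi i' hi' h
    refine W2inj i hi i' hi' fun m => ?_
    simp only [← W2mem, h, and_self]
  · intro N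
    rw [Finset.mem_image]
    exact ⟨fun ⟨i, _, h⟩ => h ▸ W2S_inv i, fun h => W2class h⟩

end Pool.Agent.Lib.MP_c05f82_nt.GC
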