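import Pool.Agent.Lib.MP_c05f82_nt.GC.Tow
import Pool.Agent.Lib.MP_c05f82_nt.GC.Quot
import Pool.Agent.Lib.MP_c05f82_nt.GC.Semi2
import Pool.Agent.Lib.MP_c05f82_nt.GC.Semi3
import Pool.Agent.Lib.MP_c05f82_nt.GC.Cyc
import Pool.Agent.Lib.MP_c05f82_nt.GC.Fpf
import Pool.Agent.Lib.MP_c05f82_nt.GC.Cop
import Pool.Agent.Lib.MP_c05f82_nt.GC.W2
import Pool.Agent.Lib.MP_c05f82_nt.GC.DatEx

/-!
Assembly of the infinite family.
-/

namespace Pool.Agent.Lib.MP_c05f82_nt.GC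

theorem exists_B (m : ℕ) (hm : 0 < m) : ∃ (B : Type) (_ : Group B) (_ : Finite B),
    Nat.card B = 27 ^ (3 * m) * 4 ∧ 39 * DD B + 33 = 514 * 27 ^ (3 * m) ∧ OneSec B := by
  obtain ⟨K, _, D, rfl⟩ := exists_dat m hm
  obtain ⟨A, _, T, R⟩ := (Cov.tower D).exists_red (by omega)
  have := R.finite
  exact ⟨T.B, inferInstance, T.finite_B, by rw [T.card_B, R.card], R.DD_B, R.oneSec⟩

/-- a finite module with its order and its sum -/
def Mod (n d : ℕ) : Prop := ∃ (W : Type) (_ : AddCommGroup W) (_ : Finite W) (ω : W →+ W),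
  Eis ω ∧ Nat.card W = n ∧ DW ω = d

lemma Mod.mul {n d n' d' : ℕ} (h : Mod n d) (h' : Mod n' d') (hc : n.Coprime n') :
    Mod (n * n') (d * d') := by
  obtain ⟨W, _, _, ω, e, rfl, rfl⟩ := h
  obtain ⟨W', _, _, ω', e', rfl, rfl⟩ := h'
  exact ⟨W × W', inferInstance, inferInstance, ω.prodMap ω', e.prod e', Nat.card_prod _ _,
    DW_prod ω ω' hc⟩

lemma mod_mu (n : ℕ) [NeZero n] (k : ZMod n) (hk : k * k + k + 1 = 0) (l : ℕ)
    (hl : (l : ZMod n) * 3 = 1) : Mod n (∑ d ∈ n.divisors, d) :=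
  ⟨ZMod n, inferInstance, inferInstance, mu n k, eis_mu n k hk l hl, Nat.card_zmod n,
    DW_mu n (NeZero.ne n) k⟩

lemma sum_prime {p : ℕ} (hp : p.Prime) : ∑ d ∈ p.divisors, d = p + 1 := hp.sum_divisors

lemma sum_sq {p : ℕ} (hp : p.Prime) : ∑ d ∈ (p ^ 2).divisors, d = 1 + p + p ^ 2 := by
  rw [Nat.sum_divisors_prime_pow hp]
  simp [Finset.sum_range_succ]

lemma mod_109 : Mod 109 110 := by
  have h : ∑ d ∈ Nat.divisors 109, d = 110 := sum_prime (p := 109) (by norm_num)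
  exact h ▸ mod_mu 109 45 (by decide) 73 (by decide)

lemma mod_97 : Mod 97 98 := by
  have h : ∑ d ∈ Nat.divisors 97, d = 98 := sum_prime (p := 97) (by norm_num)
  exact h ▸ mod_mu 97 35 (by decide) 65 (by decide)

lemma mod_169 : Mod 169 183 := by
  have h : ∑ d ∈ Nat.divisors 169, d = 183 := sum_sq (p := 13) (by norm_num)
  exact h ▸ mod_mu 169 22 (by decide) 113 (by decide)

lemma mod_3721 : Mod 3721 3783 := by
  have h : ∑ d ∈ Nat.divisors 3721, d = 3783 := sum_sq (p := 61) (by norm_num)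
  exact h ▸ mod_mu 3721 1660 (by decide) 2481 (by decide)

lemma mod_49 : Mod 49 64 :=
  ⟨ZMod 7 × ZMod 7, inferInstance, inferInstance, _,
    (eis_mu 7 2 (by decide) 5 (by decide)).prod (eis_mu 7 4 (by decide) 5 (by decide)),
    by simp, DW_seven⟩

lemma mod_121 : Mod 121 122 :=
  ⟨ZMod 11 × ZMod 11, inferInstance, inferInstance, _, eis_rot 11 4 (by decide), by simp,
    DW_rot_eleven⟩

lemma mod_25 : Mod 25 26 :=
  ⟨ZMod 5 × ZMod 5, inferInstance, inferInstance, _, eis_rot 5 2 (by decide), by simp,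
    DW_rot_five⟩

lemma mod_1024 : Mod 1024 2725 :=
  ⟨(ZMod 16 × ZMod 16) × ZMod 2 × ZMod 2, inferInstance, inferInstance, _,
    (eis_rot 16 11 (by decide)).prod (eis_rot 2 1 (by decide)), by simp, DW_two⟩

lemma mod_all : Mod (109 * 169 * 3721 * 97 * 49 * 121 * 25 * 1024)
    (110 * 183 * 3783 * 98 * 64 * 122 * 26 * 2725) :=
  ((((((mod_109.mul mod_169 (by norm_num)).mul mod_3721 (by norm_num)).mul mod_97
    (by norm_num)).mul mod_49 (by norm_num)).mul mod_121 (by norm_num)).mul mod_25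
    (by norm_num)).mul mod_1024 (by norm_num)

theorem exists_group (m : ℕ) (hm : 0 < m) : ∃ (G : Type) (_ : Group G) (_ : Finite G),
    27 ^ (3 * m) ≤ Nat.card G ∧ DD G = 8 * Nat.card G := by
  obtain ⟨B, _, _, cB, dB, oB⟩ := exists_B m hm
  obtain ⟨W, _, _, ω, e, cW, dW⟩ := mod_all
  obtain ⟨G, _, _, cG, dG⟩ := exists_fpf ω e (C3 × B) (MonoidHom.fst C3 B)
    (Multiplicative.ofAdd 1, 1) rfl fun q => Prod.ext (mul_comm _ _) (by simp)
  rw [wt_le_ker, wt_not_le_ker B oB, cW, dW] at dG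
  rw [cW, Nat.card_prod, cB, show Nat.card C3 = 3 by simp] at cG
  have c1 : Nat.card (Multiplicative (ZMod 257)) = 257 := by simp
  have c2 : Nat.card (Multiplicative (ZMod 43)) = 43 := by simp
  have k : ∀ p : ℕ, p.Coprime (109 * 169 * 3721 * 97 * 49 * 121 * 25 * 1024 * 12) →
      p.Coprime 27 → (Nat.card G).Coprime p := fun p h1 h2 => by
    rw [cG, show 109 * 169 * 3721 * 97 * 49 * 121 * 25 * 1024 * (3 * (27 ^ (3 * m) * 4)) =
      109 * 169 * 3721 * 97 * 49 * 121 * 25 * 1024 * 12 * 27 ^ (3 * m) by ring]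
    exact (Nat.Coprime.mul_right h1 (h2.pow_right _)).symm
  refine ⟨(G × Multiplicative (ZMod 257)) × Multiplicative (ZMod 43), inferInstance,
    inferInstance, ?_, ?_⟩
  · rw [Nat.card_prod, Nat.card_prod, c1, c2, cG]; omega
  · rw [DD_prod _ _ (by
        rw [Nat.card_prod, c1, c2]
        exact Nat.Coprime.mul_left (k 43 (by norm_num) (by norm_num)) (by norm_num)),
      DD_prod _ _ (by rw [c1]; exact k 257 (by norm_num) (by norm_num)),
      DD_prime 257 (by norm_num), DD_prime 43 (by norm_num), Nat.card_prod, Nat.card_prod, c1, c2,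
      cG, dG]
    omega

end Pool.Agent.Lib.MP_c05f82_nt.GC
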