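import Pool.Agent.Lib.MP_c05f82_nt.GC.Defs

/-!
Hilbert 90 for cocycles that are trivial on the stabiliser of a finite set.
-/

open scoped commutatorElement

namespace Pool.Agent.Lib.MP_c05f82_nt.GC

theorem h90 {K Ω : Type} [Field K] [Field Ω] [Algebra K Ω] [Algebra.IsAlgebraic K Ω]
    (H : Subgroup (Ω ≃ₐ[K] Ω)) (T : Finset Ω) (c : (Ω ≃ₐ[K] Ω) → Ω) (h0 : ∀ σ, c σ ≠ 0)
    (h1 : ∀ h : Ω ≃ₐ[K] Ω, (∀ y ∈ T, h y = y) → c h = 1)
    (hc : ∀ σ ∈ H, ∀ τ ∈ H, c (σ * τ) = c σ * σ (c τ)) :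
    ∃ b : Ω, b ≠ 0 ∧ ∀ τ ∈ H, c τ * τ b = b := by
  classical
  let N : Subgroup H :=
    { carrier := {h | ∀ y ∈ T, (h : Ω ≃ₐ[K] Ω) y = y}
      one_mem' := fun _ _ => rfl
      mul_mem' := fun {a b} ha hb y hy => by
        show (a : Ω ≃ₐ[K] Ω) ((b : Ω ≃ₐ[K] Ω) y) = y
        rw [hb y hy, ha y hy]
      inv_mem' := fun {a} ha y hy => by
        show (a : Ω ≃ₐ[K] Ω).symm y = y
        rw [AlgEquiv.symm_apply_eq, ha y hy] }
  have key : ∀ q q' : H ⧸ N, (∀ y ∈ T, (q.out : Ω ≃ₐ[K] Ω) y = (q'.out : Ω ≃ₐ[K] Ω) y) →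
      q = q' := by
    intro q q' h
    rw [← q.out_eq', ← q'.out_eq']
    refine QuotientGroup.eq.2 fun y hy => ?_
    show (q.out : Ω ≃ₐ[K] Ω).symm ((q'.out : Ω ≃ₐ[K] Ω) y) = y
    rw [← h y hy, AlgEquiv.symm_apply_apply]
  have hfin : Finite (H ⧸ N) := by
    let r : (H ⧸ N) → ∀ y : T, (minpoly K (y : Ω)).rootSet Ω := fun q y =>
      ⟨(q.out : Ω ≃ₐ[K] Ω) y, by
        have hi : IsIntegral K (y : Ω) := Algebra.IsIntegral.isIntegral _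
        rw [Polynomial.mem_rootSet]
        refine ⟨minpoly.ne_zero hi, ?_⟩
        rw [Polynomial.aeval_algHom_apply, minpoly.aeval, map_zero]⟩
    refine Finite.of_injective r fun q q' h => key q q' fun y hy => ?_
    exact congrArg Subtype.val (congrFun h ⟨y, hy⟩)
  have := Fintype.ofFinite (H ⧸ N)
  let F : Submonoid Ω :=
    { carrier := {y | ∀ h ∈ N, (h : Ω ≃ₐ[K] Ω) y = y}
      one_mem' := fun h _ => map_one _
      mul_mem' := fun {a b} ha hb h hh => by rw [map_mul, ha h hh, hb h hh] }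
  let φ : (H ⧸ N) → (F →* Ω) := fun q =>
    ((q.out : Ω ≃ₐ[K] Ω) : Ω →* Ω).comp F.subtype
  have hφ : Function.Injective φ := fun q q' h => key q q' fun y hy =>
    DFunLike.congr_fun h ⟨y, fun n hn => hn y hy⟩
  have hli : LinearIndependent Ω (fun q => (φ q : F → Ω)) :=
    (linearIndependent_monoidHom F Ω).comp φ hφ
  have hex : ∃ y : F, ∑ q : H ⧸ N, c q.out * (q.out : Ω ≃ₐ[K] Ω) y ≠ 0 := by
    by_contra hn
    push Not at hn
    refine h0 _ (Fintype.linearIndependent_iff.1 hli (fun q => c q.out) ?_ ((1 : H) : H ⧸ N))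
    funext y
    rw [Finset.sum_apply]
    exact hn y
  obtain ⟨y, hy⟩ := hex
  have hψ : ∀ s : H, c ((s : H ⧸ N).out) * ((s : H ⧸ N).out : Ω ≃ₐ[K] Ω) y =
      c s * (s : Ω ≃ₐ[K] Ω) y := by
    intro s
    obtain ⟨n, hn⟩ := QuotientGroup.mk_out_eq_mul N s
    rw [hn, Subgroup.coe_mul, hc _ s.2 _ (n : H).2, h1 _ n.2, map_one, mul_one,
      AlgEquiv.mul_apply, y.2 _ n.2]
  refine ⟨_, hy, fun τ hτ => ?_⟩
  rw [map_sum, Finset.mul_sum]
  refine Fintype.sum_equiv (MulAction.toPerm (⟨τ, hτ⟩ : H)) _ _ fun q => ?_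
  have e : (MulAction.toPerm (⟨τ, hτ⟩ : H)) q = ((⟨τ, hτ⟩ * q.out : H) : H ⧸ N) := by
    conv_lhs => rw [← q.out_eq']
    rfl
  rw [e, hψ, Subgroup.coe_mul, hc _ hτ _ q.out.2, map_mul, AlgEquiv.mul_apply, mul_assoc]

end Pool.Agent.Lib.MP_c05f82_nt.GC
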