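import Pool.Agent.Lib.MP_c05f82_nt.GC.Sym1

/-!
If the carry cocycle is a coboundary then the base is a norm.
-/

open scoped commutatorElement

namespace Pool.Agent.Lib.MP_c05f82_nt.GC

lemma sym2_inj {Ω : Type} [Field Ω] {z : Ω} (hz : z ^ 2 + z + 1 = 0) (h3 : (3 : Ω) ≠ 0)
    {a b : ZMod 3} (h : z ^ a.val = z ^ b.val) : a = b := by
  have n1 : z ≠ 1 := fun e => h3 (by rw [e] at hz; linear_combination hz)
  have n0 : z ≠ 0 := fun e => by rw [e] at hz; simp at hz
  have n2 : z ^ 2 ≠ 1 := fun e => n1 (by linear_combination (z - 1) * hz - z * e)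
  have n3 : z ^ 2 ≠ z := fun e => n1 (mul_left_cancel₀ n0 (by linear_combination e))
  apply ZMod.val_injective
  have ha := ZMod.val_lt a
  have hb := ZMod.val_lt b
  generalize a.val = i at h ha
  generalize b.val = j at h hb
  interval_cases i <;> interval_cases j <;> first
    | rfl
    | (exfalso
       simp only [pow_zero, pow_one] at h
       first
        | exact n1 h | exact n1 h.symm | exact n2 h | exact n2 h.symm
        | exact n3 h | exact n3 h.symm)

lemma sym2_norm {Ω : Type} [Field Ω] {z α g0 g1 g2 : Ω} (hz : z ^ 2 + z + 1 = 0)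
    (h3 : (3 : Ω) ≠ 0) (hα : α ≠ 0) :
    ((g0 + g1 + g2) / 3) ^ 3 + α ^ 3 * ((g0 + (-1 - z) * g1 + z * g2) / (3 * α)) ^ 3 +
      (α ^ 3) ^ 2 * ((g0 + z * g1 + (-1 - z) * g2) / (3 * α ^ 2)) ^ 3 -
      3 * α ^ 3 * ((g0 + g1 + g2) / 3) * ((g0 + (-1 - z) * g1 + z * g2) / (3 * α)) *
        ((g0 + z * g1 + (-1 - z) * g2) / (3 * α ^ 2)) = g0 * g1 * g2 := by
  field_simp
  linear_combination (9 * g0 * (g1 - g2) ^ 2) * hz

theorem norm_of_cob {K Ω : Type} [Field K] [Field Ω] [Algebra K Ω] [IsGalois K Ω]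
    (ζ : K) (hζ : ζ ^ 2 + ζ + 1 = 0) (h3 : (3 : K) ≠ 0) (u p : K) (hu : u ≠ 0)
    (α : Ω) (hα : α ^ 3 = algebraMap K Ω u) (χ : (Ω ≃ₐ[K] Ω) → ZMod 3)
    (hχ : ∀ σ : Ω ≃ₐ[K] Ω, σ α = algebraMap K Ω ζ ^ (χ σ).val * α)
    (T : Finset Ω) (c : (Ω ≃ₐ[K] Ω) → Ω) (h0 : ∀ σ, c σ ≠ 0)
    (h1 : ∀ h : Ω ≃ₐ[K] Ω, (∀ y ∈ T, h y = y) → c h = 1)
    (hc : ∀ σ τ : Ω ≃ₐ[K] Ω, c σ * σ (c τ) =
      algebraMap K Ω p ^ (((χ σ).val + (χ τ).val) / 3) * c (σ * τ)) : ¬ NotNorm u p := by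
  intro hN
  have hinj := (algebraMap K Ω).injective
  have hz : algebraMap K Ω ζ ^ 2 + algebraMap K Ω ζ + 1 = 0 := by
    simpa using congrArg (algebraMap K Ω) hζ
  have h3' : (3 : Ω) ≠ 0 := fun e => h3 (hinj (by rw [map_ofNat, map_zero, e]))
  have hzf : ∀ σ : Ω ≃ₐ[K] Ω, σ (algebraMap K Ω ζ) = algebraMap K Ω ζ := fun σ => σ.commutes ζ
  generalize algebraMap K Ω ζ = z at hz hzf hχ
  have z3 : z ^ 3 = 1 := by linear_combination (z - 1) * hz
  have z0 : z ≠ 0 := fun e => by rw [e] at hz; simp at hz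
  have α0 : α ≠ 0 := fun e => hu (hinj (by rw [← hα, e, map_zero]; simp))
  have hadd : ∀ σ τ, χ (σ * τ) = χ σ + χ τ := by
    intro σ τ
    apply sym2_inj hz h3'
    apply mul_right_cancel₀ α0
    rw [← hχ, AlgEquiv.mul_apply, hχ τ, map_mul, map_pow, hzf, hχ σ, ZMod.val_add,
      ← pow_eq_pow_mod _ z3]
    ring
  have hone : χ 1 = 0 := by
    have := hadd 1 1
    rw [mul_one] at this
    linear_combination -this
  have hinv : ∀ σ, χ σ⁻¹ = -χ σ := fun σ => by
    have := hadd σ σ⁻¹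
    rw [mul_inv_cancel, hone] at this
    linear_combination -this
  let H : Subgroup (Ω ≃ₐ[K] Ω) :=
    { carrier := {σ | χ σ = 0}
      mul_mem' := fun {a b} ha hb => by
        change χ (a * b) = 0
        rw [hadd, show χ a = 0 from ha, show χ b = 0 from hb, add_zero]
      one_mem' := hone
      inv_mem' := fun {a} ha => by
        change χ a⁻¹ = 0
        rw [hinv, show χ a = 0 from ha, neg_zero] }
  obtain ⟨b, b0, hb⟩ := h90 H T c h0 h1 (fun σ hσ τ hτ => by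
    have := hc σ τ
    rw [show χ σ = 0 from hσ, show χ τ = 0 from hτ] at this
    simpa using this.symm)
  obtain ⟨d, hd1, hd⟩ : ∃ d : (Ω ≃ₐ[K] Ω) → Ω, (∀ h, χ h = 0 → d h = 1) ∧
      ∀ σ τ : Ω ≃ₐ[K] Ω, d σ * σ (d τ) =
        algebraMap K Ω p ^ (((χ σ).val + (χ τ).val) / 3) * d (σ * τ) := by
    refine ⟨fun σ => c σ * σ b / b, fun h hh => ?_, fun σ τ => ?_⟩
    · simp only
      rw [hb h hh, div_self b0]
    · have sb : σ b ≠ 0 := by simpa using b0
      simp only [map_div₀, map_mul, AlgEquiv.mul_apply]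
      field_simp
      linear_combination σ (τ b) * hc σ τ
  by_cases hall : ∀ σ, χ σ = 0
  · obtain ⟨v, hv⟩ := (InfiniteGalois.mem_range_algebraMap_iff_fixed (k := K) α).2 fun σ => by
      rw [hχ, hall]; simp
    have huv : u = v ^ 3 := hinj (by rw [← hα, ← hv, map_pow])
    have v0 : v ≠ 0 := fun e => hu (by rw [huv, e]; simp)
    apply hN ((p + 2) / 3) ((p - 1) / (3 * v)) ((p - 1) / (3 * v ^ 2))
    rw [huv]
    field_simp
    ring
  have tri : ∀ a : ZMod 3, a = 0 ∨ a = 1 ∨ a = 2 := by decide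
  obtain ⟨s, hs⟩ : ∃ s, χ s = 1 := by
    push Not at hall
    obtain ⟨σ, hσ⟩ := hall
    rcases tri (χ σ) with h | h | h
    · exact absurd h hσ
    · exact ⟨σ, h⟩
    · exact ⟨σ * σ, by rw [hadd, h]; decide⟩
  have fix : ∀ x : Ω, (∀ h : Ω ≃ₐ[K] Ω, χ h = 0 → h x = x) → s x = x →
      ∃ y, algebraMap K Ω y = x := by
    intro x hx hsx
    refine (InfiniteGalois.mem_range_algebraMap_iff_fixed (k := K) x).2 fun σ => ?_
    rcases tri (χ σ) with h | h | h
    · exact hx σ h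
    · have := hx (σ * s * s) (by rw [hadd, hadd, h, hs]; decide)
      rwa [AlgEquiv.mul_apply, AlgEquiv.mul_apply, hsx, hsx] at this
    · have := hx (σ * s) (by rw [hadd, h, hs]; decide)
      rwa [AlgEquiv.mul_apply, hsx] at this
  have conj : ∀ h, χ h = 0 → χ (s⁻¹ * h * s) = 0 := fun h hh => by
    rw [hadd, hadd, hinv, hh]; ring
  have step : ∀ x : Ω, (∀ h : Ω ≃ₐ[K] Ω, χ h = 0 → h x = x) →
      ∀ h : Ω ≃ₐ[K] Ω, χ h = 0 → h (s x) = s x := by
    intro x hx h hh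
    have e : h * s = s * (s⁻¹ * h * s) := by group
    rw [← AlgEquiv.mul_apply, e, AlgEquiv.mul_apply, hx _ (conj h hh)]
  have v1 : (1 : ZMod 3).val = 1 := by decide
  have v2 : (1 + 1 : ZMod 3).val = 2 := by decide
  have f0 : ∀ h : Ω ≃ₐ[K] Ω, χ h = 0 → h (d s) = d s := by
    intro h hh
    have e : h * s = s * (s⁻¹ * h * s) := by group
    have a1 := hd h s
    have a2 := hd s (s⁻¹ * h * s)
    rw [hd1 h hh, hh, hs, v1] at a1
    rw [hd1 _ (conj h hh), conj h hh, hs, v1, ← e] at a2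
    simp only [ZMod.val_zero, map_one, one_mul, mul_one, zero_add, add_zero, Nat.reduceDiv,
      pow_zero] at a1 a2
    rw [a1, a2]
  have f1 := step _ f0
  have f2 := step _ f1
  have s3 : χ (s * s * s) = 0 := by rw [hadd, hadd, hs]; decide
  have cyc : s (s (s (d s))) = d s := f0 (s * s * s) s3
  have prod : d s * s (d s) * s (s (d s)) = algebraMap K Ω p := by
    have a1 := hd s s
    have a2 := hd (s * s) s
    rw [hs, v1] at a1
    rw [hadd, hs, v1, v2, hd1 _ s3, AlgEquiv.mul_apply] at a2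
    simp only [Nat.reduceAdd, Nat.reduceDiv, pow_zero, one_mul, pow_one, mul_one] at a1 a2
    rw [a1, a2]
  have hα0 : ∀ h : Ω ≃ₐ[K] Ω, χ h = 0 → h α = α := fun h hh => by rw [hχ, hh]; simp
  have hα1 : s α = z * α := by rw [hχ, hs, v1, pow_one]
  generalize hg2 : s (s (d s)) = g2 at f2 cyc prod
  generalize hg1 : s (d s) = g1 at f1 hg2 prod
  generalize d s = g0 at f0 hg1 cyc prod
  obtain ⟨x, hx⟩ := fix ((g0 + g1 + g2) / 3)
    (fun h hh => by simp only [map_div₀, map_add, map_ofNat, f0 h hh, f1 h hh, f2 h hh])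
    (by simp only [map_div₀, map_add, map_ofNat, hg1, hg2, cyc]; ring)
  obtain ⟨y, hy⟩ := fix ((g0 + (-1 - z) * g1 + z * g2) / (3 * α))
    (fun h hh => by simp only [map_div₀, map_add, map_mul, map_sub, map_neg, map_one, map_ofNat,
      f0 h hh, f1 h hh, f2 h hh, hzf, hα0 h hh])
    (by simp only [map_div₀, map_add, map_mul, map_sub, map_neg, map_one, map_ofNat, hg1, hg2,
          cyc, hzf, hα1]
        field_simp
        linear_combination (g1 - g2) * hz)
  obtain ⟨w, hw⟩ := fix ((g0 + z * g1 + (-1 - z) * g2) / (3 * α ^ 2))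
    (fun h hh => by simp only [map_div₀, map_add, map_mul, map_sub, map_neg, map_one, map_ofNat,
      map_pow, f0 h hh, f1 h hh, f2 h hh, hzf, hα0 h hh])
    (by simp only [map_div₀, map_add, map_mul, map_sub, map_neg, map_one, map_ofNat, map_pow,
          hg1, hg2, cyc, hzf, hα1]
        field_simp
        linear_combination (-g0 + (1 - z) * g1 + z * g2) * hz)
  apply hN x y w
  apply hinj
  simp only [map_add, map_sub, map_mul, map_pow, map_ofNat]
  rw [hx, hy, hw, ← hα, ← prod]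
  exact sym2_norm hz h3' α0

end Pool.Agent.Lib.MP_c05f82_nt.GC
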