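import Pool.Agent.Lib.MP_c05f82_nt.GC.Bot

/-!
The filtration of the cover is a tower.
-/

open scoped commutatorElement

namespace Pool.Agent.Lib.MP_c05f82_nt.GC

variable {K : Type} [Field K]

namespace Cov

variable (D : Dat K)

/-- odd congruence subgroups -/
def Vg (j : ℕ) : Subgroup (Cov D) where
  carrier := {x | D.Gm (j + 1) j (j + 1) x.g}
  mul_mem' := fun hx hy => Dat.Gm.mul (by omega) hx hy
  one_mem' := Dat.Gm.one _ _ _
  inv_mem' := fun hx => Dat.Gm.inv hx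

/-- even congruence subgroups -/
def Hg (j : ℕ) : Subgroup (Cov D) where
  carrier := {x | D.Gm (j + 1) (j + 1) (j + 2) x.g}
  mul_mem' := fun hx hy => Dat.Gm.mul (by omega) hx hy
  one_mem' := Dat.Gm.one _ _ _
  inv_mem' := fun hx => Dat.Gm.inv hx

/-- the terms of the filtration -/
def Vt (j : ℕ) : Subgroup (Cov D) := if j < 3 * D.m then Vg D j else S D

noncomputable def ht (j : ℕ) (x : Cov D) : ZMod 3 :=
  if j + 1 < 3 * D.m then D.co (j + 1) (x.g.a - 1) else x.z - D.ss x.g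

noncomputable def tt (j : ℕ) : Cov D :=
  if j + 1 < 3 * D.m then Hh D (1 + D.p ^ (j + 1)) else zc D 1

variable {D}

lemma mem_Vt {j : ℕ} (hj : j < 3 * D.m) {x : Cov D} :
    x ∈ Vt D j ↔ D.Gm (j + 1) j (j + 1) x.g := by rw [Vt, if_pos hj]; rfl

lemma Vt_of_le {j : ℕ} (hj : 3 * D.m ≤ j) : Vt D j = S D := if_neg (by omega)

lemma mem_Vt_zero {x : Cov D} : x ∈ Vt D 0 ↔ D.Gm 1 0 1 x.g :=
  mem_Vt (by have := D.m_pos; omega)

lemma mem_Hg {j : ℕ} {x : Cov D} : x ∈ Hg D j ↔ D.Gm (j + 1) (j + 1) (j + 2) x.g := Iff.rfl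

lemma mem_Hg_last {j : ℕ} (hj : 3 * D.m = j + 1) {x : Cov D} : x ∈ Hg D j ↔ D.G0 x.g := by
  rw [mem_Hg, Dat.G0, hj]

lemma lev_t (j : ℕ) : D.L (j + 1) (1 + D.p ^ (j + 1) - 1) := (Dat.L.pow _).of_eq (by ring)

lemma t_ne (j : ℕ) : 1 + D.p ^ (j + 1) ≠ 0 := ((lev_t j).mono (by omega)).ne_zero

lemma co_zero (k : ℕ) : D.co k 0 = 0 := (Dat.co_eq_zero_iff (Dat.L.zero k)).2 (Dat.L.zero _)

variable (D)

/-- the tower -/
noncomputable def tower : Tower (Cov D) (3 * D.m) where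
  V := Vt D
  H := Hg D
  be := be D
  de := de D
  v j x := (D.co j x.g.b, D.co (j + 1) x.g.c)
  h := ht D
  e j := E D (D.p ^ j)
  f j := F D (D.p ^ (j + 1))
  t := tt D
  be2 := be_be D
  de2 := de_de D
  bd := be_de D
  HV j hj x hx := (mem_Vt hj).2 (Dat.Gm.mono hx le_rfl (by omega) (by omega))
  VH j hj x hx := by
    by_cases h : j + 1 < 3 * D.m
    · exact Dat.Gm.mono ((mem_Vt h).1 hx) (by omega) le_rfl le_rfl
    · rw [Vt_of_le (by omega)] at hx
      exact (mem_Hg_last (by omega)).2 hx.1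
  beV j hj x hx := by
    rcases hj.lt_or_eq with h | rfl
    · exact (mem_Vt h).2 (Dat.Gm.be ((mem_Vt h).1 hx))
    · rw [Vt_of_le le_rfl] at hx ⊢; exact be_S hx
  deV j hj x hx := by
    rcases hj.lt_or_eq with h | rfl
    · exact (mem_Vt h).2 (Dat.Gm.de ((mem_Vt h).1 hx))
    · rw [Vt_of_le le_rfl] at hx ⊢; exact de_S hx
  beH j _ x hx := Dat.Gm.be (k := j + 1) hx
  deH j _ x hx := Dat.Gm.de hx
  cV j hj x hx g hg := Dat.Gm.comm_V ((mem_Vt hj).1 hx) (mem_Vt_zero.1 hg)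
  cH j hj x hx g hg := by
    by_cases h : j + 1 < 3 * D.m
    · exact (mem_Vt h).2 (Dat.Gm.comm_H hx (mem_Vt_zero.1 hg))
    · rw [Vt_of_le (by omega)]
      exact comm_S ((mem_Hg_last (by omega)).1 hx) (mem_Vt_zero.1 hg)
  cN x hx g hg := by
    rw [Vt_of_le le_rfl] at hx ⊢
    exact comm_S hx.1 (mem_Vt_zero.1 hg)
  v_mul j hj x hx y hy := Prod.ext (Dat.co_b_mul ((mem_Vt hj).1 hx) ((mem_Vt hj).1 hy))
    (Dat.co_c_mul ((mem_Vt hj).1 hx) ((mem_Vt hj).1 hy))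
  v_zero j hj x hx := by
    rw [Prod.mk_eq_zero]
    exact Dat.co_bc_zero ((mem_Vt hj).1 hx)
  h_mul j hj x hx y hy := by
    unfold ht
    split_ifs with h
    · exact Dat.co_a_mul hx hy
    · rw [mul_z, mul_g, Dat.G0.sg ((mem_Hg_last (by omega)).1 hx) ((mem_Hg_last (by omega)).1 hy)]
      ring
  h_zero j hj x hx := by
    unfold ht
    split_ifs with h
    · rw [mem_Vt h]; exact Dat.co_a_zero hx
    · rw [Vt_of_le (by omega), mem_S, sub_eq_zero]
      exact ⟨fun e => ⟨(mem_Hg_last (by omega)).1 hx, e⟩, fun e => e.2⟩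
  e_mem j hj := (mem_Vt hj).2 (Gm_eM (Dat.L.pow j) _ _)
  t_mem j hj := by
    unfold tt
    split_ifs with h
    · exact ⟨by rw [Hh_g, SL.hM_a (t_ne j)]; exact lev_t j, (Dat.L.zero _).of_eq (by simp),
        (Dat.L.zero _).of_eq (by simp),
        by rw [Hh_g, SL.hM_d (t_ne j)]; exact (lev_t j).inv_sub_one⟩
    · exact Dat.Gm.one _ _ _
  v_e j _ := Prod.ext (Dat.co_pow j) (co_zero _)
  v_f j _ := Prod.ext (co_zero _) (Dat.co_pow _)
  h_t j hj := by
    unfold ht tt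
    split_ifs with h
    · rw [Hh_g, SL.hM_a (t_ne j), add_sub_cancel_left, Dat.co_pow]
    · simp [Dat.ss_one]
  be_e j _ := by rw [be_E, pow_succ']
  de_e j _ := by rw [de_E, E_inv]
  be_t j hj := by rw [tt, if_pos hj, be_Hh D (t_ne j)]
  be_z j hj := by rw [tt, if_neg (by omega), be_zc]
  de_t j _ := by
    unfold tt
    split_ifs
    · exact de_Hh D _
    · exact de_zc D _
  ee j _ := E_comm D _ _
  ef j hj := by
    by_cases h : j + 1 < 3 * D.m
    · rw [mem_Vt h]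
      intro hh
      have e : (⁅E D (D.p ^ j), F D (D.p ^ (0 + 1))⁆).g.a - 1 =
          D.p ^ (j + 1) + D.p ^ (j + 1) * D.p ^ (j + 1) := by
        simp [commutatorElement_def]; ring
      exact Dat.not_L_pow (j + 1) (((e ▸ hh.1).sub
        ((Dat.L.pow (j + 1)).mul (Dat.L.pow (j + 1)) (by omega))).of_eq (by ring))
    · rw [Vt_of_le (by omega)]
      exact key (by omega)
  te j hj := by
    have h0 := t_ne (D := D) j
    have e : (⁅tt D j, E D (D.p ^ 0)⁆).g = SL.eM ((1 + D.p ^ (j + 1)) ^ 2 - 1) := by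
      rw [tt, if_pos hj]
      ext <;> simp [commutatorElement_def, SL.hM_a, SL.hM_d, h0]
      ring
    rw [e]
    refine Prod.ext ?_ (co_zero _)
    exact Dat.co_eq (r := 2) (((Dat.L.pow (j + 1)).mul (Dat.L.pow (j + 1)) (by omega)).of_eq
      (by simp; ring))

end Cov

end Pool.Agent.Lib.MP_c05f82_nt.GC
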