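import Pool.Agent.Lib.MP_c05f82_nt.GC.Defs

/-!
Small modules over the Eisenstein integers.
-/

open scoped commutatorElement

namespace Pool.Agent.Lib.MP_c05f82_nt.GC

/-- multiplication by `k` -/
def mu (n : ℕ) (k : ZMod n) : ZMod n →+ ZMod n := AddMonoidHom.mulLeft k

/-- multiplication by a cube root of unity on the Eisenstein integers modulo `n` -/
def rot (n : ℕ) : ZMod n × ZMod n →+ ZMod n × ZMod n :=
  AddMonoidHom.mk' (fun x => (-x.2, x.1 - x.2)) fun x y => by
    ext <;> simp <;> ring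

@[simp] lemma mu_apply (n : ℕ) (k x : ZMod n) : mu n k x = k * x := rfl
@[simp] lemma rot_apply (n : ℕ) (x : ZMod n × ZMod n) : rot n x = (-x.2, x.1 - x.2) := rfl

theorem eis_mu (n : ℕ) (k : ZMod n) (hk : k * k + k + 1 = 0) (l : ℕ) (hl : (l : ZMod n) * 3 = 1) :
    Eis (mu n k) := by
  refine ⟨fun x => ?_, l, fun x => ?_⟩
  · simp only [mu_apply]
    linear_combination x * hk
  · rw [zsmul_eq_mul]
    push_cast
    linear_combination x * hl

theorem eis_rot (n : ℕ) (l : ℕ) (hl : (l : ZMod n) * 3 = 1) : Eis (rot n) := by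
  refine ⟨fun x => ?_, l, fun x => ?_⟩
  · ext
    · simp only [rot_apply, Prod.fst_add, Prod.fst_zero]
      ring
    · simp only [rot_apply, Prod.snd_add, Prod.snd_zero]
      ring
  · ext
    · rw [Prod.smul_fst, zsmul_eq_mul]
      push_cast
      linear_combination x.1 * hl
    · rw [Prod.smul_snd, zsmul_eq_mul]
      push_cast
      linear_combination x.2 * hl

/-- the elements killed by `d` -/
def wcKer (n d : ℕ) : AddSubgroup (ZMod n) := (nsmulAddMonoidHom (α := ZMod n) d).ker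

lemma wcKer_card {n d : ℕ} (hn : n ≠ 0) (hd : d ∣ n) : Nat.card (wcKer n d) = d := by
  have : NeZero n := ⟨hn⟩
  rw [wcKer, IsAddCyclic.card_nsmulAddMonoidHom_ker, Nat.card_zmod, Nat.gcd_eq_right hd]

lemma wc_eq_ker {n : ℕ} (hn : n ≠ 0) (H : AddSubgroup (ZMod n)) :
    Nat.card H ∣ n ∧ wcKer n (Nat.card H) = H := by
  have : NeZero n := ⟨hn⟩
  have hd : Nat.card H ∣ n := by
    have := H.card_addSubgroup_dvd_card
    rwa [Nat.card_zmod] at this
  refine ⟨hd, (AddSubgroup.eq_of_le_of_card_ge ?_ (wcKer_card hn hd).le).symm⟩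
  intro x hx
  have h : Nat.card H • (⟨x, hx⟩ : H) = 0 := card_nsmul_eq_zero'
  exact congrArg Subtype.val h

theorem DW_mu (n : ℕ) (hn : n ≠ 0) (k : ZMod n) : DW (mu n k) = ∑ d ∈ n.divisors, d := by
  classical
  rw [DW, awt_eq_sum (n.divisors.image (wcKer n)), Finset.sum_image]
  · exact Finset.sum_congr rfl fun d hd => wcKer_card hn (Nat.dvd_of_mem_divisors hd)
  · intro d hd d' hd' h
    rw [← wcKer_card hn (Nat.dvd_of_mem_divisors hd), h,
      wcKer_card hn (Nat.dvd_of_mem_divisors hd')]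
  · intro H
    refine ⟨fun _ x hx => ZMod.smul_mem hx k, fun _ => ?_⟩
    exact Finset.mem_image.2
      ⟨_, Nat.mem_divisors.2 ⟨(wc_eq_ker hn H).1, hn⟩, (wc_eq_ker hn H).2⟩

lemma wc_field {p : ℕ} [Fact p.Prime] (H : AddSubgroup (ZMod p)) : H = ⊥ ∨ H = ⊤ := by
  by_cases h : H = ⊥
  · exact Or.inl h
  · right
    obtain ⟨⟨x, hx⟩, hne⟩ := (AddSubgroup.ne_bot_iff_exists_ne_zero).1 h
    have h0 : x ≠ 0 := fun e => hne (Subtype.ext e)
    rw [eq_top_iff]
    intro a _
    have := ZMod.smul_mem hx (a / x)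
    rwa [smul_eq_mul, div_mul_cancel₀ a h0] at this

lemma wc_prod_card {A B : Type} [AddCommGroup A] [AddCommGroup B] (H : AddSubgroup A)
    (K : AddSubgroup B) : Nat.card (H.prod K) = Nat.card H * Nat.card K := by
  rw [Nat.card_congr (AddSubgroup.prodEquiv H K).toEquiv, Nat.card_prod]

lemma wc_seven_split (H : AddSubgroup (ZMod 7 × ZMod 7))
    (hH : ∀ x ∈ H, ((mu 7 2).prodMap (mu 7 4)) x ∈ H) :
    H = (H.comap (AddMonoidHom.inl _ _)).prod (H.comap (AddMonoidHom.inr _ _)) := by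
  ext ⟨x, y⟩
  rw [AddSubgroup.mem_prod, AddSubgroup.mem_comap, AddSubgroup.mem_comap]
  constructor
  · intro h
    have h1 : ((2 * x, 4 * y) : ZMod 7 × ZMod 7) ∈ H := hH _ h
    have e7 : (7 : ZMod 7) = 0 := rfl
    have h2 : ((0, y) : ZMod 7 × ZMod 7) ∈ H := by
      have := ZMod.smul_mem (H.sub_mem h1 (ZMod.smul_mem h (2 : ZMod 7))) (4 : ZMod 7)
      refine (congrArg (· ∈ H) ?_).mp this
      ext
      · simp only [Prod.smul_fst, Prod.fst_sub, smul_eq_mul]
        ring
      · simp only [Prod.smul_snd, Prod.snd_sub, smul_eq_mul]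
        linear_combination y * e7
    refine ⟨?_, h2⟩
    have := H.sub_mem h h2
    refine (congrArg (· ∈ H) ?_).mp this
    ext <;> simp
  · rintro ⟨h1, h2⟩
    have := H.add_mem h1 h2
    refine (congrArg (· ∈ H) ?_).mp this
    ext <;> simp

theorem DW_seven : DW ((mu 7 2).prodMap (mu 7 4)) = 64 := by
  classical
  have : Fact (Nat.Prime 7) := ⟨by norm_num⟩
  have hne : (⊥ : AddSubgroup (ZMod 7)) ≠ ⊤ := bot_ne_top
  have hinj : Function.Injective
      (fun p : AddSubgroup (ZMod 7) × AddSubgroup (ZMod 7) => p.1.prod p.2) := by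
    rintro ⟨a, b⟩ ⟨a', b'⟩ h
    have h' : a.prod b = a'.prod b' := h
    have h1 : ∀ x, x ∈ a ↔ x ∈ a' := fun x => by
      have : ((x, 0) : ZMod 7 × ZMod 7) ∈ a.prod b ↔ ((x, 0) : ZMod 7 × ZMod 7) ∈ a'.prod b' := by
        rw [h']
      simpa [AddSubgroup.mem_prod] using this
    have h2 : ∀ x, x ∈ b ↔ x ∈ b' := fun x => by
      have : ((0, x) : ZMod 7 × ZMod 7) ∈ a.prod b ↔ ((0, x) : ZMod 7 × ZMod 7) ∈ a'.prod b' := by
        rw [h']
      simpa [AddSubgroup.mem_prod] using this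
    exact Prod.ext (AddSubgroup.ext h1) (AddSubgroup.ext h2)
  rw [DW, awt_eq_sum ((({⊥, ⊤} : Finset (AddSubgroup (ZMod 7))) ×ˢ
    ({⊥, ⊤} : Finset (AddSubgroup (ZMod 7)))).image fun p => p.1.prod p.2),
    Finset.sum_image hinj.injOn, Finset.sum_product]
  · simp only [wc_prod_card, Finset.sum_pair hne, AddSubgroup.card_bot, AddSubgroup.card_top,
      Nat.card_zmod]
    norm_num
  · intro H
    constructor
    · intro h x hx
      obtain ⟨⟨a, b⟩, -, rfl⟩ := Finset.mem_image.1 h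
      rw [AddSubgroup.mem_prod] at hx ⊢
      exact ⟨ZMod.smul_mem hx.1 (2 : ZMod 7), ZMod.smul_mem hx.2 (4 : ZMod 7)⟩
    · intro h
      refine Finset.mem_image.2 ⟨(_, _), ?_, (wc_seven_split H h).symm⟩
      simp only [Finset.mem_product, Finset.mem_insert, Finset.mem_singleton]
      exact ⟨wc_field _, wc_field _⟩

lemma wc_rot (p : ℕ) [Fact p.Prime]
    (hp : ∀ x y : ZMod p, x * x - x * y + y * y = 0 → x = 0 ∧ y = 0) :
    DW (rot p) = 1 + p * p := by
  classical
  have hne : (⊥ : AddSubgroup (ZMod p × ZMod p)) ≠ ⊤ := bot_ne_top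
  rw [DW, awt_eq_sum ({⊥, ⊤} : Finset (AddSubgroup (ZMod p × ZMod p))), Finset.sum_pair hne,
    AddSubgroup.card_bot, AddSubgroup.card_top, Nat.card_prod, Nat.card_zmod]
  intro H
  rw [Finset.mem_insert, Finset.mem_singleton]
  constructor
  · rintro (rfl | rfl) x hx
    · rw [AddSubgroup.mem_bot] at hx ⊢
      rw [hx, map_zero]
    · trivial
  · intro hH
    by_cases h : H = ⊥
    · exact Or.inl h
    · right
      obtain ⟨⟨⟨x, y⟩, hx⟩, hne⟩ := (AddSubgroup.ne_bot_iff_exists_ne_zero).1 h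
      have h0 : x * x - x * y + y * y ≠ 0 := fun e =>
        hne (Subtype.ext (Prod.ext (hp x y e).1 (hp x y e).2))
      have h1 : ((-y, x - y) : ZMod p × ZMod p) ∈ H := hH _ hx
      rw [eq_top_iff]
      rintro ⟨a, b⟩ -
      have := H.add_mem (ZMod.smul_mem hx ((a * (x - y) + b * y) * (x * x - x * y + y * y)⁻¹))
        (ZMod.smul_mem h1 ((b * x - a * y) * (x * x - x * y + y * y)⁻¹))
      have hi := mul_inv_cancel₀ h0
      refine (congrArg (· ∈ H) ?_).mp this
      ext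
      · simp only [Prod.fst_add, Prod.smul_fst, smul_eq_mul]
        linear_combination a * hi
      · simp only [Prod.snd_add, Prod.smul_snd, smul_eq_mul]
        linear_combination b * hi

theorem DW_rot_five : DW (rot 5) = 26 := by
  have h : ∀ x y : ZMod 5, x * x - x * y + y * y = 0 → x = 0 ∧ y = 0 := by decide
  have : Fact (Nat.Prime 5) := ⟨by norm_num⟩
  exact wc_rot 5 h

theorem DW_rot_eleven : DW (rot 11) = 122 := by
  have h : ∀ x y : ZMod 11, x * x - x * y + y * y = 0 → x = 0 ∧ y = 0 := by decide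
  have : Fact (Nat.Prime 11) := ⟨by norm_num⟩
  exact wc_rot 11 h

end Pool.Agent.Lib.MP_c05f82_nt.GC
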